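import Pool.Agent.TH976.Arms

/-!
Adding a point to a connected set of vertices of the quadrant.
-/

set_option autoImplicit false

namespace TH976
open Finset H974 Pool.Agent.H160R2.CV H362P
open Pool.Agent.H160R2.CV.Quad
open H973 (dlt dlt_pos dlt_le rswL)

theorem unwireQ_in {c : Vtx} (hc : InV c) {R : ℕ} (hR : 1 ≤ R) {F : Finset Edg} (hF : InQ F)
    (h : CQ c R F) {A : Set Edg}
    (hA : ∀ e ∈ A, (InV (src e) ∧ sd (src e) c ≤ R) ∧ (InV (tgt e) ∧ sd (tgt e) c ≤ R))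
    {u v : Vtx} (hu : 3 * R ≤ sd u c) (hv : 3 * R ≤ sd v c) (hr : Reach (↑F ∪ A) u v) :
    Reach (↑F) u v := by
  obtain ⟨z, hz⟩ := CQ_meet hc hR hF h
  have key : ∀ u v : Vtx, 3 * R ≤ sd u c → Reach (↑F ∪ A) u v →
      Reach (↑F) u v ∨ Reach (↑F) u z := by
    intro u v hu hr
    rcases hit_or (T := fun w => InV w ∧ sd w c ≤ R) hA hr with h1 | ⟨w, h1, h2⟩
    · exact Or.inl h1
    · exact Or.inr (h2.trans (hz w u h1.1 h1.2 hu h2.symm))
  rcases key u v hu hr with h1 | h1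
  · exact h1
  · rcases key v u hv hr.symm with h2 | h2
    · exact h2.symm
    · exact h1.trans h2.symm

theorem unwireQ_out {c : Vtx} (hc : InV c) {R : ℕ} (hR : 1 ≤ R) {F : Finset Edg} (hF : InQ F)
    (h : CQ c R F) {A : Set Edg}
    (hA : ∀ e ∈ A, (InV (src e) ∧ 3 * R ≤ sd (src e) c) ∧ (InV (tgt e) ∧ 3 * R ≤ sd (tgt e) c))
    {u v : Vtx} (hu1 : InV u) (hv1 : InV v) (hu : sd u c ≤ R) (hv : sd v c ≤ R)
    (hr : Reach (↑F ∪ A) u v) : Reach (↑F) u v := by
  obtain ⟨z, hz⟩ := CQ_meet hc hR hF h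
  have key : ∀ u v : Vtx, InV u → sd u c ≤ R → Reach (↑F ∪ A) u v →
      Reach (↑F) u v ∨ Reach (↑F) u z := by
    intro u v hu1 hu hr
    rcases hit_or (T := fun w => InV w ∧ 3 * R ≤ sd w c) hA hr with h1 | ⟨w, h1, h2⟩
    · exact Or.inl h1
    · exact Or.inr (hz u w hu1 hu h1.2 h2)
  rcases key u v hu1 hu hr with h1 | h1
  · exact h1
  · rcases key v u hv1 hv hr.symm with h2 | h2
    · exact h2.symm
    · exact h1.trans h2.symm

/-- the constant of the decoupling -/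
noncomputable def k4 : ℝ := dlt ^ 4

theorem k4_pos : 0 < k4 := pow_pos dlt_pos 4
theorem k4_le : k4 ≤ 1 := pow_le_one₀ dlt_pos.le dlt_le

theorem pr_CQ' {c : Vtx} (hc : InV c) {R : ℕ} (hR : 1 ≤ R) {S : Finset Edg}
    (hS : qb c (3 * R) ⊆ S) : k4 ≤ Pr P S (CQ c R) := pr_CQ hc hR hS

theorem bq_le' {p : Vtx} (hp : InV p) {r n : ℕ} (hr : 1 ≤ r) (hn : 3 * r ≤ n) :
    k4 * (aq p (3 * r) * bq p r n) ≤ aq p n := bq_le hp hr hn

attribute [irreducible] k4

/-- decoupling the neighbourhood of the new point -/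
theorem addQ_upper1 {X : Finset Vtx} {x y : Vtx} (hx : InV x) {a : ℕ} (hy : y ∈ X)
    (hxy : sd y x = a) (ha : 3 ≤ a) (hX : ∀ u ∈ X, a ≤ sd u x) {S : Finset Edg} (hSQ : InQ S)
    (hS : qb x a ⊆ S) :
    k4 * Pr P S (fun F => Cn (insert x X) (↑F)) ≤ aq x (a / 3) * Pr P S (fun F => Cn X (↑F)) := by
  classical
  set r := a / 3 with hr
  have hr1 : 1 ≤ r := by omega
  have h3r : 3 * r ≤ a := by omega
  set B := qb x r with hB
  set S2 := S \ B with hS2
  set E : Finset Edg → Prop := fun F => Cn X (↑(F ∩ S2) ∪ ↑B) with hE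
  have hEi : IncA E := by
    intro F G h hF
    refine Cn.mono (Set.union_subset_union_left _ ?_) hF
    exact_mod_cast Finset.inter_subset_inter_right h
  have hEl : LocE S2 E := by
    intro F
    rw [hE]
    simp only [Finset.inter_assoc, Finset.inter_self]
  have hd : Disjoint B S2 := by rw [hS2]; exact Finset.disjoint_sdiff
  have s1 : Pr P S (fun F => Cn (insert x X) (↑F)) ≤ Pr P S (fun F => ArL x r F ∧ E F) := by
    apply Pr_mono okP
    intro F hFS hF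
    refine ⟨Ar_loc (hSQ.mono hFS) (m := a) (by omega) ⟨y, hxy.ge,
      hF x (Finset.mem_insert_self _ _) y (Finset.mem_insert_of_mem hy)⟩, ?_⟩
    intro u hu v hv
    refine (hF u (Finset.mem_insert_of_mem hu) v (Finset.mem_insert_of_mem hv)).mono ?_
    intro e he
    by_cases h1 : e ∈ B
    · exact Or.inr (by exact_mod_cast h1)
    · left
      rw [Finset.mem_coe, Finset.mem_inter, hS2, Finset.mem_sdiff]
      exact ⟨Finset.mem_coe.mp he, hFS (Finset.mem_coe.mp he), h1⟩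
  have s2 := indep2 S B S2 hd (ArL_inc x r) hEi (ArL_loc x r) hEl
  rw [pr_ArL] at s2
  have s4 : Pr P S2 E ≤ Pr P S E :=
    Pr_mono_set okP Finset.sdiff_subset (fun F G h _ => hEi F G h)
  have hcirc : k4 ≤ Pr P S (CQ x r) := pr_CQ' hx hr1 ((qb_mono h3r).trans hS)
  have s5 : Pr P S E * Pr P S (CQ x r) ≤ Pr P S (fun F => Cn X (↑F)) := by
    refine (Pr_harris okP (fun F G h _ => hEi F G h) (CQ_incr S x r)).trans ?_
    apply Pr_mono okP
    rintro F hFS ⟨h1, h2⟩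
    intro u hu v hv
    refine unwireQ_in hx hr1 (hSQ.mono hFS) h2 (A := ↑B) ?_
      (h3r.trans (hX u hu)) (h3r.trans (hX v hv)) ?_
    · intro e he
      exact qb_ends (Finset.mem_coe.mp he)
    · refine (h1 u hu v hv).mono (Set.union_subset_union_left _ ?_)
      exact_mod_cast Finset.inter_subset_left
  have p0 : 0 ≤ Pr P S E := Pr_nonneg okP _ _
  have p1 : 0 ≤ aq x r := aq_nonneg x r
  have s6 : k4 * Pr P S E ≤ Pr P S (fun F => Cn X (↑F)) := by
    rw [mul_comm]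
    exact (mul_le_mul_of_nonneg_left hcirc p0).trans s5
  calc k4 * Pr P S (fun F => Cn (insert x X) (↑F)) ≤ k4 * (aq x r * Pr P S2 E) :=
        mul_le_mul_of_nonneg_left (s1.trans s2) k4_pos.le
    _ = aq x r * (k4 * Pr P S2 E) := by ring
    _ ≤ aq x r * (k4 * Pr P S E) := by
        apply mul_le_mul_of_nonneg_left _ p1
        exact mul_le_mul_of_nonneg_left s4 k4_pos.le
    _ ≤ _ := mul_le_mul_of_nonneg_left s6 p1

/-- the new point is far from the others -/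
theorem addQ_upper2 {X : Finset Vtx} (hXV : ∀ u ∈ X, InV u) {x y : Vtx} (hx : InV x) {a R : ℕ}
    (hy : y ∈ X) (hxy : sd x y = a) (hR : 1 ≤ R) (haR : 27 * R ≤ a) (hX : ∀ u ∈ X, sd u y ≤ R)
    {S : Finset Edg} (hSQ : InQ S) (hS : qb y (3 * R) ⊆ S) :
    k4 * Pr P S (fun F => Cn (insert x X) (↑F)) ≤
      aq x (a / 3) * (bq y (3 * R) (a / 3) * Pr P S (fun F => Cn X (↑F))) := by
  classical
  have hyV := hXV y hy
  set n := a / 3 with hn
  have hn1 : 9 * R ≤ n := by omega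
  set B := qb y (3 * R) with hB
  set A2 := qb y n \ B with hA2
  set O : Set Edg := {e | (0 ≤ e.1 ∧ 0 ≤ e.2.1) ∧ e ∉ B} with hO
  set E : Finset Edg → Prop := fun F => Cn X (↑(F ∩ B) ∪ O) with hE
  have hEi : IncA E := by
    intro F G h hF
    refine Cn.mono (Set.union_subset_union_left _ ?_) hF
    exact_mod_cast Finset.inter_subset_inter_right h
  have hEl : LocE B E := by
    intro F
    rw [hE]
    simp only [Finset.inter_assoc, Finset.inter_self]
  have hCi : IncA (CxL y (3 * R) n) := CxL_inc _ _ _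
  have hCl : LocE A2 (CxL y (3 * R) n) := CxL_loc _ _ _
  have hd2 : Disjoint B A2 := by rw [hA2]; exact Finset.disjoint_sdiff
  have hBn : B ⊆ qb y n := qb_mono (by omega)
  have hd1 : Disjoint (qb x n) (B ∪ A2) := by
    have h1 : B ∪ A2 ⊆ qb y n := Finset.union_subset hBn (by rw [hA2]; exact Finset.sdiff_subset)
    exact Finset.disjoint_of_subset_right h1 (qb_disj (by omega))
  have hBi : IncA (fun F => E F ∧ CxL y (3 * R) n F) :=
    fun F G h hF => ⟨hEi F G h hF.1, hCi F G h hF.2⟩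
  have hBl : LocE (B ∪ A2) (fun F => E F ∧ CxL y (3 * R) n F) := by
    intro F
    show (E F ∧ CxL y (3 * R) n F) ↔ (E (F ∩ (B ∪ A2)) ∧ CxL y (3 * R) n (F ∩ (B ∪ A2)))
    rw [hEl F, hCl F, hEl (F ∩ (B ∪ A2)), hCl (F ∩ (B ∪ A2))]
    have e1 : F ∩ (B ∪ A2) ∩ B = F ∩ B := by
      ext e; simp only [Finset.mem_inter, Finset.mem_union]; tauto
    have e2 : F ∩ (B ∪ A2) ∩ A2 = F ∩ A2 := by
      ext e; simp only [Finset.mem_inter, Finset.mem_union]; tauto
    rw [e1, e2]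
  have s1 : Pr P S (fun F => Cn (insert x X) (↑F)) ≤
      Pr P S (fun F => ArL x n F ∧ (E F ∧ CxL y (3 * R) n F)) := by
    apply Pr_mono okP
    intro F hFS hF
    have hQ : InQ F := hSQ.mono hFS
    have hxy' : Reach (↑F) x y := hF x (Finset.mem_insert_self _ _) y (Finset.mem_insert_of_mem hy)
    refine ⟨Ar_loc hQ (m := a) (by omega) ⟨y, by rw [sd_comm]; exact hxy.ge, hxy'⟩, ?_, ?_⟩
    · intro u hu v hv
      refine (hF u (Finset.mem_insert_of_mem hu) v (Finset.mem_insert_of_mem hv)).mono ?_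
      intro e he
      by_cases h1 : e ∈ B
      · left
        rw [Finset.mem_coe, Finset.mem_inter]
        exact ⟨Finset.mem_coe.mp he, h1⟩
      · exact Or.inr ⟨hQ e (Finset.mem_coe.mp he), h1⟩
    · exact Cx_loc hQ (by omega) ⟨y, x, hyV, by rw [sd_self]; omega, by omega, hxy'.symm⟩
  have s2 := indep2 S (qb x n) (B ∪ A2) hd1 (ArL_inc x n) hBi (ArL_loc x n) hBl
  rw [pr_ArL] at s2
  have s2' := indep2 (B ∪ A2) B A2 hd2 hEi hCi hEl hCl
  have e3 : Pr P A2 (CxL y (3 * R) n) = bq y (3 * R) n := pr_CxL _ _ _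
  rw [e3] at s2'
  have s4 : Pr P B E ≤ Pr P S E := Pr_mono_set okP hS (fun F G h _ => hEi F G h)
  have hcirc : k4 ≤ Pr P S (CQ y R) := pr_CQ' hyV hR hS
  have s5 : Pr P S E * Pr P S (CQ y R) ≤ Pr P S (fun F => Cn X (↑F)) := by
    refine (Pr_harris okP (fun F G h _ => hEi F G h) (CQ_incr S y R)).trans ?_
    apply Pr_mono okP
    rintro F hFS ⟨h1, h2⟩
    intro u hu v hv
    refine unwireQ_out hyV hR (hSQ.mono hFS) h2 (A := O) ?_ (hXV u hu) (hXV v hv)
      (hX u hu) (hX v hv) ?_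
    · rintro e ⟨he1, he2⟩
      exact qb_ends' he1 he2
    · refine (h1 u hu v hv).mono (Set.union_subset_union_left _ ?_)
      exact_mod_cast Finset.inter_subset_left
  have p0 : 0 ≤ Pr P S E := Pr_nonneg okP _ _
  have p1 : 0 ≤ aq x n := aq_nonneg x n
  have p2 : 0 ≤ bq y (3 * R) n := bq_nonneg _ _ _
  have s6 : k4 * Pr P S E ≤ Pr P S (fun F => Cn X (↑F)) := by
    rw [mul_comm]
    exact (mul_le_mul_of_nonneg_left hcirc p0).trans s5
  calc k4 * Pr P S (fun F => Cn (insert x X) (↑F))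
      ≤ k4 * (aq x n * (Pr P S E * bq y (3 * R) n)) := by
        apply mul_le_mul_of_nonneg_left _ k4_pos.le
        refine (s1.trans s2).trans (mul_le_mul_of_nonneg_left ?_ p1)
        exact s2'.trans (mul_le_mul_of_nonneg_right s4 p2)
    _ = aq x n * (bq y (3 * R) n * (k4 * Pr P S E)) := by ring
    _ ≤ _ := by
        apply mul_le_mul_of_nonneg_left _ p1
        exact mul_le_mul_of_nonneg_left s6 p2

theorem addQ_lower1 {X : Finset Vtx} {x y : Vtx} (hx : InV x) (hyV : InV y) {a : ℕ} (hy : y ∈ X)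
    (hxy : sd y x = a) (ha : 1 ≤ a) {S : Finset Edg} (hSQ : InQ S) (hS : qb x (9 * a) ⊆ S) :
    k4 * (aq x (8 * a) * aq y (8 * a)) * Pr P S (fun F => Cn X (↑F)) ≤
      Pr P S (fun F => Cn (insert x X) (↑F)) := by
  have h1 : k4 ≤ Pr P S (CQ x (2 * a)) := pr_CQ' hx (by omega) ((qb_mono (by omega)).trans hS)
  have h2 : aq x (8 * a) ≤ Pr P S (Ar x (8 * a)) := pr_Ar_ge ((qb_mono (by omega)).trans hS)
  have h3 : aq y (8 * a) ≤ Pr P S (Ar y (8 * a)) := pr_Ar_ge ((qb_sub (by omega)).trans hS)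
  have p0 : 0 ≤ Pr P S (fun F => Cn X (↑F)) := Pr_nonneg okP _ _
  have i1 := fkg (CQ_incr S x (2 * a)) (Ar_incr S x (8 * a)) (aq_nonneg _ _) h1 h2
  have i2 := fkg (incr_and (CQ_incr S x (2 * a)) (Ar_incr S x (8 * a))) (Ar_incr S y (8 * a))
    (aq_nonneg _ _) i1 h3
  have i3 := fkg (incr_and (incr_and (CQ_incr S x (2 * a)) (Ar_incr S x (8 * a)))
    (Ar_incr S y (8 * a))) (Cn_incr S X) p0 i2 le_rfl
  calc k4 * (aq x (8 * a) * aq y (8 * a)) * Pr P S (fun F => Cn X (↑F))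
      = k4 * aq x (8 * a) * aq y (8 * a) * Pr P S (fun F => Cn X (↑F)) := by ring
    _ ≤ _ := i3
    _ ≤ _ := by
      apply Pr_mono okP
      rintro F hFS ⟨⟨⟨k1, u, hu, hxu⟩, v, hv, hyv⟩, k5⟩
      obtain ⟨z, hz⟩ := CQ_meet hx (by omega) (hSQ.mono hFS) k1
      have m1 := hz x u hx (by rw [sd_self]; omega) (by omega) hxu
      have t1 := sd_tri v x y
      have t2 := sd_comm x y
      have m2 := hz y v hyV (by omega) (by omega) hyv
      exact Cn_insert k5 hy (m1.trans m2.symm)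

theorem addQ_lower2 {X : Finset Vtx} {x y z0 : Vtx} (hx : InV x) (hyV : InV y) {a q : ℕ}
    (hy : y ∈ X) (hz0 : z0 ∈ X) (hxy : sd y x = a) (hq : 1 ≤ q) (hqa : q ≤ a)
    (hfar : 3 * q ≤ sd z0 y) {S : Finset Edg} (hSQ : InQ S) (hS : qb x (9 * a) ⊆ S) :
    (k4 * k4) * (aq x (8 * a) * bq y q (8 * a)) * Pr P S (fun F => Cn X (↑F)) ≤
      Pr P S (fun F => Cn (insert x X) (↑F)) := by
  have h1 : k4 ≤ Pr P S (CQ x (2 * a)) := pr_CQ' hx (by omega) ((qb_mono (by omega)).trans hS)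
  have h2 : aq x (8 * a) ≤ Pr P S (Ar x (8 * a)) := pr_Ar_ge ((qb_mono (by omega)).trans hS)
  have h3 : k4 ≤ Pr P S (CQ y q) := pr_CQ' hyV hq ((qb_sub (by omega)).trans hS)
  have h4 : bq y q (8 * a) ≤ Pr P S (Cx y q (8 * a)) := pr_Cx_ge ((qb_sub (by omega)).trans hS)
  have p0 : 0 ≤ Pr P S (fun F => Cn X (↑F)) := Pr_nonneg okP _ _
  have n1 := CQ_incr S x (2 * a)
  have n2 := Ar_incr S x (8 * a)
  have n3 := CQ_incr S y q
  have n4 := Cx_incr S y q (8 * a)
  have i1 := fkg n1 n2 (aq_nonneg _ _) h1 h2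
  have i2 := fkg (incr_and n1 n2) n3 k4_pos.le i1 h3
  have i3 := fkg (incr_and (incr_and n1 n2) n3) n4 (bq_nonneg _ _ _) i2 h4
  have i4 := fkg (incr_and (incr_and (incr_and n1 n2) n3) n4) (Cn_incr S X) p0 i3 le_rfl
  calc (k4 * k4) * (aq x (8 * a) * bq y q (8 * a)) * Pr P S (fun F => Cn X (↑F))
      = k4 * aq x (8 * a) * k4 * bq y q (8 * a) * Pr P S (fun F => Cn X (↑F)) := by ring
    _ ≤ _ := i4
    _ ≤ _ := by
      apply Pr_mono okP
      rintro F hFS ⟨⟨⟨⟨k1, t, ht, hxt⟩, k3⟩, ⟨u, w, hu0, hu, hw, huw⟩⟩, k5⟩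
      have hQ : InQ F := hSQ.mono hFS
      obtain ⟨z, hz⟩ := CQ_meet hx (by omega) hQ k1
      obtain ⟨z', hz'⟩ := CQ_meet hyV hq hQ k3
      have m1 := hz x t hx (by rw [sd_self]; omega) (by omega) hxt
      have t1 := sd_tri u y x
      have t2 := sd_tri w x y
      have t3 := sd_comm x y
      have m2 := hz u w hu0 (by omega) (by omega) huw
      have m3 := hz' u w hu0 hu (by omega) huw
      have m4 := hz' y z0 hyV (by rw [sd_self]; omega) hfar (k5 y hy z0 hz0)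
      exact Cn_insert k5 hy ((m1.trans m2.symm).trans (m3.trans m4.symm))

end TH976
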