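import Pool.Agent.TH976.Add

/-!
Adding a point: both bounds in terms of the one-arm probabilities of the quadrant.
-/

set_option autoImplicit false

namespace TH976
open Finset H974 Pool.Agent.H160R2.CV H362P
open Pool.Agent.H160R2.CV.Quad
open H973 (dlt dlt_pos dlt_le rswL)

/-- `a` is the distance from `x` to `X` -/
def Near (x : Vtx) (X : Finset Vtx) (a : ℕ) : Prop := IsLeast {d : ℕ | ∃ u ∈ X, d = sd x u} a

/-- `D` is the diameter of `X` -/
def Diam (X : Finset Vtx) (D : ℕ) : Prop := IsGreatest {d : ℕ | ∃ u ∈ X, ∃ v ∈ X, d = sd u v} D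

/-- a small constant -/
noncomputable def k0 : ℝ := (1 / 2 : ℝ) ^ 120

theorem k0_pos : 0 < k0 := by unfold k0; positivity
theorem k0_le : 4 * k0 ≤ 1 := by unfold k0; norm_num

theorem k0_aq {c : Vtx} (hc : InV c) {n : ℕ} (hn : n ≤ 120) : k0 ≤ aq c n :=
  (aq_ge_pow hc 120).trans (aq_anti hn)

attribute [irreducible] k0

/-- upper bound at the nearest point -/
theorem addK_upper {X : Finset Vtx} (hXV : ∀ u ∈ X, InV u) {x y : Vtx} (hx : InV x) {a D : ℕ}
    (hy : y ∈ X) (hxy : sd y x = a) (ha : 1 ≤ a) (hD : 1 ≤ D) (hX : ∀ u ∈ X, a ≤ sd u x)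
    (hXD : ∀ u ∈ X, sd u y ≤ D) {S : Finset Edg} (hSQ : InQ S) (hS : qb x (9 * a) ⊆ S) :
    k4 ^ 2 * kd ^ 6 / 4 * (aq y D * Pr P S (fun F => Cn (insert x X) (↑F))) ≤
      (aq x a * aq y (max a D)) * Pr P S (fun F => Cn X (↑F)) := by
  have hyV := hXV y hy
  have a1 := aq_nonneg x a
  have a2 := aq_nonneg y D
  have a3 := aq_nonneg y (max a D)
  have pX : 0 ≤ Pr P S (fun F => Cn X (↑F)) := Pr_nonneg okP _ _
  have pI : 0 ≤ Pr P S (fun F => Cn (insert x X) (↑F)) := Pr_nonneg okP _ _
  have kd0 := kd_pos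
  have kd1 := kd_le
  have k40 := k4_pos
  have k41 := k4_le
  have k00 := k0_pos
  rcases Nat.lt_or_ge a 3 with h3 | h3
  · have h1 : Pr P S (fun F => Cn (insert x X) (↑F)) ≤ Pr P S (fun F => Cn X (↑F)) :=
      Pr_mono okP (fun F _ hF u hu v hv => hF u (Finset.mem_insert_of_mem hu) v
        (Finset.mem_insert_of_mem hv))
    have h2 : (1 / 2 : ℝ) ^ 2 ≤ aq x a := (aq_ge_pow hx 2).trans (aq_anti (by omega))
    have h4 : kd * aq y D ≤ aq y (max a D) := (aq_dbl hyV D).trans (aq_anti (by omega))
    generalize Pr P S (fun F => Cn (insert x X) (↑F)) = pI' at *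
    generalize Pr P S (fun F => Cn X (↑F)) = pX' at *
    generalize aq x a = A at *
    generalize aq y (max a D) = B at *
    generalize aq y D = C at *
    have e1 : k4 ^ 2 * kd ^ 6 ≤ 1 * kd := by
      apply mul_le_mul (pow_le_one₀ k40.le k41) _ (by positivity) zero_le_one
      calc kd ^ 6 = kd ^ 5 * kd := by ring
        _ ≤ 1 * kd := mul_le_mul_of_nonneg_right (pow_le_one₀ kd0.le kd1) kd0.le
        _ = kd := one_mul _
    calc k4 ^ 2 * kd ^ 6 / 4 * (C * pI')
        ≤ (1 * kd) / 4 * (C * pX') := by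
          apply mul_le_mul _ (mul_le_mul_of_nonneg_left h1 a2) (mul_nonneg a2 pI) (by positivity)
          linarith
      _ = ((1 / 2 : ℝ) ^ 2 * (kd * C)) * pX' := by ring
      _ ≤ _ := by
          apply mul_le_mul_of_nonneg_right _ pX
          exact mul_le_mul h2 h4 (by positivity) a1
  · have hx3 : kd ^ 2 * aq x (a / 3) ≤ aq x a :=
      (aq_dbl2 hx (a / 3)).trans (aq_anti (by omega))
    have b1 := aq_nonneg x (a / 3)
    rcases Nat.lt_or_ge a (27 * D) with h27 | h27
    · have h1 := addQ_upper1 hx hy hxy h3 hX hSQ ((qb_mono (by omega)).trans hS)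
      have h2 : kd ^ 3 * aq y D ≤ aq y (max a D) := (aq_dbl3 hyV D).trans (aq_anti (by omega))
      generalize Pr P S (fun F => Cn (insert x X) (↑F)) = pI' at *
      generalize Pr P S (fun F => Cn X (↑F)) = pX' at *
      generalize aq x a = A at *
      generalize aq x (a / 3) = A' at *
      generalize aq y (max a D) = B at *
      generalize aq y D = C at *
      calc k4 ^ 2 * kd ^ 6 / 4 * (C * pI')
          = (k4 * kd / 4) * ((kd ^ 3 * C) * (kd ^ 2 * (k4 * pI'))) := by ring
        _ ≤ 1 * ((kd ^ 3 * C) * (kd ^ 2 * (k4 * pI'))) := by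
            apply mul_le_mul_of_nonneg_right _ (by positivity)
            nlinarith
        _ ≤ 1 * (B * (kd ^ 2 * (A' * pX'))) := by
            apply mul_le_mul_of_nonneg_left _ zero_le_one
            apply mul_le_mul h2 _ (by positivity) a3
            exact mul_le_mul_of_nonneg_left h1 (by positivity)
        _ = ((kd ^ 2 * A') * B) * pX' := by ring
        _ ≤ _ := by
            apply mul_le_mul_of_nonneg_right _ pX
            exact mul_le_mul_of_nonneg_right hx3 a3
    · have h1 := addQ_upper2 hXV hx hy (by rw [sd_comm]; exact hxy) hD h27 hXD hSQ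
        ((qb_sub (by omega)).trans hS)
      have h2 := bq_le' hyV (r := 3 * D) (n := a / 3) (by omega) (by omega)
      have h3 : kd ^ 2 * aq y D ≤ aq y (3 * (3 * D)) := (aq_dbl2 hyV D).trans (aq_anti (by omega))
      have h4 : kd ^ 2 * aq y (a / 3) ≤ aq y (max a D) :=
        (aq_dbl2 hyV (a / 3)).trans (aq_anti (by omega))
      have b2 := bq_nonneg y (3 * D) (a / 3)
      have b3 := aq_nonneg y (a / 3)
      generalize Pr P S (fun F => Cn (insert x X) (↑F)) = pI' at *
      generalize Pr P S (fun F => Cn X (↑F)) = pX' at *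
      generalize aq x a = A at *
      generalize aq x (a / 3) = A' at *
      generalize aq y (max a D) = B at *
      generalize aq y (a / 3) = B' at *
      generalize aq y (3 * (3 * D)) = C' at *
      generalize aq y D = C at *
      generalize bq y (3 * D) (a / 3) = b at *
      have key : k4 * (kd ^ 2 * C) * b ≤ B' := by
        refine le_trans ?_ h2
        have := mul_le_mul_of_nonneg_right h3 b2
        calc k4 * (kd ^ 2 * C) * b = k4 * ((kd ^ 2 * C) * b) := by ring
          _ ≤ _ := mul_le_mul_of_nonneg_left this k40.le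
      calc k4 ^ 2 * kd ^ 6 / 4 * (C * pI')
          = (1 / 4) * (kd ^ 4 * ((k4 * (kd ^ 2 * C)) * (k4 * pI'))) := by ring
        _ ≤ 1 * (kd ^ 4 * ((k4 * (kd ^ 2 * C)) * (k4 * pI'))) := by
            apply mul_le_mul_of_nonneg_right (by norm_num) (by positivity)
        _ ≤ 1 * (kd ^ 4 * ((k4 * (kd ^ 2 * C)) * (A' * (b * pX')))) := by
            apply mul_le_mul_of_nonneg_left _ zero_le_one
            apply mul_le_mul_of_nonneg_left _ (by positivity)
            exact mul_le_mul_of_nonneg_left h1 (by positivity)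
        _ = (kd ^ 2 * A') * (kd ^ 2 * (k4 * (kd ^ 2 * C) * b)) * pX' := by ring
        _ ≤ (A * B) * pX' := by
            apply mul_le_mul_of_nonneg_right _ pX
            apply mul_le_mul hx3 _ (by positivity) a1
            exact (mul_le_mul_of_nonneg_left key (by positivity)).trans h4

/-- lower bound at the nearest point -/
theorem addK_lower {X : Finset Vtx} (hXV : ∀ u ∈ X, InV u) {x y z0 : Vtx} (hx : InV x) {a D : ℕ}
    (hy : y ∈ X) (hz0 : z0 ∈ X) (hxy : sd y x = a) (ha : 1 ≤ a) (hD : 1 ≤ D)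
    (hcase : D ≤ 15 ∨ D ≤ 2 * sd z0 y) {S : Finset Edg} (hSQ : InQ S) (hS : qb x (9 * a) ⊆ S) :
    k4 ^ 2 * kd ^ 7 * k0 * ((aq x a * aq y (max a D)) *
      Pr P S (fun F => Cn X (↑F))) ≤ aq y D * Pr P S (fun F => Cn (insert x X) (↑F)) := by
  have hyV := hXV y hy
  have a1 := aq_nonneg x a
  have a2 := aq_nonneg y D
  have a3 := aq_nonneg y (max a D)
  have a4 := aq_nonneg x (8 * a)
  have a5 := aq_nonneg y (8 * a)
  have pX : 0 ≤ Pr P S (fun F => Cn X (↑F)) := Pr_nonneg okP _ _
  have pI : 0 ≤ Pr P S (fun F => Cn (insert x X) (↑F)) := Pr_nonneg okP _ _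
  have kd0 := kd_pos
  have kd1 := kd_le
  have k40 := k4_pos
  have k41 := k4_le
  have k00 := k0_pos
  have hx8 : kd ^ 2 * aq x a ≤ aq x (8 * a) := (aq_dbl2 hx a).trans (aq_anti (by omega))
  by_cases hsm : a ≤ 15 ∨ D ≤ 15
  · have h1 := addQ_lower1 hx hyV hy hxy ha hSQ hS
    have key : kd ^ 2 * k0 * aq y (max a D) ≤ aq y D * aq y (8 * a) := by
      rcases hsm with h | h
      · have h2 : k0 ≤ aq y (8 * a) := k0_aq hyV (by omega)
        have h3 : aq y (max a D) ≤ aq y D := aq_anti (le_max_right _ _)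
        have h4 : kd ^ 2 ≤ 1 := pow_le_one₀ kd0.le kd1
        generalize aq y (max a D) = B at *
        generalize aq y (8 * a) = B' at *
        generalize aq y D = C at *
        calc kd ^ 2 * k0 * B
            ≤ 1 * B' * C := by
              apply mul_le_mul (mul_le_mul h4 h2 (by positivity) zero_le_one) h3 a3 (by positivity)
          _ = _ := by ring
      · have h2 : k0 ≤ aq y D := k0_aq hyV (by omega)
        have h3 : kd ^ 2 * aq y (max a D) ≤ aq y (8 * a) := by
          refine le_trans ?_ ((aq_dbl2 hyV a).trans (aq_anti (by omega)))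
          exact mul_le_mul_of_nonneg_left (aq_anti (le_max_left _ _)) (by positivity)
        generalize aq y (max a D) = B at *
        generalize aq y (8 * a) = B' at *
        generalize aq y D = C at *
        calc kd ^ 2 * k0 * B
            = k0 * (kd ^ 2 * B) := by ring
          _ ≤ _ := mul_le_mul h2 h3 (by positivity) a2
    generalize Pr P S (fun F => Cn (insert x X) (↑F)) = pI' at *
    generalize Pr P S (fun F => Cn X (↑F)) = pX' at *
    generalize aq x a = A at *
    generalize aq x (8 * a) = A' at *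
    generalize aq y (max a D) = B at *
    generalize aq y (8 * a) = B' at *
    generalize aq y D = C at *
    calc k4 ^ 2 * kd ^ 7 * k0 * ((A * B) * pX')
        = (k4 * kd ^ 3) * (k4 * ((kd ^ 2 * A) * (kd ^ 2 * k0 * B)) * pX') := by ring
      _ ≤ 1 * (k4 * ((kd ^ 2 * A) * (kd ^ 2 * k0 * B)) * pX') := by
          apply mul_le_mul_of_nonneg_right _ (by positivity)
          calc k4 * kd ^ 3 ≤ 1 * 1 :=
                mul_le_mul k41 (pow_le_one₀ kd0.le kd1) (by positivity) zero_le_one
            _ = 1 := one_mul 1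
      _ ≤ 1 * (k4 * (A' * (C * B')) * pX') := by
          apply mul_le_mul_of_nonneg_left _ zero_le_one
          apply mul_le_mul_of_nonneg_right _ pX
          apply mul_le_mul_of_nonneg_left _ k40.le
          exact mul_le_mul hx8 key (by positivity) a4
      _ = C * (k4 * (A' * B') * pX') := by ring
      _ ≤ _ := mul_le_mul_of_nonneg_left h1 a2
  · push Not at hsm
    obtain ⟨ha16, hD16⟩ := hsm
    have hfar : D ≤ 2 * sd z0 y := by
      rcases hcase with h | h
      · omega
      · exact h
    set m := min a D with hm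
    set q := m / 8 with hq
    have h1 := addQ_lower2 hx hyV hy hz0 hxy (q := q) (by omega) (by omega) (by omega) hSQ hS
    have h2 := aq_split hyV (r := q) (n := 8 * a) (by omega)
    have b0 := bq_nonneg y q (8 * a)
    have a6 := aq_nonneg y m
    have h3 : kd ^ 3 * aq y q ≤ aq y m := (aq_dbl3 hyV q).trans (aq_anti (by omega))
    have h4 : kd ^ 2 * aq y a ≤ aq y (8 * a) := (aq_dbl2 hyV a).trans (aq_anti (by omega))
    have h5 : aq y (max a D) * aq y m = aq y D * aq y a := by
      rcases le_total a D with h | h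
      · rw [hm, max_eq_right h, min_eq_left h]
      · rw [hm, max_eq_left h, min_eq_right h]; ring
    have hm0 : 0 < aq y m := aq_pos hyV m
    generalize Pr P S (fun F => Cn (insert x X) (↑F)) = pI' at *
    generalize Pr P S (fun F => Cn X (↑F)) = pX' at *
    generalize aq x a = A at *
    generalize aq x (8 * a) = A' at *
    generalize aq y (max a D) = B at *
    generalize aq y (8 * a) = B' at *
    generalize aq y m = M at *
    generalize aq y q = Q at *
    generalize aq y a = B'' at *
    generalize aq y D = C at *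
    generalize bq y q (8 * a) = b at *
    -- `kd ^ 5 * aq y a ≤ aq y m * bq`
    have h6 : kd ^ 5 * B'' ≤ M * b := by
      calc kd ^ 5 * B'' = kd ^ 3 * (kd ^ 2 * B'') := by ring
        _ ≤ kd ^ 3 * (Q * b) :=
            mul_le_mul_of_nonneg_left (h4.trans h2) (by positivity)
        _ = (kd ^ 3 * Q) * b := by ring
        _ ≤ _ := mul_le_mul_of_nonneg_right h3 b0
    have h7 : kd ^ 5 * B ≤ C * b := by
      have : kd ^ 5 * B * M ≤ C * b * M := by
        calc kd ^ 5 * B * M = C * (kd ^ 5 * B'') := by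
              rw [mul_assoc, h5]; ring
          _ ≤ C * (M * b) := mul_le_mul_of_nonneg_left h6 a2
          _ = _ := by ring
      exact le_of_mul_le_mul_right this hm0
    calc k4 ^ 2 * kd ^ 7 * k0 * ((A * B) * pX')
        = k0 * ((k4 * k4) * ((kd ^ 2 * A) * (kd ^ 5 * B)) * pX') := by ring
      _ ≤ 1 * ((k4 * k4) * ((kd ^ 2 * A) * (kd ^ 5 * B)) * pX') := by
          apply mul_le_mul_of_nonneg_right _ (by positivity)
          linarith [k0_le]
      _ ≤ 1 * ((k4 * k4) * (A' * (C * b)) * pX') := by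
          apply mul_le_mul_of_nonneg_left _ zero_le_one
          apply mul_le_mul_of_nonneg_right _ pX
          apply mul_le_mul_of_nonneg_left _ (by positivity)
          exact mul_le_mul hx8 h7 (by positivity) a4
      _ = C * ((k4 * k4) * (A' * b) * pX') := by ring
      _ ≤ _ := mul_le_mul_of_nonneg_left h1 a2

/-- the constant of the addition of a point -/
noncomputable def ka : ℝ := kr * (k4 ^ 2 * kd ^ 7 * k0)

theorem ka_pos : 0 < ka := by
  have := kr_pos
  have := k4_pos
  have := kd_pos
  have := k0_pos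
  unfold ka
  positivity

/-- **Adding a point**, finite volume. -/
theorem add_pointQ {X : Finset Vtx} (hXV : ∀ u ∈ X, InV u) {x y : Vtx} (hx : InV x)
    (hxX : x ∉ X) (hy : y ∈ X) {a D : ℕ} (hn : Near x X a) (hd : Diam X D) {S : Finset Edg}
    (hSQ : InQ S) (hS : qb x (9 * a) ⊆ S) :
    ka * ((aq x a * aq y (max a (max D 1))) * Pr P S (fun F => Cn X (↑F))) ≤
      aq y (max D 1) * Pr P S (fun F => Cn (insert x X) (↑F)) ∧
    ka * (aq y (max D 1) * Pr P S (fun F => Cn (insert x X) (↑F))) ≤
      (aq x a * aq y (max a (max D 1))) * Pr P S (fun F => Cn X (↑F)) := by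
  obtain ⟨⟨y0, hy0, hay⟩, hmin⟩ := hn
  obtain ⟨⟨p, hp, r, hr, hD⟩, hmax⟩ := hd
  have ha1 : 1 ≤ a := by
    rw [hay]
    apply sd_pos
    rintro rfl
    exact hxX hy0
  have hyx : sd y0 x = a := by rw [sd_comm]; exact hay.symm
  set D' := max D 1 with hD'
  have hD1 : 1 ≤ D' := le_max_right _ _
  have hyV := hXV y hy
  have hy0V := hXV y0 hy0
  have hyy : sd y y0 ≤ D' := by
    have := hmax ⟨y, hy, y0, hy0, rfl⟩
    omega
  have r1 := aq_rat hyV hy0V hD1 hyy (le_max_right a D')
  have r2 := aq_rat hy0V hyV hD1 (by rw [sd_comm]; exact hyy) (le_max_right a D')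
  have a1 := aq_nonneg x a
  have u1 := aq_pos hyV D'
  have u2 := aq_pos hy0V D'
  have u3 := aq_pos hyV (max a D')
  have u4 := aq_pos hy0V (max a D')
  have pX : 0 ≤ Pr P S (fun F => Cn X (↑F)) := Pr_nonneg okP _ _
  have pI : 0 ≤ Pr P S (fun F => Cn (insert x X) (↑F)) := Pr_nonneg okP _ _
  have kr0 := kr_pos
  have kd0 := kd_pos
  have kd1 := kd_le
  have k40 := k4_pos
  have k41 := k4_le
  have k00 := k0_pos
  constructor
  · have hc : ∃ z0 ∈ X, D' ≤ 15 ∨ D' ≤ 2 * sd z0 y0 := by
      have h1 : D ≤ sd p y0 + sd r y0 := by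
        rw [hD, sd_comm r y0]
        exact sd_tri p y0 r
      rcases Nat.lt_or_ge (sd p y0) (sd r y0) with h2 | h2
      · exact ⟨r, hr, by omega⟩
      · exact ⟨p, hp, by omega⟩
    obtain ⟨z0, hz0, hc⟩ := hc
    have h := addK_lower hXV hx hy0 hz0 hyx ha1 hD1 hc hSQ hS
    unfold ka
    generalize Pr P S (fun F => Cn (insert x X) (↑F)) = pI' at *
    generalize Pr P S (fun F => Cn X (↑F)) = pX' at *
    generalize aq x a = A at *
    generalize aq y (max a D') = B at *
    generalize aq y0 (max a D') = B' at *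
    generalize aq y D' = C at *
    generalize aq y0 D' = C' at *
    have : kr * (k4 ^ 2 * kd ^ 7 * k0) * ((A * B) * pX') * C' ≤ C * pI' * C' := by
      calc kr * (k4 ^ 2 * kd ^ 7 * k0) * ((A * B) * pX') * C'
          = (k4 ^ 2 * kd ^ 7 * k0) * (A * pX') * (kr * (C' * B)) := by ring
        _ ≤ (k4 ^ 2 * kd ^ 7 * k0) * (A * pX') * (B' * C) := by
            apply mul_le_mul_of_nonneg_left r2
            positivity
        _ = (k4 ^ 2 * kd ^ 7 * k0 * ((A * B') * pX')) * C := by ring
        _ ≤ (C' * pI') * C := mul_le_mul_of_nonneg_right h u1.le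
        _ = _ := by ring
    exact le_of_mul_le_mul_right this u2
  · have h := addK_upper hXV hx hy0 hyx ha1 hD1 (fun u hu => by
      have := hmin ⟨u, hu, rfl⟩
      rw [sd_comm]
      exact this) (fun u hu => by
      have := hmax ⟨u, hu, y0, hy0, rfl⟩
      omega) hSQ hS
    unfold ka
    generalize Pr P S (fun F => Cn (insert x X) (↑F)) = pI' at *
    generalize Pr P S (fun F => Cn X (↑F)) = pX' at *
    generalize aq x a = A at *
    generalize aq y (max a D') = B at *
    generalize aq y0 (max a D') = B' at *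
    generalize aq y D' = C at *
    generalize aq y0 D' = C' at *
    have hle : k4 ^ 2 * kd ^ 7 * k0 ≤ k4 ^ 2 * kd ^ 6 / 4 := by
      calc k4 ^ 2 * kd ^ 7 * k0 = (k4 ^ 2 * kd ^ 6 / 4) * (kd * (4 * k0)) := by
            ring
        _ ≤ (k4 ^ 2 * kd ^ 6 / 4) * 1 := by
            apply mul_le_mul_of_nonneg_left _ (by positivity)
            calc kd * (4 * k0) ≤ 1 * 1 :=
                  mul_le_mul kd1 k0_le (by positivity) zero_le_one
              _ = 1 := one_mul 1
        _ = _ := mul_one _
    have : kr * (k4 ^ 2 * kd ^ 7 * k0) * (C * pI') * B' ≤ (A * B) * pX' * B' := by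
      calc kr * (k4 ^ 2 * kd ^ 7 * k0) * (C * pI') * B'
          = (k4 ^ 2 * kd ^ 7 * k0) * pI' * (kr * (C * B')) := by ring
        _ ≤ (k4 ^ 2 * kd ^ 6 / 4) * pI' * (B * C') := by
            apply mul_le_mul (mul_le_mul_of_nonneg_right hle pI) r1 (by positivity) (by positivity)
        _ = (k4 ^ 2 * kd ^ 6 / 4 * (C' * pI')) * B := by ring
        _ ≤ ((A * B') * pX') * B := mul_le_mul_of_nonneg_right h u3.le
        _ = _ := by ring
    exact le_of_mul_le_mul_right this u4

end TH976
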