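import Pool.Agent.TH976.Circ

/-!
One-arm probabilities in the quadrant: doubling and comparison of the arms of two centres.
-/

set_option autoImplicit false

namespace TH976
open Finset H974 Pool.Agent.H160R2.CV
open Pool.Agent.H160R2.CV.Quad
open H973 (dlt dlt_pos dlt_le rswL)

theorem pr_edge {S : Finset Edg} {e : Edg} (he : e ∈ S) : Pr P S (fun F => e ∈ F) = 1 / 2 := by
  have hs : ({e} : Finset Edg) ⊆ S := by simpa using he
  rw [Pr_local hs (A := fun F => e ∈ F) (fun F _ => by simp)]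
  unfold Pr
  rw [← insert_empty_eq e, Ex_insert _ (Finset.notMem_empty _), Ex_empty, Ex_empty]
  simp only [Finset.insert_empty, Finset.mem_singleton, Finset.notMem_empty]
  rw [ind_of trivial, ind_not_of (fun h => h)]
  unfold P
  norm_num

theorem pr_all {S T : Finset Edg} (h : T ⊆ S) : (1 / 2 : ℝ) ^ T.card ≤ Pr P S (fun F => T ⊆ F) := by
  induction T using Finset.induction_on with
  | empty =>
    rw [pr_true S (fun F => Finset.empty_subset F)]
    simp
  | @insert e T he ih =>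
    rw [Finset.insert_subset_iff] at h
    have h1 := ih h.2
    have h2 := pr_edge h.1
    have h3 := fkg (S := S) (A := fun F => T ⊆ F) (B := fun F => e ∈ F)
      (fun F G h _ hF => hF.trans h) (fun F G h _ hF => h hF) (by norm_num) h1 h2.ge
    rw [Finset.card_insert_of_notMem he, pow_succ]
    refine h3.trans (Pr_mono okP ?_)
    rintro F _ ⟨h4, h5⟩
    exact Finset.insert_subset h5 h4

/-- a vertical segment -/
noncomputable def vseg (c : Vtx) (n : ℕ) : Finset Edg :=
  (Finset.range n).image (fun i : ℕ => ((c.1, c.2 + (i : ℤ), false) : Edg))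

theorem vseg_reach {c : Vtx} {n : ℕ} {F : Set Edg} (h : ↑(vseg c n) ⊆ F) :
    Reach F c (c.1, c.2 + n) := by
  induction n with
  | zero => simp only [Nat.cast_zero, add_zero]; exact Reach.refl _ _
  | succ n ih =>
    have h1 : ↑(vseg c n) ⊆ F := by
      refine Set.Subset.trans ?_ h
      unfold vseg
      exact_mod_cast Finset.image_subset_image (Finset.range_subset_range.mpr (Nat.le_succ n))
    refine (ih h1).trans (Adj.reach ⟨(c.1, c.2 + (n : ℤ), false), h ?_, Or.inl ⟨rfl, ?_⟩⟩)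
    · rw [Finset.mem_coe]
      unfold vseg
      exact Finset.mem_image_of_mem _ (Finset.mem_range.mpr (Nat.lt_succ_self n))
    · rw [tgt_false]
      push_cast
      rw [add_assoc]

theorem aq_ge_pow {c : Vtx} (hc : InV c) (n : ℕ) : (1 / 2 : ℝ) ^ n ≤ aq c n := by
  have h1 : vseg c n ⊆ qb c n := by
    intro e he
    unfold vseg at he
    rw [Finset.mem_image] at he
    obtain ⟨i, hi, rfl⟩ := he
    rw [Finset.mem_range] at hi
    unfold InV at hc
    rw [qb, mem_RE_false]
    omega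
  have h2 : (vseg c n).card ≤ n := by
    unfold vseg
    exact Finset.card_image_le.trans (by rw [Finset.card_range])
  calc (1 / 2 : ℝ) ^ n ≤ (1 / 2 : ℝ) ^ (vseg c n).card :=
        pow_le_pow_of_le_one (by norm_num) (by norm_num) h2
    _ ≤ _ := pr_all h1
    _ ≤ _ := by
      apply Pr_mono okP
      intro F _ hF
      refine ⟨(c.1, c.2 + n), ?_, vseg_reach (by exact_mod_cast hF)⟩
      unfold sd
      simp only
      omega

theorem aq_pos {c : Vtx} (hc : InV c) (n : ℕ) : 0 < aq c n :=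
  lt_of_lt_of_le (by positivity) (aq_ge_pow hc n)

/-- the doubling constant -/
noncomputable def kd : ℝ := dlt ^ 5 * (1 / 2) ^ 18

theorem kd_pos : 0 < kd := mul_pos (pow_pos dlt_pos 5) (by positivity)
theorem kd_le : kd ≤ 1 := by
  unfold kd
  calc dlt ^ 5 * (1 / 2 : ℝ) ^ 18 ≤ 1 * 1 :=
        mul_le_mul (pow_le_one₀ dlt_pos.le dlt_le) (pow_le_one₀ (by norm_num) (by norm_num))
          (by positivity) zero_le_one
    _ = 1 := by norm_num

theorem aq_dbl {c : Vtx} (hc : InV c) (n : ℕ) : kd * aq c n ≤ aq c (3 * n) := by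
  have hd5 : 0 < dlt ^ 5 := pow_pos dlt_pos 5
  have hd51 : dlt ^ 5 ≤ 1 := pow_le_one₀ dlt_pos.le dlt_le
  have ha := aq_nonneg c n
  rcases Nat.lt_or_ge n 6 with h6 | h6
  · calc kd * aq c n ≤ (1 * (1 / 2 : ℝ) ^ 18) * 1 := by
          apply mul_le_mul _ (aq_le_one _ _) ha (by positivity)
          exact mul_le_mul_of_nonneg_right hd51 (by positivity)
      _ = (1 / 2 : ℝ) ^ 18 := by ring
      _ ≤ aq c 18 := aq_ge_pow hc 18
      _ ≤ _ := aq_anti (by omega)
  · set R := n / 6 with hR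
    have hR1 : 1 ≤ R := by omega
    have p1 : aq c n ≤ Pr P (qb c (3 * n)) (Ar c n) := pr_Ar_ge (qb_mono (by omega))
    have p2 : dlt ^ 4 ≤ Pr P (qb c (3 * n)) (CQ c (2 * R)) :=
      pr_CQ hc (by omega) (qb_mono (by omega))
    have p3 : dlt ≤ Pr P (qb c (3 * n)) (TBc c.1 (c.1 + 2 * R) c.2 (c.2 + 3 * n)) := by
      refine pr_TB (m := R) ?_ (by omega) (by omega) (by omega) (by omega)
      unfold qb
      unfold InV at hc
      apply RE_subset <;> push_cast <;> omega
    have q1 := fkg (Ar_incr _ c n) (CQ_incr _ c (2 * R)) (by positivity) p1 p2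
    have q2 := fkg (incr_and (Ar_incr _ c n) (CQ_incr _ c (2 * R)))
      (TBc_incr _ c.1 (c.1 + 2 * R) c.2 (c.2 + 3 * n)) dlt_pos.le q1 p3
    calc kd * aq c n ≤ dlt ^ 5 * 1 * aq c n := by
          apply mul_le_mul_of_nonneg_right _ ha
          exact mul_le_mul_of_nonneg_left (pow_le_one₀ (by norm_num) (by norm_num)) hd5.le
      _ = aq c n * dlt ^ 4 * dlt := by ring
      _ ≤ _ := q2
      _ ≤ aq c (3 * n) := by
        apply Pr_mono okP
        rintro F hF ⟨⟨⟨v, hv, hcv⟩, h2⟩, ⟨x, x', hx, hx', hxx⟩⟩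
        have hQ : InQ F := (qb_inQ _ _).mono hF
        obtain ⟨z, hz⟩ := CQ_meet hc (by omega) hQ h2
        have m1 := hz c v hc (by rw [sd_self]; omega) (by omega) hcv
        unfold InV at hc
        have m2 := hz (x, c.2) (x', c.2 + 3 * n) (by unfold InV; simp only; omega)
          (by unfold sd; simp only; omega) (by unfold sd; simp only; omega)
          (hxx.mono Set.inter_subset_left)
        refine ⟨(x', c.2 + 3 * n), ?_, (m1.trans m2.symm).trans (hxx.mono Set.inter_subset_left)⟩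
        unfold sd
        simp only
        omega

theorem aq_glue {u p : Vtx} (hu : InV u) (hp : InV p) {r n : ℕ} (hr : 1 ≤ r)
    (hup : sd u p ≤ r) (hn : 2 * r ≤ n) :
    dlt ^ 4 * (aq u (4 * r) * bq p r (n + r)) ≤ aq u n := by
  set S := qb p (n + 5 * r) with hS
  have p1 : aq u (4 * r) ≤ Pr P S (Ar u (4 * r)) := pr_Ar_ge (qb_sub (by omega))
  have p2 : dlt ^ 4 ≤ Pr P S (CQ p r) := pr_CQ hp hr (qb_mono (by omega))
  have p3 : bq p r (n + r) ≤ Pr P S (Cx p r (n + r)) := pr_Cx_ge (qb_mono (by omega))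
  have q1 := fkg (Ar_incr S u (4 * r)) (CQ_incr S p r) (pow_nonneg dlt_pos.le 4) p1 p2
  have q2 := fkg (incr_and (Ar_incr S u (4 * r)) (CQ_incr S p r)) (Cx_incr S p r (n + r))
    (bq_nonneg _ _ _) q1 p3
  calc dlt ^ 4 * (aq u (4 * r) * bq p r (n + r)) = aq u (4 * r) * dlt ^ 4 * bq p r (n + r) := by
        ring
    _ ≤ _ := q2
    _ ≤ Pr P S (Ar u n) := by
      apply Pr_mono okP
      rintro F hF ⟨⟨⟨v, hv, huv⟩, h2⟩, ⟨a, b, ha, h3, h4, hab⟩⟩
      have hQ : InQ F := (qb_inQ _ _).mono hF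
      obtain ⟨z, hz⟩ := CQ_meet hp hr hQ h2
      have t1 := sd_tri v p u
      have t2 := sd_tri b u p
      have t3 := sd_comm u p
      have m1 := hz u v hu hup (by omega) huv
      have m2 := hz a b ha h3 (by omega) hab
      exact ⟨b, by omega, (m1.trans m2.symm).trans hab⟩
    _ ≤ _ := pr_Ar_le (qb_inQ _ _) u le_rfl

theorem bq_le {p : Vtx} (hp : InV p) {r n : ℕ} (hr : 1 ≤ r) (hn : 3 * r ≤ n) :
    dlt ^ 4 * (aq p (3 * r) * bq p r n) ≤ aq p n := by
  set S := qb p n with hS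
  have p1 : aq p (3 * r) ≤ Pr P S (Ar p (3 * r)) := pr_Ar_ge (qb_mono (by omega))
  have p2 : dlt ^ 4 ≤ Pr P S (CQ p r) := pr_CQ hp hr (qb_mono (by omega))
  have p3 : bq p r n ≤ Pr P S (Cx p r n) := pr_Cx_ge (qb_mono (by omega))
  have q1 := fkg (Ar_incr S p (3 * r)) (CQ_incr S p r) (pow_nonneg dlt_pos.le 4) p1 p2
  have q2 := fkg (incr_and (Ar_incr S p (3 * r)) (CQ_incr S p r)) (Cx_incr S p r n)
    (bq_nonneg _ _ _) q1 p3
  calc dlt ^ 4 * (aq p (3 * r) * bq p r n) = aq p (3 * r) * dlt ^ 4 * bq p r n := by ring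
    _ ≤ _ := q2
    _ ≤ Pr P S (Ar p n) := by
      apply Pr_mono okP
      rintro F hF ⟨⟨⟨v, hv, huv⟩, h2⟩, ⟨a, b, ha, h3, h4, hab⟩⟩
      have hQ : InQ F := (qb_inQ _ _).mono hF
      obtain ⟨z, hz⟩ := CQ_meet hp hr hQ h2
      have m1 := hz p v hp (by rw [sd_self]; omega) (by omega) huv
      have m2 := hz a b ha h3 (by omega) hab
      exact ⟨b, by omega, (m1.trans m2.symm).trans hab⟩
    _ ≤ _ := pr_Ar_le (qb_inQ _ _) p le_rfl

/-- several doublings -/
theorem aq_dbl2 {c : Vtx} (hc : InV c) (n : ℕ) : kd ^ 2 * aq c n ≤ aq c (9 * n) := by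
  have h1 := aq_dbl hc n
  have h2 := aq_dbl hc (3 * n)
  calc kd ^ 2 * aq c n = kd * (kd * aq c n) := by ring
    _ ≤ kd * aq c (3 * n) := mul_le_mul_of_nonneg_left h1 kd_pos.le
    _ ≤ aq c (3 * (3 * n)) := h2
    _ = _ := by congr 1; ring

theorem aq_dbl3 {c : Vtx} (hc : InV c) (n : ℕ) : kd ^ 3 * aq c n ≤ aq c (27 * n) := by
  have h1 := aq_dbl hc n
  have h2 := aq_dbl2 hc (3 * n)
  calc kd ^ 3 * aq c n = kd ^ 2 * (kd * aq c n) := by ring
    _ ≤ kd ^ 2 * aq c (3 * n) := mul_le_mul_of_nonneg_left h1 (by have := kd_pos; positivity)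
    _ ≤ aq c (9 * (3 * n)) := h2
    _ = _ := by congr 1; ring

/-- the constant of the comparison -/
noncomputable def kr : ℝ := dlt ^ 4 * kd ^ 3

theorem kr_pos : 0 < kr := mul_pos (pow_pos dlt_pos 4) (pow_pos kd_pos 3)

theorem kr_le_kd : kr ≤ kd := by
  unfold kr
  have h1 : dlt ^ 4 ≤ 1 := pow_le_one₀ dlt_pos.le dlt_le
  have h2 : kd ^ 2 ≤ 1 := pow_le_one₀ kd_pos.le kd_le
  calc dlt ^ 4 * kd ^ 3 ≤ 1 * kd ^ 3 := mul_le_mul_of_nonneg_right h1 (by have := kd_pos; positivity)
    _ = kd ^ 2 * kd := by ring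
    _ ≤ 1 * kd := mul_le_mul_of_nonneg_right h2 kd_pos.le
    _ = kd := one_mul _

/-- **The ratio of the one-arm probabilities at two scales does not depend on the centre.** -/
theorem aq_rat {u p : Vtx} (hu : InV u) (hp : InV p) {r n : ℕ} (hr : 1 ≤ r)
    (hup : sd u p ≤ r) (hrn : r ≤ n) : kr * (aq u r * aq p n) ≤ aq u n * aq p r := by
  have u0 := aq_nonneg u r
  have p0 := aq_nonneg p r
  have kd0 := kd_pos
  rcases Nat.lt_or_ge n (2 * r) with h | h
  · have h1 := aq_dbl hu r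
    have h2 : aq u (3 * r) ≤ aq u n := aq_anti (by omega)
    have h3 : aq p n ≤ aq p r := aq_anti hrn
    calc kr * (aq u r * aq p n) ≤ kd * (aq u r * aq p r) := by
          apply mul_le_mul kr_le_kd _ (mul_nonneg u0 (aq_nonneg _ _)) kd0.le
          exact mul_le_mul_of_nonneg_left h3 u0
      _ = (kd * aq u r) * aq p r := by ring
      _ ≤ aq u n * aq p r := mul_le_mul_of_nonneg_right (h1.trans h2) p0
  · have h1 := aq_glue hu hp hr hup h
    have h2 := aq_split hp (r := r) (n := n + r) (by omega)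
    have h3 := aq_dbl hp n
    have h4 : aq p (3 * n) ≤ aq p (n + r) := aq_anti (by omega)
    have h5 := aq_dbl2 hu r
    have h6 : aq u (9 * r) ≤ aq u (4 * r) := aq_anti (by omega)
    have b0 := bq_nonneg p r (n + r)
    have d4 : 0 < dlt ^ 4 := pow_pos dlt_pos 4
    calc kr * (aq u r * aq p n) = dlt ^ 4 * ((kd ^ 2 * aq u r) * (kd * aq p n)) := by
          unfold kr; ring
      _ ≤ dlt ^ 4 * (aq u (4 * r) * (aq p r * bq p r (n + r))) := by
          apply mul_le_mul_of_nonneg_left _ d4.le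
          exact mul_le_mul (h5.trans h6) ((h3.trans h4).trans h2) (by have := aq_nonneg p n; positivity)
            (aq_nonneg _ _)
      _ = (dlt ^ 4 * (aq u (4 * r) * bq p r (n + r))) * aq p r := by ring
      _ ≤ aq u n * aq p r := mul_le_mul_of_nonneg_right h1 p0

attribute [irreducible] kd kr

end TH976
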