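import Pool.Agent.TH976.Dom

/-!
Circuits of the quadrant around an arbitrary vertex.
-/

set_option autoImplicit false

namespace TH976
open Finset H974 Pool.Agent.H160R2.CV
open Pool.Agent.H160R2.CV.Quad
open H973 (dlt dlt_pos dlt_le rswL)

/-- crossings around `c` at distances between `R` and `3 R`, in the quadrant -/
def CQ (c : Vtx) (R : ℕ) (F : Finset Edg) : Prop :=
  (TBc (c.1 + R) (c.1 + 3 * R) (max 0 (c.2 - 3 * R)) (c.2 + 3 * R) F ∧
    LRc (max 0 (c.1 - 3 * R)) (c.1 + 3 * R) (c.2 + R) (c.2 + 3 * R) F) ∧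
  ((3 * (R : ℤ) ≤ c.1 → TBc (c.1 - 3 * R) (c.1 - R) (max 0 (c.2 - 3 * R)) (c.2 + 3 * R) F) ∧
    (3 * (R : ℤ) ≤ c.2 → LRc (max 0 (c.1 - 3 * R)) (c.1 + 3 * R) (c.2 - 3 * R) (c.2 - R) F))

theorem CQ.mono {c : Vtx} {R : ℕ} {F G : Finset Edg} (h : F ⊆ G) (hF : CQ c R F) : CQ c R G :=
  ⟨⟨hF.1.1.mono h, hF.1.2.mono h⟩, ⟨fun k => (hF.2.1 k).mono h, fun k => (hF.2.2 k).mono h⟩⟩

theorem CQ_incr (S : Finset Edg) (c : Vtx) (R : ℕ) : IncrE S (CQ c R) :=
  fun _ _ h _ hF => hF.mono h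

theorem CQ_meet {c : Vtx} (hc : InV c) {R : ℕ} (hR : 1 ≤ R) {F : Finset Edg} (hF : InQ F)
    (h : CQ c R F) : ∃ z : Vtx, ∀ u v : Vtx, InV u → sd u c ≤ R → 3 * R ≤ sd v c →
      Reach (↑F) u v → Reach (↑F) u z := by
  obtain ⟨⟨⟨xr, xr', hxr, hxr', hr⟩, ⟨yt, yt', hyt, hyt', ht⟩⟩, hl, hb⟩ := h
  obtain ⟨c1, c2⟩ := c
  obtain ⟨hc1, hc2⟩ := hc
  simp only at hc1 hc2 hr ht hl hb hxr hxr' hyt hyt'
  have hR' : (1 : ℤ) ≤ R := by exact_mod_cast hR
  have hr' := hr.mono (Set.inter_subset_inter_right (↑F : Set Edg)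
    (by exact_mod_cast TBE_subset_RE :
      (↑(TBE (c1 + R) (c1 + 3 * R) (max 0 (c2 - 3 * R)) (c2 + 3 * R)) : Set Edg) ⊆ _))
  have ht' := ht.mono (Set.inter_subset_inter_right (↑F : Set Edg)
    (by exact_mod_cast LRE_subset_RE :
      (↑(LRE (max 0 (c1 - 3 * R)) (c1 + 3 * R) (c2 + R) (c2 + 3 * R)) : Set Edg) ⊆ _))
  -- top and right
  have mTR : Reach (↑F ∩ ↑(RE (max 0 (c1 - 3 * R)) (c1 + 3 * R) (max 0 (c2 - 3 * R))
      (c2 + 3 * R))) (max 0 (c1 - 3 * (R : ℤ)), yt) (xr, max 0 (c2 - 3 * (R : ℤ))) :=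
    cross_meet (a := c1 + R) (b := c1 + 3 * R) (c := c2 + R) (d := c2 + 3 * R) (by omega)
      (by omega) le_rfl (by omega) (by omega) le_rfl ht' (by simp only; omega)
      (by simp only; omega) hr' (by simp only; omega) (by simp only; omega)
  refine ⟨(xr, max 0 (c2 - 3 * (R : ℤ))), ?_⟩
  intro u v hu huc hvc huv
  unfold sd at huc hvc
  simp only at huc hvc
  obtain ⟨w, h1, h2, h3⟩ := first_exit (a := c1 - 3 * R) (b := c1 + 3 * R) (c := c2 - 3 * R)
    (d := c2 + 3 * R) (by unfold inR; omega) huv (by omega)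
  have hB : (↑F : Set Edg) ∩ ↑(RE (c1 - 3 * R) (c1 + 3 * R) (c2 - 3 * R) (c2 + 3 * R)) ⊆
      ↑F ∩ ↑(RE (max 0 (c1 - 3 * R)) (c1 + 3 * R) (max 0 (c2 - 3 * R)) (c2 + 3 * R)) := by
    rintro ⟨x, y, _ | _⟩ ⟨k1, k2⟩
    · refine ⟨k1, ?_⟩
      have := hF _ (Finset.mem_coe.mp k1)
      simp only at this
      rw [Finset.mem_coe, mem_RE_false] at k2
      rw [Finset.mem_coe, mem_RE_false]
      omega
    · refine ⟨k1, ?_⟩
      have := hF _ (Finset.mem_coe.mp k1)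
      simp only at this
      rw [Finset.mem_coe, mem_RE_true] at k2
      rw [Finset.mem_coe, mem_RE_true]
      omega
  have hP := h3.mono hB
  have hw : InV w := inV_reach hF hu (h3.mono Set.inter_subset_left)
  unfold InV at hw
  unfold inR at h1
  rcases h2 with h2 | h2 | h2 | h2
  · -- left
    have h3R : 3 * (R : ℤ) ≤ c1 := by omega
    obtain ⟨xl, xl', hxl, hxl', hl1⟩ := hl h3R
    have hl' := hl1.mono (Set.inter_subset_inter_right (↑F : Set Edg)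
      (by exact_mod_cast TBE_subset_RE :
        (↑(TBE (c1 - 3 * R) (c1 - R) (max 0 (c2 - 3 * R)) (c2 + 3 * R)) : Set Edg) ⊆ _))
    have mTL : Reach (↑F ∩ ↑(RE (max 0 (c1 - 3 * R)) (c1 + 3 * R) (max 0 (c2 - 3 * R))
        (c2 + 3 * R))) (max 0 (c1 - 3 * (R : ℤ)), yt) (xl, max 0 (c2 - 3 * (R : ℤ))) :=
      cross_meet (a := c1 - 3 * R) (b := c1 - R) (c := c2 + R) (d := c2 + 3 * R) (by omega)
        (by omega) (by omega) (by omega) (by omega) le_rfl ht' (by simp only; omega)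
        (by simp only; omega) hl' (by simp only; omega) (by simp only; omega)
    have m : Reach (↑F ∩ ↑(RE (max 0 (c1 - 3 * R)) (c1 + 3 * R) (max 0 (c2 - 3 * R))
        (c2 + 3 * R))) w (xl, max 0 (c2 - 3 * (R : ℤ))) :=
      cross_meet (a := c1 - 3 * R) (b := c1 - R) (c := max 0 (c2 - 3 * R)) (d := c2 + 3 * R)
        (by omega) (by omega) (by omega) le_rfl (by omega) le_rfl hP.symm (by omega)
        (by omega) hl' (by simp only; omega) (by simp only; omega)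
    exact (hP.trans (m.trans (mTL.symm.trans mTR))).mono Set.inter_subset_left
  · -- right
    exact (cross_meet (a := c1 + R) (b := c1 + 3 * R) (c := max 0 (c2 - 3 * R))
      (d := c2 + 3 * R) (by omega) (by omega) le_rfl le_rfl (by omega) le_rfl hP (by omega)
      h2.ge hr' (by simp only; omega) (by simp only; omega)).mono Set.inter_subset_left
  · -- bottom
    have h3R : 3 * (R : ℤ) ≤ c2 := by omega
    obtain ⟨yb, yb', hyb, hyb', hb1⟩ := hb h3R
    have hb' := hb1.mono (Set.inter_subset_inter_right (↑F : Set Edg)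
      (by exact_mod_cast LRE_subset_RE :
        (↑(LRE (max 0 (c1 - 3 * R)) (c1 + 3 * R) (c2 - 3 * R) (c2 - R)) : Set Edg) ⊆ _))
    have mBR : Reach (↑F ∩ ↑(RE (max 0 (c1 - 3 * R)) (c1 + 3 * R) (max 0 (c2 - 3 * R))
        (c2 + 3 * R))) (max 0 (c1 - 3 * (R : ℤ)), yb) (xr, max 0 (c2 - 3 * (R : ℤ))) :=
      cross_meet (a := c1 + R) (b := c1 + 3 * R) (c := c2 - 3 * R) (d := c2 - R) (by omega)
        (by omega) le_rfl (by omega) (by omega) (by omega) hb' (by simp only; omega)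
        (by simp only; omega) hr' (by simp only; omega) (by simp only; omega)
    have m : Reach (↑F ∩ ↑(RE (max 0 (c1 - 3 * R)) (c1 + 3 * R) (max 0 (c2 - 3 * R))
        (c2 + 3 * R))) (max 0 (c1 - 3 * (R : ℤ)), yb) w :=
      cross_meet (a := max 0 (c1 - 3 * R)) (b := c1 + 3 * R) (c := c2 - 3 * R) (d := c2 - R)
        le_rfl (by omega) le_rfl (by omega) (by omega) (by omega) hb' (by simp only; omega)
        (by simp only; omega) hP.symm (by omega) (by omega)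
    exact (hP.trans (m.symm.trans mBR)).mono Set.inter_subset_left
  · -- top
    have m : Reach (↑F ∩ ↑(RE (max 0 (c1 - 3 * R)) (c1 + 3 * R) (max 0 (c2 - 3 * R))
        (c2 + 3 * R))) (max 0 (c1 - 3 * (R : ℤ)), yt) u :=
      cross_meet (a := max 0 (c1 - 3 * R)) (b := c1 + 3 * R) (c := c2 + R) (d := c2 + 3 * R)
        le_rfl (by omega) le_rfl (by omega) (by omega) le_rfl ht' (by simp only; omega)
        (by simp only; omega) hP (by omega) (by omega)
    exact (m.symm.trans mTR).mono Set.inter_subset_left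

/-- the FKG inequality -/
theorem fkg {S : Finset Edg} {A B : Finset Edg → Prop} (hA : IncrE S A) (hB : IncrE S B)
    {α β : ℝ} (h1 : 0 ≤ β) (ha : α ≤ Pr P S A) (hb : β ≤ Pr P S B) :
    α * β ≤ Pr P S (fun F => A F ∧ B F) :=
  (mul_le_mul ha hb h1 (Pr_nonneg okP _ _)).trans (Pr_harris okP hA hB)

theorem incr_and {S : Finset Edg} {A B : Finset Edg → Prop} (hA : IncrE S A) (hB : IncrE S B) :
    IncrE S (fun F => A F ∧ B F) :=
  fun F G h h' hF => ⟨hA F G h h' hF.1, hB F G h h' hF.2⟩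

theorem pr_TB {a b c d : ℤ} {S : Finset Edg} (hS : RE a b c d ⊆ S) {m : ℤ} (hm : 0 < m)
    (h1 : 0 < d - c) (h2 : d - c ≤ 152 * m) (h3 : 2 * m ≤ b - a) :
    dlt ≤ Pr P S (TBc a b c d) := by
  have e : Pr P S (TBc a b c d) = hh (1 / 2) (d - c) (b - a) :=
    pr_TBc (1 / 2) (TBE_subset_RE.trans hS)
  rw [e]
  exact rswL hm h1 h2 h3

theorem pr_LR {a b c d : ℤ} {S : Finset Edg} (hS : RE a b c d ⊆ S) {m : ℤ} (hm : 0 < m)
    (h1 : 0 < b - a) (h2 : b - a ≤ 152 * m) (h3 : 2 * m ≤ d - c) :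
    dlt ≤ Pr P S (LRc a b c d) := by
  have e : Pr P S (LRc a b c d) = hh (1 / 2) (b - a) (d - c) :=
    pr_LRc (1 / 2) (LRE_subset_RE.trans hS)
  rw [e]
  exact rswL hm h1 h2 h3

theorem pr_true (S : Finset Edg) {A : Finset Edg → Prop} (h : ∀ F, A F) : Pr P S A = 1 := by
  have h1 : Pr P S (fun F => ¬ A F) = 0 := by
    unfold Pr
    have : (fun F => ind (¬ A F)) = (fun _ : Finset Edg => (0 : ℝ)) := by
      funext F
      exact ind_not_of (fun h' => h' (h F))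
    rw [this]
    unfold Ex
    simp
  rw [Pr_not] at h1
  linarith

theorem pr_CQ {c : Vtx} (hc : InV c) {R : ℕ} (hR : 1 ≤ R) {S : Finset Edg}
    (hS : qb c (3 * R) ⊆ S) : dlt ^ 4 ≤ Pr P S (CQ c R) := by
  obtain ⟨c1, c2⟩ := c
  obtain ⟨hc1, hc2⟩ := hc
  simp only at hc1 hc2
  have hR' : (1 : ℤ) ≤ R := by exact_mod_cast hR
  have hsub : ∀ {a b c d : ℤ}, max 0 (c1 - 3 * R) ≤ a → b ≤ c1 + 3 * R →
      max 0 (c2 - 3 * R) ≤ c → d ≤ c2 + 3 * R → RE a b c d ⊆ S := by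
    intro a b c d h1 h2 h3 h4
    refine Finset.Subset.trans ?_ hS
    unfold qb
    apply RE_subset <;> push_cast <;> assumption
  have hd0 := dlt_pos.le
  have p1 : dlt ≤ Pr P S (TBc (c1 + R) (c1 + 3 * R) (max 0 (c2 - 3 * R)) (c2 + 3 * R)) :=
    pr_TB (m := R) (hsub (by omega) (by omega) (by omega) (by omega)) (by omega) (by omega)
      (by omega) (by omega)
  have p2 : dlt ≤ Pr P S (LRc (max 0 (c1 - 3 * R)) (c1 + 3 * R) (c2 + R) (c2 + 3 * R)) :=
    pr_LR (m := R) (hsub (by omega) (by omega) (by omega) (by omega)) (by omega) (by omega)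
      (by omega) (by omega)
  have p3 : dlt ≤ Pr P S (fun F => 3 * (R : ℤ) ≤ c1 →
      TBc (c1 - 3 * R) (c1 - R) (max 0 (c2 - 3 * R)) (c2 + 3 * R) F) := by
    by_cases h : 3 * (R : ℤ) ≤ c1
    · refine (pr_TB (m := R) (a := c1 - 3 * R) (b := c1 - R) (c := max 0 (c2 - 3 * R))
        (d := c2 + 3 * R) (hsub (by omega) (by omega) (by omega) (by omega)) (by omega)
        (by omega) (by omega) (by omega)).trans ?_
      exact Pr_mono okP (fun F _ hF _ => hF)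
    · rw [pr_true S (fun F hF => absurd hF h)]
      exact dlt_le
  have p4 : dlt ≤ Pr P S (fun F => 3 * (R : ℤ) ≤ c2 →
      LRc (max 0 (c1 - 3 * R)) (c1 + 3 * R) (c2 - 3 * R) (c2 - R) F) := by
    by_cases h : 3 * (R : ℤ) ≤ c2
    · refine (pr_LR (m := R) (a := max 0 (c1 - 3 * R)) (b := c1 + 3 * R) (c := c2 - 3 * R)
        (d := c2 - R) (hsub (by omega) (by omega) (by omega) (by omega)) (by omega)
        (by omega) (by omega) (by omega)).trans ?_
      exact Pr_mono okP (fun F _ hF _ => hF)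
    · rw [pr_true S (fun F hF => absurd hF h)]
      exact dlt_le
  have i1 : IncrE S (TBc (c1 + R) (c1 + 3 * R) (max 0 (c2 - 3 * R)) (c2 + 3 * R)) :=
    TBc_incr _ _ _ _ _
  have i2 : IncrE S (LRc (max 0 (c1 - 3 * R)) (c1 + 3 * R) (c2 + R) (c2 + 3 * R)) :=
    LRc_incr _ _ _ _ _
  have i3 : IncrE S (fun F => 3 * (R : ℤ) ≤ c1 →
      TBc (c1 - 3 * R) (c1 - R) (max 0 (c2 - 3 * R)) (c2 + 3 * R) F) :=
    fun _ _ h _ hF k => (hF k).mono h
  have i4 : IncrE S (fun F => 3 * (R : ℤ) ≤ c2 →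
      LRc (max 0 (c1 - 3 * R)) (c1 + 3 * R) (c2 - 3 * R) (c2 - R) F) :=
    fun _ _ h _ hF k => (hF k).mono h
  have q1 := fkg i1 i2 hd0 p1 p2
  have q2 := fkg i3 i4 hd0 p3 p4
  have q3 := fkg (incr_and i1 i2) (incr_and i3 i4) (mul_nonneg hd0 hd0) q1 q2
  calc dlt ^ 4 = dlt * dlt * (dlt * dlt) := by ring
    _ ≤ _ := q3

end TH976
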