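import Mathlib

/-!
Comparison of positive reals up to a constant factor.
-/

set_option autoImplicit false

namespace TH976

/-- `x` and `y` are positive and equal up to the factor `k ≥ 1` -/
structure Cmp (k x y : ℝ) : Prop where
  hk : 1 ≤ k
  hx : 0 < x
  hy : 0 < y
  l : x ≤ k * y
  r : y ≤ k * x

namespace Cmp
variable {k l x y z x' y' : ℝ}

theorem refl (hx : 0 < x) : Cmp 1 x x := ⟨le_rfl, hx, hx, by rw [one_mul], by rw [one_mul]⟩

theorem symm (h : Cmp k x y) : Cmp k y x := ⟨h.hk, h.hy, h.hx, h.r, h.l⟩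

theorem k0 (h : Cmp k x y) : 0 < k := lt_of_lt_of_le one_pos h.hk

theorem weaken (h : Cmp k x y) (hkl : k ≤ l) : Cmp l x y :=
  ⟨h.hk.trans hkl, h.hx, h.hy, h.l.trans (mul_le_mul_of_nonneg_right hkl h.hy.le),
    h.r.trans (mul_le_mul_of_nonneg_right hkl h.hx.le)⟩

theorem one_le_mul' (h : 1 ≤ k) (h' : 1 ≤ l) : 1 ≤ k * l := by nlinarith

theorem trans (h : Cmp k x y) (h' : Cmp l y z) : Cmp (k * l) x z := by
  refine ⟨one_le_mul' h.hk h'.hk, h.hx, h'.hy, ?_, ?_⟩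
  · calc x ≤ k * y := h.l
      _ ≤ k * (l * z) := mul_le_mul_of_nonneg_left h'.l h.k0.le
      _ = _ := by ring
  · calc z ≤ l * y := h'.r
      _ ≤ l * (k * x) := mul_le_mul_of_nonneg_left h.r h'.k0.le
      _ = _ := by ring

theorem mul (h : Cmp k x y) (h' : Cmp l x' y') : Cmp (k * l) (x * x') (y * y') := by
  refine ⟨one_le_mul' h.hk h'.hk, mul_pos h.hx h'.hx, mul_pos h.hy h'.hy, ?_, ?_⟩
  · calc x * x' ≤ (k * y) * (l * y') :=
        mul_le_mul h.l h'.l h'.hx.le (mul_nonneg h.k0.le h.hy.le)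
      _ = _ := by ring
  · calc y * y' ≤ (k * x) * (l * x') :=
        mul_le_mul h.r h'.r h'.hy.le (mul_nonneg h.k0.le h.hx.le)
      _ = _ := by ring

theorem inv (h : Cmp k x y) : Cmp k x⁻¹ y⁻¹ := by
  refine ⟨h.hk, inv_pos.mpr h.hx, inv_pos.mpr h.hy, ?_, ?_⟩
  · rw [inv_eq_one_div, inv_eq_one_div, mul_one_div, div_le_div_iff₀ h.hx h.hy]
    linarith [h.r]
  · rw [inv_eq_one_div, inv_eq_one_div, mul_one_div, div_le_div_iff₀ h.hy h.hx]
    linarith [h.l]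

theorem div (h : Cmp k x y) (h' : Cmp l x' y') : Cmp (k * l) (x / x') (y / y') := by
  rw [div_eq_mul_inv, div_eq_mul_inv]
  exact h.mul h'.inv

theorem rpow (h : Cmp k x y) {a : ℝ} (ha0 : 0 ≤ a) (ha1 : a ≤ 1) : Cmp k (x ^ a) (y ^ a) := by
  have hk : k ^ a ≤ k := by
    calc k ^ a ≤ k ^ (1 : ℝ) := Real.rpow_le_rpow_of_exponent_le h.hk ha1
      _ = k := Real.rpow_one k
  refine ⟨h.hk, Real.rpow_pos_of_pos h.hx _, Real.rpow_pos_of_pos h.hy _, ?_, ?_⟩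
  · calc x ^ a ≤ (k * y) ^ a := Real.rpow_le_rpow h.hx.le h.l ha0
      _ = k ^ a * y ^ a := Real.mul_rpow h.k0.le h.hy.le
      _ ≤ _ := mul_le_mul_of_nonneg_right hk (Real.rpow_nonneg h.hy.le _)
  · calc y ^ a ≤ (k * x) ^ a := Real.rpow_le_rpow h.hy.le h.r ha0
      _ = k ^ a * x ^ a := Real.mul_rpow h.k0.le h.hx.le
      _ ≤ _ := mul_le_mul_of_nonneg_right hk (Real.rpow_nonneg h.hx.le _)

theorem rpow_neg (h : Cmp k x y) {a : ℝ} (ha0 : 0 ≤ a) (ha1 : a ≤ 1) :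
    Cmp k (x ^ (-a)) (y ^ (-a)) := by
  rw [Real.rpow_neg h.hx.le, Real.rpow_neg h.hy.le]
  exact (h.rpow ha0 ha1).inv

theorem min' (h : Cmp k x y) (h' : Cmp k x' y') : Cmp k (min x x') (min y y') := by
  refine ⟨h.hk, lt_min h.hx h'.hx, lt_min h.hy h'.hy, ?_, ?_⟩
  · rw [mul_min_of_nonneg _ _ h.k0.le]
    exact min_le_min h.l h'.l
  · rw [mul_min_of_nonneg _ _ h.k0.le]
    exact min_le_min h.r h'.r

theorem max' (h : Cmp k x y) (h' : Cmp k x' y') : Cmp k (max x x') (max y y') := by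
  refine ⟨h.hk, lt_of_lt_of_le h.hx (le_max_left _ _), lt_of_lt_of_le h.hy (le_max_left _ _),
    ?_, ?_⟩
  · rw [mul_max_of_nonneg _ _ h.k0.le]
    exact max_le_max h.l h'.l
  · rw [mul_max_of_nonneg _ _ h.k0.le]
    exact max_le_max h.r h'.r

theorem of_le (hx : 0 < x) (hxy : x ≤ y) (hk : 1 ≤ k) (h : y ≤ k * x) : Cmp k x y :=
  ⟨hk, hx, lt_of_lt_of_le hx hxy, by nlinarith, h⟩

theorem congr (h : Cmp k x y) (h1 : x' = x) (h2 : y' = y) : Cmp k x' y' := by rw [h1, h2]; exact h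

end Cmp

end TH976
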