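import Pool.Agent.TH976.KPt

/-!
Exact conformal covariance of the functions `gH`, `gQ` and `kFun`.
-/

set_option autoImplicit false

namespace TH976
open Complex Set Metric Filter Topology ComplexConjugate

/-- the upper half-plane -/
def UH : Set ℂ := {z | 0 < z.im}

/-- the quadrant -/
def UQ : Set ℂ := {z | 0 < z.re ∧ 0 < z.im}

/-- `φ` is a conformal map from `D` onto `D'` -/
def Conf (D D' : Set ℂ) (φ : ℂ → ℂ) : Prop :=
  DifferentiableOn ℂ φ D ∧ MapsTo φ D D' ∧ ∃ ψ : ℂ → ℂ, DifferentiableOn ℂ ψ D' ∧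
    MapsTo ψ D' D ∧ (∀ z ∈ D, ψ (φ z) = z) ∧ ∀ w ∈ D', φ (ψ w) = w

theorem UH_open : IsOpen UH := isOpen_lt continuous_const Complex.continuous_im

theorem UQ_open : IsOpen UQ :=
  (isOpen_lt continuous_const Complex.continuous_re).inter
    (isOpen_lt continuous_const Complex.continuous_im)

/-- Cayley transform -/
noncomputable def cay (w z : ℂ) : ℂ := (z - w) / (z - conj w)

/-- inverse Cayley transform -/
noncomputable def cayi (w ζ : ℂ) : ℂ := (w - conj w * ζ) / (1 - ζ)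

theorem cay_den {w z : ℂ} (hw : w ∈ UH) (hz : z ∈ UH) : z - conj w ≠ 0 := by
  intro h
  have h1 := congrArg Complex.im h
  simp only [Complex.sub_im, Complex.conj_im, Complex.zero_im] at h1
  have hw' : 0 < w.im := hw
  have hz' : 0 < z.im := hz
  linarith

theorem nsq (z : ℂ) : ‖z‖ ^ 2 = z.re ^ 2 + z.im ^ 2 := by
  rw [← Complex.normSq_eq_norm_sq, Complex.normSq_apply]
  ring

theorem cay_norm {w z : ℂ} (_hw : w ∈ UH) (_hz : z ∈ UH) :
    ‖cay w z‖ ^ 2 = ‖z - w‖ ^ 2 / (‖z - w‖ ^ 2 + 4 * (z.im * w.im)) := by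
  unfold cay
  rw [norm_div, div_pow]
  congr 1
  rw [nsq, nsq]
  simp only [Complex.sub_re, Complex.sub_im, Complex.conj_re, Complex.conj_im]
  ring

theorem cay_lt {w z : ℂ} (hw : w ∈ UH) (hz : z ∈ UH) : ‖cay w z‖ < 1 := by
  have h1 := cay_norm hw hz
  have hw' : 0 < w.im := hw
  have hz' : 0 < z.im := hz
  have h2 : ‖cay w z‖ ^ 2 < 1 := by
    rw [h1, div_lt_one (by positivity)]
    nlinarith [mul_pos hz' hw']
  have h3 := norm_nonneg (cay w z)
  nlinarith

theorem cayi_den {ζ : ℂ} (h : ‖ζ‖ < 1) : (1 : ℂ) - ζ ≠ 0 := by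
  intro h1
  have : ζ = 1 := by linear_combination -h1
  rw [this, norm_one] at h
  exact lt_irrefl _ h

theorem cayi_mem {w ζ : ℂ} (hw : w ∈ UH) (h : ‖ζ‖ < 1) : cayi w ζ ∈ UH := by
  have h1 := cayi_den h
  have hw' : 0 < w.im := hw
  have h2 : 0 < Complex.normSq (1 - ζ) := Complex.normSq_pos.mpr h1
  have h3 : ζ.re ^ 2 + ζ.im ^ 2 < 1 := by
    rw [← nsq]
    have := norm_nonneg ζ
    nlinarith
  show 0 < (cayi w ζ).im
  unfold cayi
  rw [Complex.div_im]
  simp only [Complex.sub_re, Complex.sub_im, Complex.mul_re, Complex.mul_im, Complex.conj_re,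
    Complex.conj_im, Complex.one_re, Complex.one_im]
  rw [← sub_div]
  apply div_pos _ h2
  nlinarith

theorem cayi_cay {w z : ℂ} (hw : w ∈ UH) (hz : z ∈ UH) : cayi w (cay w z) = z := by
  have h1 := cay_den hw hz
  have h2 := cay_den hw hw
  have h3 : (1 : ℂ) - (z - w) / (z - conj w) ≠ 0 := cayi_den (cay_lt hw hz)
  unfold cayi cay
  rw [div_eq_iff h3]
  field_simp
  ring

theorem cayi_zero (w : ℂ) : cayi w 0 = w := by
  unfold cayi
  simp

theorem cay_self (w : ℂ) : cay w w = 0 := by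
  unfold cay
  simp

/-- the invariant form of the Schwarz lemma, for the half-plane -/
theorem pick_cay {f : ℂ → ℂ} (hf : DifferentiableOn ℂ f UH) (hm : MapsTo f UH UH) {z w : ℂ}
    (hz : z ∈ UH) (hw : w ∈ UH) : ‖cay (f w) (f z)‖ ≤ ‖cay w z‖ := by
  have hB : ∀ ζ ∈ ball (0 : ℂ) 1, ‖ζ‖ < 1 := by
    intro ζ hζ
    rwa [mem_ball_zero_iff] at hζ
  have h1 : DifferentiableOn ℂ (fun ζ => cay (f w) (f (cayi w ζ))) (ball 0 1) := by
    intro ζ hζ
    have hζ' := hB ζ hζ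
    have a1 : DifferentiableWithinAt ℂ (cayi w) (ball 0 1) ζ := by
      unfold cayi
      apply DifferentiableWithinAt.div
      · fun_prop
      · fun_prop
      · exact cayi_den hζ'
    have a2 : DifferentiableWithinAt ℂ (fun ζ => f (cayi w ζ)) (ball 0 1) ζ := by
      have := (hf (cayi w ζ) (cayi_mem hw hζ')).comp ζ a1 (fun y hy => cayi_mem hw (hB y hy))
      exact this
    unfold cay
    apply DifferentiableWithinAt.div
    · exact a2.sub_const _
    · exact a2.sub_const _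
    · exact cay_den (hm hw) (hm (cayi_mem hw hζ'))
  have h2 : MapsTo (fun ζ => cay (f w) (f (cayi w ζ))) (ball 0 1) (closedBall 0 1) := by
    intro ζ hζ
    rw [mem_closedBall_zero_iff]
    exact (cay_lt (hm hw) (hm (cayi_mem hw (hB ζ hζ)))).le
  have h3 : (fun ζ => cay (f w) (f (cayi w ζ))) 0 = 0 := by
    show cay (f w) (f (cayi w 0)) = 0
    rw [cayi_zero, cay_self]
  have h4 := Complex.norm_le_norm_of_mapsTo_ball h1 h2 h3 (cay_lt hw hz)
  rw [cayi_cay hw hz] at h4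
  exact h4

theorem pick {f : ℂ → ℂ} (hf : DifferentiableOn ℂ f UH) (hm : MapsTo f UH UH) {z w : ℂ}
    (hz : z ∈ UH) (hw : w ∈ UH) :
    ‖f z - f w‖ ^ 2 * (z.im * w.im) ≤ ‖z - w‖ ^ 2 * ((f z).im * (f w).im) := by
  have h1 := pick_cay hf hm hz hw
  have h2 : ‖cay (f w) (f z)‖ ^ 2 ≤ ‖cay w z‖ ^ 2 := by
    apply pow_le_pow_left₀ (norm_nonneg _) h1
  rw [cay_norm (hm hw) (hm hz), cay_norm hw hz] at h2
  have w0 : 0 < w.im := hw
  have z0 : 0 < z.im := hz
  have w1 : 0 < (f w).im := hm hw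
  have z1 : 0 < (f z).im := hm hz
  rw [div_le_div_iff₀ (by positivity) (by positivity)] at h2
  nlinarith

theorem Conf.symm {D D' : Set ℂ} {φ : ℂ → ℂ} (h : Conf D D' φ) : ∃ ψ, Conf D' D ψ ∧
    (∀ z ∈ D, ψ (φ z) = z) ∧ ∀ w ∈ D', φ (ψ w) = w := by
  obtain ⟨h1, h2, ψ, h3, h4, h5, h6⟩ := h
  exact ⟨ψ, ⟨h3, h4, φ, h1, h2, h6, h5⟩, h5, h6⟩

theorem Conf.comp {D D' D'' : Set ℂ} {φ φ' : ℂ → ℂ} (h : Conf D D' φ) (h' : Conf D' D'' φ') :
    Conf D D'' (φ' ∘ φ) := by
  obtain ⟨h1, h2, ψ, h3, h4, h5, h6⟩ := h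
  obtain ⟨k1, k2, ψ', k3, k4, k5, k6⟩ := h'
  refine ⟨k1.comp h1 h2, k2.comp h2, ψ ∘ ψ', h3.comp k3 k4, h4.comp k4, ?_, ?_⟩
  · intro z hz
    show ψ (ψ' (φ' (φ z))) = z
    rw [k5 _ (h2 hz), h5 _ hz]
  · intro w hw
    show φ' (φ (ψ (ψ' w))) = w
    rw [h6 _ (k4 hw), k6 _ hw]

/-- automorphisms of the half-plane are isometries -/
theorem Conf.iso {φ : ℂ → ℂ} (h : Conf UH UH φ) {z w : ℂ} (hz : z ∈ UH) (hw : w ∈ UH) :
    ‖φ z - φ w‖ ^ 2 * (z.im * w.im) = ‖z - w‖ ^ 2 * ((φ z).im * (φ w).im) := by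
  obtain ⟨h1, h2, ψ, h3, h4, h5, h6⟩ := h
  apply le_antisymm
  · exact pick h1 h2 hz hw
  · have := pick h3 h4 (h2 hz) (h2 hw)
    rwa [h5 z hz, h5 w hw] at this

theorem Conf.deriv_ne {D D' : Set ℂ} {φ : ℂ → ℂ} (hD : IsOpen D) (hD' : IsOpen D')
    (h : Conf D D' φ) {z : ℂ} (hz : z ∈ D) : deriv φ z ≠ 0 := by
  obtain ⟨h1, h2, ψ, h3, h4, h5, h6⟩ := h
  intro h0
  have d1 : HasDerivAt φ (deriv φ z) z := (h1.differentiableAt (hD.mem_nhds hz)).hasDerivAt
  have d2 : HasDerivAt ψ (deriv ψ (φ z)) (φ z) :=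
    (h3.differentiableAt (hD'.mem_nhds (h2 hz))).hasDerivAt
  have d3 : HasDerivAt (ψ ∘ φ) (deriv ψ (φ z) * deriv φ z) z := d2.comp z d1
  have d4 : HasDerivAt (ψ ∘ φ) 1 z := by
    have : (ψ ∘ φ) =ᶠ[𝓝 z] id := by
      filter_upwards [hD.mem_nhds hz] with y hy
      exact h5 y hy
    exact (hasDerivAt_id z).congr_of_eventuallyEq this
  have d5 := d3.unique d4
  rw [h0, mul_zero] at d5
  exact zero_ne_one d5

/-- the derivative of an automorphism of the half-plane -/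
theorem Conf.deriv_UH {φ : ℂ → ℂ} (h : Conf UH UH φ) {z : ℂ} (hz : z ∈ UH) :
    ‖deriv φ z‖ = (φ z).im / z.im := by
  have z0 : 0 < z.im := hz
  have z1 : 0 < (φ z).im := h.2.1 hz
  have hd : DifferentiableAt ℂ φ z := h.1.differentiableAt (UH_open.mem_nhds hz)
  have d1 : HasDerivAt φ (deriv φ z) z := hd.hasDerivAt
  have t1 : Tendsto (fun w => ‖slope φ z w‖ ^ 2) (𝓝[≠] z) (𝓝 (‖deriv φ z‖ ^ 2)) :=
    (d1.tendsto_slope.norm).pow 2
  have t2 : Tendsto (fun w : ℂ => ((φ w).im * (φ z).im) / (w.im * z.im)) (𝓝[≠] z)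
      (𝓝 (((φ z).im * (φ z).im) / (z.im * z.im))) := by
    have c1 : Tendsto (fun w => (φ w).im) (𝓝[≠] z) (𝓝 (φ z).im) :=
      ((Complex.continuous_im.tendsto _).comp hd.continuousAt).mono_left nhdsWithin_le_nhds
    have c2 : Tendsto (fun w : ℂ => w.im) (𝓝[≠] z) (𝓝 z.im) :=
      (Complex.continuous_im.tendsto z).mono_left nhdsWithin_le_nhds
    exact (c1.mul_const _).div (c2.mul_const _) (by positivity)
  have t3 : (fun w => ‖slope φ z w‖ ^ 2) =ᶠ[𝓝[≠] z]
      (fun w : ℂ => ((φ w).im * (φ z).im) / (w.im * z.im)) := by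
    have m1 : ∀ᶠ w in 𝓝[≠] z, w ∈ UH := nhdsWithin_le_nhds (UH_open.mem_nhds hz)
    have m2 : ∀ᶠ w in 𝓝[≠] z, w ≠ z := self_mem_nhdsWithin
    filter_upwards [m1, m2] with w hw hwz
    have w0 : 0 < w.im := hw
    have e := h.iso hw hz
    have n0 : 0 < ‖w - z‖ := norm_pos_iff.mpr (sub_ne_zero.mpr hwz)
    rw [slope_def_field, norm_div, div_pow]
    rw [div_eq_div_iff (by positivity) (by positivity), e]
    ring
  have t4 := tendsto_nhds_unique (t1.congr' t3) t2
  have e2 : ‖deriv φ z‖ ^ 2 = ((φ z).im / z.im) ^ 2 := by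
    rw [t4]
    field_simp
  exact (pow_left_inj₀ (norm_nonneg _) (by positivity) (by norm_num)).mp e2

/-- covariance of the two-point function of the half-plane -/
theorem gH_conf {φ : ℂ → ℂ} (h : Conf UH UH φ) {z w : ℂ} (hz : z ∈ UH) (hw : w ∈ UH) :
    gH z w = ‖deriv φ z‖ ^ (5 / 48 : ℝ) * ‖deriv φ w‖ ^ (5 / 48 : ℝ) * gH (φ z) (φ w) := by
  have e := h.iso hz hw
  rw [h.deriv_UH hz, h.deriv_UH hw]
  have z0 : 0 < z.im := hz
  have w0 : 0 < w.im := hw
  have z1 : 0 < (φ z).im := h.2.1 hz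
  have w1 : 0 < (φ w).im := h.2.1 hw
  unfold gH
  have n0 := norm_nonneg (z - w)
  have n1 := norm_nonneg (φ z - φ w)
  generalize ‖z - w‖ = N at *
  generalize ‖φ z - φ w‖ = M at *
  generalize z.im = s at *
  generalize w.im = t at *
  generalize (φ z).im = s' at *
  generalize (φ w).im = t' at *
  have e1 : M ^ 2 / (s' * t') = N ^ 2 / (s * t) := by
    rw [div_eq_div_iff (by positivity) (by positivity)]
    linarith
  rw [e1]
  have e2 : M ^ 2 = N ^ 2 * ((s' / s) * (t' / t)) := by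
    field_simp
    linarith
  have e3 : ∀ x : ℝ, 0 ≤ x → x ^ (-(5 / 24) : ℝ) = (x ^ 2) ^ (-(5 / 48) : ℝ) := by
    intro x hx
    rw [← Real.rpow_natCast, ← Real.rpow_mul hx]
    norm_num
  rw [e3 M n1, e3 N n0, e2, Real.mul_rpow (by positivity) (by positivity),
    Real.mul_rpow (by positivity) (by positivity)]
  have e4 : (s' / s) ^ (5 / 48 : ℝ) * (s' / s) ^ (-(5 / 48) : ℝ) = 1 := by
    rw [← Real.rpow_add (by positivity)]
    norm_num
  have e5 : (t' / t) ^ (5 / 48 : ℝ) * (t' / t) ^ (-(5 / 48) : ℝ) = 1 := by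
    rw [← Real.rpow_add (by positivity)]
    norm_num
  linear_combination (-1 : ℝ) * (N ^ 2) ^ (-(5 / 48) : ℝ) *
    (1 + N ^ 2 / (s * t)) ^ (-(11 / 48) : ℝ) * (t' / t) ^ (5 / 48 : ℝ) *
      (t' / t) ^ (-(5 / 48) : ℝ) * e4 - (N ^ 2) ^ (-(5 / 48) : ℝ) *
    (1 + N ^ 2 / (s * t)) ^ (-(11 / 48) : ℝ) * e5

/-- two-point function pulled back from the half-plane by `u` -/
noncomputable def pull (u : ℂ → ℂ) (z w : ℂ) : ℝ :=
  ‖deriv u z‖ ^ (5 / 48 : ℝ) * ‖deriv u w‖ ^ (5 / 48 : ℝ) * gH (u z) (u w)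

/-- covariance in general -/
theorem pull_conf {D D' : Set ℂ} (hD : IsOpen D) (hD' : IsOpen D') {u u' φ : ℂ → ℂ}
    (hu : Conf D UH u) (hu' : Conf D' UH u') (h : Conf D D' φ) {z w : ℂ} (hz : z ∈ D)
    (hw : w ∈ D) : pull u z w =
      ‖deriv φ z‖ ^ (5 / 48 : ℝ) * ‖deriv φ w‖ ^ (5 / 48 : ℝ) * pull u' (φ z) (φ w) := by
  obtain ⟨v, hv, hv1, hv2⟩ := hu.symm
  have hF := (hv.comp h).comp hu'
  set F := u' ∘ φ ∘ v with hFd
  have hF' : Conf UH UH F := hF
  have e1 : ∀ y ∈ D, F (u y) = u' (φ y) := by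
    intro y hy
    show u' (φ (v (u y))) = _
    rw [hv1 y hy]
  have e2 : ∀ y ∈ D, deriv F (u y) * deriv u y = deriv u' (φ y) * deriv φ y := by
    intro y hy
    have d1 : HasDerivAt u (deriv u y) y := (hu.1.differentiableAt (hD.mem_nhds hy)).hasDerivAt
    have d2 : HasDerivAt F (deriv F (u y)) (u y) :=
      (hF'.1.differentiableAt (UH_open.mem_nhds (hu.2.1 hy))).hasDerivAt
    have d3 : HasDerivAt φ (deriv φ y) y := (h.1.differentiableAt (hD.mem_nhds hy)).hasDerivAt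
    have d4 : HasDerivAt u' (deriv u' (φ y)) (φ y) :=
      (hu'.1.differentiableAt (hD'.mem_nhds (h.2.1 hy))).hasDerivAt
    have d5 := d2.comp y d1
    have d6 := d4.comp y d3
    have d7 : (F ∘ u) =ᶠ[𝓝 y] (u' ∘ φ) := by
      filter_upwards [hD.mem_nhds hy] with y' hy'
      exact e1 y' hy'
    exact d5.unique (d6.congr_of_eventuallyEq d7)
  have e3 : ∀ y ∈ D, ‖deriv F (u y)‖ ^ (5 / 48 : ℝ) * ‖deriv u y‖ ^ (5 / 48 : ℝ) =
      ‖deriv u' (φ y)‖ ^ (5 / 48 : ℝ) * ‖deriv φ y‖ ^ (5 / 48 : ℝ) := by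
    intro y hy
    rw [← Real.mul_rpow (norm_nonneg _) (norm_nonneg _), ← norm_mul, e2 y hy, norm_mul,
      Real.mul_rpow (norm_nonneg _) (norm_nonneg _)]
  unfold pull
  rw [gH_conf hF' (hu.2.1 hz) (hu.2.1 hw), e1 z hz, e1 w hw]
  linear_combination (‖deriv F (u w)‖ ^ (5 / 48 : ℝ) * ‖deriv u w‖ ^ (5 / 48 : ℝ) *
    gH (u' (φ z)) (u' (φ w))) * e3 z hz + (‖deriv u' (φ z)‖ ^ (5 / 48 : ℝ) *
    ‖deriv φ z‖ ^ (5 / 48 : ℝ) * gH (u' (φ z)) (u' (φ w))) * e3 w hw

theorem conf_id (D : Set ℂ) : Conf D D id :=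
  ⟨differentiableOn_id, mapsTo_id _, id, differentiableOn_id, mapsTo_id _, fun _ _ => rfl,
    fun _ _ => rfl⟩

theorem pull_id : pull id = gH := by
  funext z w
  unfold pull
  rw [deriv_id, deriv_id, norm_one, Real.one_rpow]
  simp

theorem pull_sq : pull (fun z => z ^ 2) = gQ := by
  funext z w
  unfold pull gQ
  have : ∀ z : ℂ, deriv (fun z : ℂ => z ^ 2) z = 2 * z := by
    intro z
    simp
  rw [this, this]

/-- the square root on the half-plane -/
noncomputable def rt (z : ℂ) : ℂ := Complex.exp (Complex.log z / 2)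

theorem conf_sq : Conf UQ UH (fun z => z ^ 2) := by
  have hslit : ∀ w ∈ UH, w ∈ Complex.slitPlane := by
    intro w hw
    right
    exact (ne_of_gt hw)
  have h2 : MapsTo (fun z : ℂ => z ^ 2) UQ UH := by
    rintro z ⟨h1, h2⟩
    show 0 < (z ^ 2).im
    rw [pow_two, Complex.mul_im]
    nlinarith [mul_pos h1 h2]
  have hrt : ∀ w ∈ UH, rt w ∈ UQ := by
    intro w hw
    have hw' : 0 < w.im := hw
    have a1 : 0 < Complex.arg w := by
      rcases lt_trichotomy 0 (Complex.arg w) with h | h | h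
      · exact h
      · exfalso
        have := Complex.arg_eq_zero_iff.mp h.symm
        linarith [this.2]
      · exfalso
        have := Complex.arg_neg_iff.mp h
        linarith
    have a2 : Complex.arg w < Real.pi := by
      apply lt_of_le_of_ne (Complex.arg_le_pi w)
      intro h
      have := Complex.arg_eq_pi_iff.mp h
      linarith [this.2]
    have e1 : (Complex.log w / 2).im = Complex.arg w / 2 := by
      rw [Complex.div_ofNat_im, Complex.log_im]
    unfold rt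
    constructor
    · rw [Complex.exp_re, e1]
      apply mul_pos (Real.exp_pos _)
      apply Real.cos_pos_of_mem_Ioo
      constructor <;> linarith [Real.pi_pos]
    · rw [Complex.exp_im, e1]
      apply mul_pos (Real.exp_pos _)
      apply Real.sin_pos_of_mem_Ioo
      constructor <;> linarith [Real.pi_pos]
  have hsq : ∀ w ∈ UH, (rt w) ^ 2 = w := by
    intro w hw
    have hw0 : w ≠ 0 := by
      rintro rfl
      have h0 : 0 < (0 : ℂ).im := hw
      rw [Complex.zero_im] at h0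
      exact lt_irrefl _ h0
    unfold rt
    rw [← Complex.exp_nat_mul]
    rw [show ((2 : ℕ) : ℂ) * (Complex.log w / 2) = Complex.log w by push_cast; ring]
    exact Complex.exp_log hw0
  refine ⟨by fun_prop, h2, rt, ?_, fun w hw => hrt w hw, ?_, hsq⟩
  · intro w hw
    unfold rt
    have : DifferentiableAt ℂ (fun z => Complex.exp (Complex.log z / 2)) w := by
      have h1 := Complex.differentiableAt_log (hslit w hw)
      exact (h1.div_const 2).cexp
    exact this.differentiableWithinAt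
  · intro z hz
    have h3 := hsq _ (h2 hz)
    have h4 := hrt _ (h2 hz)
    have h5 : (rt (z ^ 2) - z) * (rt (z ^ 2) + z) = 0 := by
      have : rt (z ^ 2) ^ 2 = z ^ 2 := h3
      linear_combination this
    rcases mul_eq_zero.mp h5 with h | h
    · exact sub_eq_zero.mp h
    · exfalso
      have h6 := congrArg Complex.re h
      rw [Complex.add_re, Complex.zero_re] at h6
      have h7 : 0 < (rt (z ^ 2)).re := h4.1
      have h8 : 0 < z.re := hz.1
      linarith

/-- covariance of the `k`-point functions -/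
theorem kFun_cov {g g' : ℂ → ℂ → ℝ} {J : ℂ → ℝ} {φ : ℂ → ℂ} {z : ℕ → ℂ} {k : ℕ} (hk : 2 ≤ k)
    (hJ : ∀ i < k, 0 < J (z i))
    (hg : ∀ i < k, ∀ j < k, i ≠ j → g (z i) (z j) = J (z i) * J (z j) * g' (φ (z i)) (φ (z j))) :
    kFun g z k = (∏ i ∈ Finset.range k, J (z i)) * kFun g' (fun i => φ (z i)) k := by
  induction k, hk using Nat.le_induction with
  | base =>
    unfold kFun
    rw [Finset.Ico_self, Finset.prod_empty, mul_one, Finset.prod_empty, mul_one,
      Finset.prod_range_succ, Finset.prod_range_succ, Finset.prod_range_zero, one_mul]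
    exact hg 0 (by norm_num) 1 (by norm_num) (by norm_num)
  | succ n hn ih =>
    have ih' := ih (fun i hi => hJ i (by omega)) (fun i hi j hj hij => hg i (by omega) j (by omega) hij)
    unfold kFun at ih' ⊢
    rw [Finset.prod_Ico_succ_top hn, Finset.prod_Ico_succ_top hn, ← mul_assoc, ih',
      Finset.prod_range_succ]
    have key : (⨆ p : {p : Fin n × Fin n // p.1 < p.2},
        Real.sqrt (g (z n) (z p.1.1) * g (z n) (z p.1.2) / g (z p.1.1) (z p.1.2))) =
        J (z n) * ⨆ p : {p : Fin n × Fin n // p.1 < p.2},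
        Real.sqrt (g' (φ (z n)) (φ (z p.1.1)) * g' (φ (z n)) (φ (z p.1.2)) /
          g' (φ (z p.1.1)) (φ (z p.1.2))) := by
      rw [Real.mul_iSup_of_nonneg (hJ n (by omega)).le]
      congr 1
      funext p
      obtain ⟨⟨⟨i, hi⟩, ⟨j, hj⟩⟩, hij⟩ := p
      have hij' : i < j := hij
      show Real.sqrt (g (z n) (z i) * g (z n) (z j) / g (z i) (z j)) = J (z n) *
        Real.sqrt (g' (φ (z n)) (φ (z i)) * g' (φ (z n)) (φ (z j)) / g' (φ (z i)) (φ (z j)))
      rw [hg n (by omega) i (by omega) (by omega), hg n (by omega) j (by omega) (by omega),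
        hg i (by omega) j (by omega) (by omega)]
      have j0 := hJ n (by omega)
      have j1 := hJ i (by omega)
      have j2 := hJ j (by omega)
      have : J (z n) * J (z i) * g' (φ (z n)) (φ (z i)) * (J (z n) * J (z j) *
          g' (φ (z n)) (φ (z j))) / (J (z i) * J (z j) * g' (φ (z i)) (φ (z j))) =
          (J (z n)) ^ 2 * (g' (φ (z n)) (φ (z i)) * g' (φ (z n)) (φ (z j)) /
            g' (φ (z i)) (φ (z j))) := by
        field_simp
      rw [this, Real.sqrt_mul (by positivity), Real.sqrt_sq j0.le]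
    rw [key]
    ring

end TH976
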