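import Pool.Agent.TH976.Inf

/-!
Conformal covariance of the connection probabilities under the square map, from the quadrant to the
half-plane.
-/

set_option autoImplicit false

namespace TH976
open Finset H974 Pool.Agent.H160R2.CV H362P MeasureTheory
open Pool.Agent.H160R2.CV.Quad Pool.Agent.H389R2.CD

/-- the square of a Gaussian integer -/
def sqr (v : Vtx) : Vtx := (v.1 ^ 2 - v.2 ^ 2, 2 * v.1 * v.2)

/-- sup norm -/
def mx (v : Vtx) : ℕ := max v.1.natAbs v.2.natAbs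

theorem mx_tri (u v : Vtx) : mx u ≤ mx v + sd u v := by
  unfold mx sd
  omega

theorem sd_le_mx {u v : Vtx} (hu : u ∈ DQ) (hv : v ∈ DQ) : sd u v ≤ max (mx u) (mx v) := by
  obtain ⟨h1, h2⟩ := hu
  obtain ⟨h3, h4⟩ := hv
  unfold mx sd
  omega

theorem sqr_mem {v : Vtx} (hv : v ∈ DQ) : sqr v ∈ DH := by
  obtain ⟨h1, h2⟩ := hv
  show (1 : ℤ) ≤ 2 * v.1 * v.2
  nlinarith

theorem sqr_up {z w : Vtx} (hz : z ∈ DQ) (hw : w ∈ DQ) :
    sd (sqr z) (sqr w) ≤ 4 * (sd z w * max (mx z) (mx w)) := by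
  obtain ⟨z1, z2⟩ := z
  obtain ⟨w1, w2⟩ := w
  obtain ⟨h1, h2⟩ := hz
  obtain ⟨h3, h4⟩ := hw
  simp only at h1 h2 h3 h4
  set k := sd (z1, z2) (w1, w2) with hk
  set M := max (mx (z1, z2)) (mx (w1, w2)) with hM
  have a1 : |z1 - w1| ≤ (k : ℤ) := by
    rw [abs_le]
    unfold sd at hk
    simp only at hk
    omega
  have a2 : |z2 - w2| ≤ (k : ℤ) := by
    rw [abs_le]
    unfold sd at hk
    simp only at hk
    omega
  have b1 : |z1 + w1| ≤ 2 * (M : ℤ) := by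
    rw [abs_le]
    unfold mx at hM
    simp only at hM
    omega
  have b2 : |z2 + w2| ≤ 2 * (M : ℤ) := by
    rw [abs_le]
    unfold mx at hM
    simp only at hM
    omega
  have k0 : (0 : ℤ) ≤ k := Int.natCast_nonneg k
  have e1 : |(z1 - w1) * (z1 + w1)| ≤ (k : ℤ) * (2 * M) := by
    rw [abs_mul]; exact mul_le_mul a1 b1 (abs_nonneg _) k0
  have e2 : |(z2 - w2) * (z2 + w2)| ≤ (k : ℤ) * (2 * M) := by
    rw [abs_mul]; exact mul_le_mul a2 b2 (abs_nonneg _) k0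
  have e3 : |(z1 - w1) * (z2 + w2)| ≤ (k : ℤ) * (2 * M) := by
    rw [abs_mul]; exact mul_le_mul a1 b2 (abs_nonneg _) k0
  have e4 : |(z2 - w2) * (z1 + w1)| ≤ (k : ℤ) * (2 * M) := by
    rw [abs_mul]; exact mul_le_mul a2 b1 (abs_nonneg _) k0
  rw [abs_le] at e1 e2 e3 e4
  have f1 : (z1 ^ 2 - z2 ^ 2) - (w1 ^ 2 - w2 ^ 2) =
      (z1 - w1) * (z1 + w1) - (z2 - w2) * (z2 + w2) := by ring
  have f2 : 2 * z1 * z2 - 2 * w1 * w2 = (z1 - w1) * (z2 + w2) + (z2 - w2) * (z1 + w1) := by ring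
  unfold sd sqr
  simp only
  rw [f1, f2]
  have g : ((4 * (k * M) : ℕ) : ℤ) = (k : ℤ) * (2 * M) + (k : ℤ) * (2 * M) := by push_cast; ring
  generalize 4 * (k * M) = T at *
  generalize (k : ℤ) * (2 * M) = U at *
  generalize (z1 - w1) * (z1 + w1) = V1 at *
  generalize (z2 - w2) * (z2 + w2) = V2 at *
  generalize (z1 - w1) * (z2 + w2) = V3 at *
  generalize (z2 - w2) * (z1 + w1) = V4 at *
  omega

theorem sqr_low {z w : Vtx} (hz : z ∈ DQ) (hw : w ∈ DQ) :
    sd z w * max (mx z) (mx w) ≤ 2 * sd (sqr z) (sqr w) := by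
  obtain ⟨z1, z2⟩ := z
  obtain ⟨w1, w2⟩ := w
  obtain ⟨h1, h2⟩ := hz
  obtain ⟨h3, h4⟩ := hw
  simp only at h1 h2 h3 h4
  set k := sd (z1, z2) (w1, w2) with hk
  set M := max (mx (z1, z2)) (mx (w1, w2)) with hM
  set N := sd (sqr (z1, z2)) (sqr (w1, w2)) with hN
  have a1 : (k : ℤ) ^ 2 ≤ (z1 - w1) ^ 2 + (z2 - w2) ^ 2 := by
    have : (k : ℤ) = |z1 - w1| ∨ (k : ℤ) = |z2 - w2| := by
      unfold sd at hk
      simp only at hk
      have q1 := abs_nonneg (z1 - w1)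
      have q2 := abs_nonneg (z2 - w2)
      rcases abs_choice (z1 - w1) with h5 | h5 <;> rcases abs_choice (z2 - w2) with h6 | h6 <;>
        omega
    rcases this with h5 | h5
    · rw [h5, sq_abs]; nlinarith [sq_nonneg (z2 - w2)]
    · rw [h5, sq_abs]; nlinarith [sq_nonneg (z1 - w1)]
  have a2 : (M : ℤ) ^ 2 ≤ (z1 + w1) ^ 2 + (z2 + w2) ^ 2 := by
    have : (M : ℤ) ≤ z1 + w1 ∨ (M : ℤ) ≤ z2 + w2 := by
      unfold mx at hM
      simp only at hM
      omega
    have m0 : (0 : ℤ) ≤ M := Int.natCast_nonneg M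
    rcases this with h5 | h5
    · nlinarith [sq_nonneg (z2 + w2)]
    · nlinarith [sq_nonneg (z1 + w1)]
  have f1 : ((z1 - w1) ^ 2 + (z2 - w2) ^ 2) * ((z1 + w1) ^ 2 + (z2 + w2) ^ 2) =
      ((z1 ^ 2 - z2 ^ 2) - (w1 ^ 2 - w2 ^ 2)) ^ 2 + (2 * z1 * z2 - 2 * w1 * w2) ^ 2 := by ring
  have n1 : |(z1 ^ 2 - z2 ^ 2) - (w1 ^ 2 - w2 ^ 2)| ≤ (N : ℤ) := by
    rw [abs_le]
    unfold sd sqr at hN
    simp only at hN
    omega
  have n2 : |2 * z1 * z2 - 2 * w1 * w2| ≤ (N : ℤ) := by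
    rw [abs_le]
    unfold sd sqr at hN
    simp only at hN
    omega
  have n1' : ((z1 ^ 2 - z2 ^ 2) - (w1 ^ 2 - w2 ^ 2)) ^ 2 ≤ (N : ℤ) ^ 2 := by
    rw [← sq_abs]
    exact pow_le_pow_left₀ (abs_nonneg _) n1 2
  have n2' : (2 * z1 * z2 - 2 * w1 * w2) ^ 2 ≤ (N : ℤ) ^ 2 := by
    rw [← sq_abs]
    exact pow_le_pow_left₀ (abs_nonneg _) n2 2
  have key : ((k : ℤ) * M) ^ 2 ≤ (2 * (N : ℤ)) ^ 2 := by
    calc ((k : ℤ) * M) ^ 2 = (k : ℤ) ^ 2 * (M : ℤ) ^ 2 := by ring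
      _ ≤ ((z1 - w1) ^ 2 + (z2 - w2) ^ 2) * ((z1 + w1) ^ 2 + (z2 + w2) ^ 2) :=
          mul_le_mul a1 a2 (by positivity) (by positivity)
      _ ≤ (N : ℤ) ^ 2 + (N : ℤ) ^ 2 := by rw [f1]; exact add_le_add n1' n2'
      _ ≤ _ := by nlinarith [sq_nonneg (N : ℤ)]
  have := abs_le_of_sq_le_sq key (by positivity)
  have h7 : ((k * M : ℕ) : ℤ) ≤ ((2 * N : ℕ) : ℤ) := by
    push_cast
    exact (le_abs_self _).trans this
  exact_mod_cast h7

theorem sqr_inj {z w : Vtx} (hz : z ∈ DQ) (hw : w ∈ DQ) (h : sqr z = sqr w) : z = w := by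
  by_contra hne
  have h1 := sqr_low hz hw
  rw [h, sd_self] at h1
  have h2 := sd_pos hne
  have h3 : 1 ≤ max (mx z) (mx w) := by
    obtain ⟨h4, _⟩ := hz
    unfold mx
    omega
  have := Nat.mul_le_mul h2 h3
  omega

/-! ### distances -/

theorem near_up {X : Finset Vtx} (hX : ∀ u ∈ X, u ∈ DQ) {x : Vtx} (hx : x ∈ DQ) {a a' : ℕ}
    (hn : Near x X a) (hn' : Near (sqr x) (X.image sqr) a') : a' ≤ 8 * (a * max (mx x) a) := by
  obtain ⟨⟨y, hy, hay⟩, -⟩ := hn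
  have h1 : a' ≤ sd (sqr x) (sqr y) := hn'.2 ⟨sqr y, Finset.mem_image_of_mem _ hy, rfl⟩
  have h2 := sqr_up hx (hX y hy)
  rw [← hay] at h2
  have h3 : max (mx x) (mx y) ≤ 2 * max (mx x) a := by
    have := mx_tri y x
    rw [sd_comm, ← hay] at this
    omega
  have h4 := Nat.mul_le_mul_left a h3
  calc a' ≤ 4 * (a * max (mx x) (mx y)) := h1.trans h2
    _ ≤ 4 * (a * (2 * max (mx x) a)) := Nat.mul_le_mul_left 4 h4
    _ = _ := by ring

theorem near_low {X : Finset Vtx} (hX : ∀ u ∈ X, u ∈ DQ) {x : Vtx} (hx : x ∈ DQ) {a a' : ℕ}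
    (hn : Near x X a) (hn' : Near (sqr x) (X.image sqr) a') : a * max (mx x) a ≤ 2 * a' := by
  obtain ⟨⟨y', hy', hay'⟩, -⟩ := hn'
  obtain ⟨y, hy, rfl⟩ := Finset.mem_image.mp hy'
  have h1 : a ≤ sd x y := hn.2 ⟨y, hy, rfl⟩
  have h2 := sqr_low hx (hX y hy)
  have h3 := sd_le_mx hx (hX y hy)
  rw [← hay'] at h2
  refine le_trans ?_ h2
  apply Nat.mul_le_mul h1
  omega

theorem diam_up {X : Finset Vtx} (hX : ∀ u ∈ X, u ∈ DQ) {y : Vtx} (hy : y ∈ X) {d d' : ℕ}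
    (hd : Diam X d) (hd' : Diam (X.image sqr) d') : d' ≤ 8 * (d * max (mx y) d) := by
  obtain ⟨⟨p', hp', q', hq', hD'⟩, -⟩ := hd'
  obtain ⟨p, hp, rfl⟩ := Finset.mem_image.mp hp'
  obtain ⟨q, hq, rfl⟩ := Finset.mem_image.mp hq'
  have h1 : sd p q ≤ d := hd.2 ⟨p, hp, q, hq, rfl⟩
  have h2 : sd p y ≤ d := hd.2 ⟨p, hp, y, hy, rfl⟩
  have h3 : sd q y ≤ d := hd.2 ⟨q, hq, y, hy, rfl⟩
  have h4 := mx_tri p y
  have h5 := mx_tri q y
  have h6 := sqr_up (hX p hp) (hX q hq)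
  rw [hD']
  calc sd (sqr p) (sqr q) ≤ 4 * (sd p q * max (mx p) (mx q)) := h6
    _ ≤ 4 * (d * (2 * max (mx y) d)) := by
        apply Nat.mul_le_mul_left 4
        apply Nat.mul_le_mul h1
        omega
    _ = _ := by ring

theorem diam_low {X : Finset Vtx} (hX : ∀ u ∈ X, u ∈ DQ) {y : Vtx} (hy : y ∈ X) {d d' : ℕ}
    (hd : Diam X d) (hd' : Diam (X.image sqr) d') : d * max (mx y) d ≤ 4 * d' := by
  obtain ⟨⟨p, hp, q, hq, hD⟩, -⟩ := hd
  have hyQ := hX y hy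
  rcases le_total (mx y) d with h | h
  · rw [max_eq_right h]
    have h1 := sqr_low (hX p hp) (hX q hq)
    have h2 : sd (sqr p) (sqr q) ≤ d' :=
      hd'.2 ⟨_, Finset.mem_image_of_mem _ hp, _, Finset.mem_image_of_mem _ hq, rfl⟩
    have h3 := sd_le_mx (hX p hp) (hX q hq)
    rw [← hD] at h1 h3
    have h4 := Nat.mul_le_mul_left d h3
    omega
  · rw [max_eq_left h]
    have key : ∀ w ∈ X, d ≤ 2 * sd y w → d * mx y ≤ 4 * d' := by
      intro w hw hdw
      have h1 := sqr_low hyQ (hX w hw)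
      have h2 : sd (sqr y) (sqr w) ≤ d' :=
        hd'.2 ⟨_, Finset.mem_image_of_mem _ hy, _, Finset.mem_image_of_mem _ hw, rfl⟩
      have h3 : sd y w * mx y ≤ sd y w * max (mx y) (mx w) :=
        Nat.mul_le_mul_left _ (le_max_left _ _)
      have h4 := Nat.mul_le_mul_right (mx y) hdw
      have h5 : 2 * sd y w * mx y = 2 * (sd y w * mx y) := by ring
      omega
    have h1 : d ≤ sd y p + sd y q := by
      rw [hD, sd_comm y p]
      exact sd_tri p y q
    rcases Nat.lt_or_ge (sd y p) (sd y q) with h2 | h2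
    · exact key q hq (by omega)
    · exact key p hp (by omega)

theorem both_up {X : Finset Vtx} (hX : ∀ u ∈ X, u ∈ DQ) {x y : Vtx} (hx : x ∈ DQ) (hy : y ∈ X)
    {a a' d d' : ℕ} (hn : Near x X a) (hn' : Near (sqr x) (X.image sqr) a') (hd : Diam X d)
    (hd' : Diam (X.image sqr) d') : max a' d' ≤ 24 * (max a d * max (mx y) (max a d)) := by
  have h1 := near_up hX hx hn hn'
  have h2 := diam_up hX hy hd hd'
  obtain ⟨⟨y0, hy0, hay⟩, -⟩ := hn
  have h3 : sd y0 y ≤ d := hd.2 ⟨y0, hy0, y, hy, rfl⟩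
  have h4 := mx_tri x y
  have h5 := sd_tri x y0 y
  apply max_le
  · calc a' ≤ 8 * (a * max (mx x) a) := h1
      _ ≤ 8 * (max a d * (3 * max (mx y) (max a d))) := by
          apply Nat.mul_le_mul_left 8
          apply Nat.mul_le_mul (le_max_left _ _)
          omega
      _ = _ := by ring
  · calc d' ≤ 8 * (d * max (mx y) d) := h2
      _ ≤ 8 * (max a d * max (mx y) (max a d)) := by
          apply Nat.mul_le_mul_left 8
          apply Nat.mul_le_mul (le_max_right _ _)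
          omega
      _ ≤ _ := by apply Nat.mul_le_mul_right; norm_num

theorem both_low {X : Finset Vtx} (hX : ∀ u ∈ X, u ∈ DQ) {x y : Vtx} (hx : x ∈ DQ) (hy : y ∈ X)
    {a a' d d' : ℕ} (hn : Near x X a) (hn' : Near (sqr x) (X.image sqr) a') (hd : Diam X d)
    (hd' : Diam (X.image sqr) d') : max a d * max (mx y) (max a d) ≤ 24 * max a' d' := by
  have h1 := near_low hX hx hn hn'
  have h2 := diam_low hX hy hd hd'
  obtain ⟨⟨y0, hy0, hay⟩, -⟩ := hn
  have h3 : sd y0 y ≤ d := hd.2 ⟨y0, hy0, y, hy, rfl⟩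
  have h4 := mx_tri y x
  have h5 := sd_tri x y0 y
  rw [sd_comm y x] at h4
  rcases le_total a d with h | h
  · rw [max_eq_right h]
    omega
  · rw [max_eq_left h]
    have h6 : max (mx y) a ≤ 3 * max (mx x) a := by omega
    have h7 := Nat.mul_le_mul_left a h6
    have h8 : a * (3 * max (mx x) a) = 3 * (a * max (mx x) a) := by ring
    omega

theorem cmp_nat {k m n : ℕ} (hk : 1 ≤ k) (hm : 1 ≤ m) (hn : 1 ≤ n) (h1 : m ≤ k * n)
    (h2 : n ≤ k * m) : Cmp (k : ℝ) (m : ℝ) (n : ℝ) :=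
  ⟨by exact_mod_cast hk, by exact_mod_cast hm, by exact_mod_cast hn, by exact_mod_cast h1,
    by exact_mod_cast h2⟩

/-! ### profiles -/

theorem EH_cmp {k l s s' m m' : ℝ} (hs : Cmp k s s') (hm : Cmp l m m') :
    Cmp (l * (k * l)) (EH s m) (EH s' m') := by
  unfold EH
  have h1 : Cmp (k * l) (min 1 (s / m)) (min 1 (s' / m')) :=
    ((Cmp.refl one_pos).weaken (Cmp.one_le_mul' hs.hk hm.hk)).min' (hs.div hm)
  exact (hm.rpow_neg (by norm_num) (by norm_num)).mul (h1.rpow (by norm_num) (by norm_num))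

theorem E_EH {s b n : ℝ} (hs : 0 < s) (hsb : s ≤ b) (hn : 0 < n) :
    E s b n = b ^ (5 / 48 : ℝ) * EH (s * b) (n * max b n) := by
  have hb : 0 < b := hs.trans_le hsb
  unfold EH
  rcases le_total n b with h | h
  · rw [max_eq_left h, mul_div_mul_right _ _ hb.ne']
    unfold E
    rw [min_eq_left ((one_le_div hn).mpr h), Real.one_rpow, mul_one, Real.mul_rpow hn.le hb.le]
    have e : b ^ (5 / 48 : ℝ) * b ^ (-(5 / 48 : ℝ)) = 1 := by
      rw [← Real.rpow_add hb, add_neg_cancel, Real.rpow_zero]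
    generalize (min 1 (s / n)) ^ (11 / 48 : ℝ) = t
    generalize n ^ (-(5 / 48 : ℝ)) = u
    calc u * t = (b ^ (5 / 48 : ℝ) * b ^ (-(5 / 48 : ℝ))) * (u * t) := by rw [e, one_mul]
      _ = _ := by ring
  · rw [max_eq_right h, E_big hn hs hsb h]
    have h1 : s * b / (n * n) ≤ 1 := by
      rw [div_le_one (by positivity)]
      nlinarith
    rw [min_eq_right h1, Real.div_rpow (by positivity) (by positivity), Real.mul_rpow hs.le hb.le,
      Real.mul_rpow hn.le hn.le, Real.mul_rpow hn.le hn.le]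
    simp only [Real.rpow_def_of_pos hs, Real.rpow_def_of_pos hb, Real.rpow_def_of_pos hn,
      ← Real.exp_add, ← Real.exp_sub]
    congr 1
    ring

/-- the derivative factor `|2 z| ^ (5 / 48)` -/
noncomputable def Jf (v : Vtx) : ℝ := ‖(2 : ℂ) * ((v.1 : ℂ) + (v.2 : ℂ) * Complex.I)‖ ^ (5 / 48 : ℝ)

theorem norm_cmp {v : Vtx} (hv : v ∈ DQ) :
    Cmp 4 ‖(2 : ℂ) * ((v.1 : ℂ) + (v.2 : ℂ) * Complex.I)‖ (max (v.1 : ℝ) v.2) := by
  have h1 : (1 : ℝ) ≤ v.1 := by exact_mod_cast hv.1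
  have h2 : (1 : ℝ) ≤ v.2 := by exact_mod_cast hv.2
  have hre : ((v.1 : ℂ) + (v.2 : ℂ) * Complex.I).re = v.1 := by simp
  have him : ((v.1 : ℂ) + (v.2 : ℂ) * Complex.I).im = v.2 := by simp
  have a1 := Complex.abs_re_le_norm ((v.1 : ℂ) + (v.2 : ℂ) * Complex.I)
  have a2 := Complex.abs_im_le_norm ((v.1 : ℂ) + (v.2 : ℂ) * Complex.I)
  have a3 := Complex.norm_le_abs_re_add_abs_im ((v.1 : ℂ) + (v.2 : ℂ) * Complex.I)
  rw [hre, abs_of_nonneg (by linarith)] at a1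
  rw [him, abs_of_nonneg (by linarith)] at a2
  rw [hre, him, abs_of_nonneg (by linarith), abs_of_nonneg (by linarith)] at a3
  rw [norm_mul, Complex.norm_ofNat]
  generalize ‖(v.1 : ℂ) + (v.2 : ℂ) * Complex.I‖ = t at *
  have m1 : (v.1 : ℝ) ≤ max (v.1 : ℝ) v.2 := le_max_left _ _
  have m2 : (v.2 : ℝ) ≤ max (v.1 : ℝ) v.2 := le_max_right _ _
  have m3 : max (v.1 : ℝ) v.2 ≤ t := max_le a1 a2
  exact ⟨by norm_num, by linarith, by linarith, by linarith, by linarith⟩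

theorem Jf_cmp {v : Vtx} (hv : v ∈ DQ) : Cmp 4 (Jf v) ((max (v.1 : ℝ) v.2) ^ (5 / 48 : ℝ)) :=
  (norm_cmp hv).rpow (by norm_num) (by norm_num)

theorem mx_cast {v : Vtx} (hv : v ∈ DQ) : ((mx v : ℕ) : ℝ) = max (v.1 : ℝ) v.2 := by
  obtain ⟨h1, h2⟩ := hv
  have : ((mx v : ℕ) : ℤ) = max v.1 v.2 := by
    unfold mx
    omega
  have h3 : (((mx v : ℕ) : ℤ) : ℝ) = ((max v.1 v.2 : ℤ) : ℝ) := by rw [this]
  push_cast at h3
  exact h3

/-- the constant of the covariance of the profiles -/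
noncomputable def kc : ℝ := 4 * (24 * (2 * 24))

theorem cov_e {v : Vtx} (hv : v ∈ DQ) {n m : ℕ} (hn : 1 ≤ n) (hm : 1 ≤ m)
    (h1 : m ≤ 24 * (n * max (mx v) n)) (h2 : n * max (mx v) n ≤ 24 * m) :
    Cmp kc (eQ v n) (Jf v * eH (sqr v) m) := by
  have hv1 : (1 : ℝ) ≤ v.1 := by exact_mod_cast hv.1
  have hv2 : (1 : ℝ) ≤ v.2 := by exact_mod_cast hv.2
  have hn0 : (0 : ℝ) < n := by exact_mod_cast hn
  have hs : 0 < min (v.1 : ℝ) v.2 := lt_min (by linarith) (by linarith)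
  have hb : 0 < max (v.1 : ℝ) v.2 := lt_max_of_lt_left (by linarith)
  have hsb : min (v.1 : ℝ) v.2 ≤ max (v.1 : ℝ) v.2 := min_le_max
  have hmx : 1 ≤ mx v := by
    obtain ⟨h3, _⟩ := hv
    unfold mx
    omega
  have c1 : Cmp 24 (m : ℝ) ((n : ℝ) * max (max (v.1 : ℝ) v.2) n) := by
    have := cmp_nat (k := 24) (by norm_num) hm
      (Nat.mul_pos hn (lt_of_lt_of_le hmx (le_max_left _ _))) h1 h2
    push_cast at this
    rw [mx_cast hv] at this
    exact this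
  have c2 : Cmp 2 (((sqr v).2 : ℤ) : ℝ) (min (v.1 : ℝ) v.2 * max (v.1 : ℝ) v.2) := by
    rw [min_mul_max]
    unfold sqr
    push_cast
    have : 0 < (v.1 : ℝ) * v.2 := by positivity
    exact ⟨by norm_num, by positivity, this, by linarith, by linarith⟩
  have c3 := EH_cmp c2 c1
  have c4 := (Jf_cmp hv).mul c3
  unfold eQ
  rw [E_EH hs hsb hn0]
  exact c4.symm

theorem exists_near {X : Finset Vtx} (hX : X.Nonempty) (x : Vtx) : ∃ a, Near x X a := by
  obtain ⟨y, hy, h⟩ := Finset.exists_min_image X (fun u => sd x u) hX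
  exact ⟨sd x y, ⟨y, hy, rfl⟩, by rintro d ⟨u, hu, rfl⟩; exact h u hu⟩

theorem exists_diam {X : Finset Vtx} (hX : X.Nonempty) : ∃ d, Diam X d := by
  obtain ⟨p, hp, h⟩ := Finset.exists_max_image (X ×ˢ X) (fun u => sd u.1 u.2)
    (hX.product hX)
  rw [Finset.mem_product] at hp
  refine ⟨sd p.1 p.2, ⟨p.1, hp.1, p.2, hp.2, rfl⟩, ?_⟩
  rintro d ⟨u, hu, v, hv, rfl⟩
  exact h (u, v) (Finset.mem_product.mpr ⟨hu, hv⟩)

theorem PD_singleton (D : Set Vtx) (y : Vtx) : PD D (Cn {y}) = 1 := by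
  unfold PD
  have : {ω : sqLattice.edgeSet → Bool | Cn {y} (opn ω ∩ dE D)} = Set.univ := by
    apply Set.eq_univ_of_forall
    intro ω u hu v hv
    rw [Finset.mem_singleton] at hu hv
    rw [hu, hv]
    exact Reach.refl _ _
  rw [this]
  simp

theorem Good.pos {D : Set Vtx} {e : Vtx → ℕ → ℝ} {c : ℝ} (h : Good D e c) {X : Finset Vtx}
    (hX : ∀ u ∈ X, u ∈ D) (hne : X.Nonempty) : 0 < PD D (Cn X) := by
  classical
  induction X using Finset.induction_on with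
  | empty => exact absurd hne Finset.not_nonempty_empty
  | @insert x X hxX ih =>
    rcases X.eq_empty_or_nonempty with h0 | h0
    · subst h0
      have e1 : insert x (∅ : Finset Vtx) = {x} := rfl
      rw [e1, PD_singleton]
      exact one_pos
    · have hX' : ∀ u ∈ X, u ∈ D := fun u hu => hX u (Finset.mem_insert_of_mem hu)
      have ih' := ih hX' h0
      have hx := hX x (Finset.mem_insert_self _ _)
      obtain ⟨y, hy⟩ := h0
      obtain ⟨a, ha⟩ := exists_near ⟨y, hy⟩ x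
      obtain ⟨d, hd⟩ := exists_diam ⟨y, hy⟩
      have ha1 : 1 ≤ a := by
        obtain ⟨⟨y0, hy0, hay⟩, -⟩ := ha
        rw [hay]
        apply sd_pos
        rintro rfl
        exact hxX hy0
      have h1 := (h.2.2 X x y a d hX' hx hxX hy ha hd).1
      have p1 := h.2.1 x hx a ha1
      have p2 := h.2.1 y (hX' y hy) (max a (max d 1)) (by omega)
      have p3 := h.2.1 y (hX' y hy) (max d 1) (by omega)
      have p4 := h.1
      have h2 : 0 < e y (max d 1) * PD D (Cn (insert x X)) := lt_of_lt_of_le (by positivity) h1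
      exact pos_of_mul_pos_right h2 p3.le

/-- the addition of a point as a comparison -/
theorem Good.cmp {D : Set Vtx} {e : Vtx → ℕ → ℝ} {c : ℝ} (h : Good D e c) {X : Finset Vtx}
    {x y : Vtx} {a d : ℕ} (hX : ∀ u ∈ X, u ∈ D) (hx : x ∈ D) (hxX : x ∉ X) (hy : y ∈ X)
    (hn : Near x X a) (hd : Diam X d) : Cmp (1 + c⁻¹) (PD D (Cn (insert x X)))
      (e x a * e y (max a (max d 1)) / e y (max d 1) * PD D (Cn X)) := by
  obtain ⟨h1, h2⟩ := h.2.2 X x y a d hX hx hxX hy hn hd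
  have ha1 : 1 ≤ a := by
    obtain ⟨⟨y0, hy0, hay⟩, -⟩ := hn
    rw [hay]
    apply sd_pos
    rintro rfl
    exact hxX hy0
  have p1 := h.2.1 x hx a ha1
  have p2 := h.2.1 y (hX y hy) (max a (max d 1)) (by omega)
  have p3 := h.2.1 y (hX y hy) (max d 1) (by omega)
  have hc := h.1
  have q1 := h.pos hX ⟨y, hy⟩
  have q2 : 0 < PD D (Cn (insert x X)) := h.pos (X := insert x X) (fun u hu => by
    rcases Finset.mem_insert.mp hu with rfl | hu
    · exact hx
    · exact hX u hu) ⟨x, Finset.mem_insert_self _ _⟩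
  have hci : 0 < c⁻¹ := inv_pos.mpr hc
  generalize PD D (Cn (insert x X)) = p' at *
  generalize PD D (Cn X) = p at *
  generalize e x a = A at *
  generalize e y (max a (max d 1)) = B at *
  generalize e y (max d 1) = C at *
  have e1 : A * B / C * p = (A * B * p) / C := by ring
  rw [e1]
  refine ⟨by linarith, q2, by positivity, ?_, ?_⟩
  · rw [← mul_div_assoc, le_div_iff₀ p3]
    have : C * p' ≤ c⁻¹ * (A * B * p) := by
      rw [inv_mul_eq_div, le_div_iff₀ hc, mul_comm]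
      exact h2
    nlinarith [mul_pos (mul_pos p1 p2) q1]
  · rw [div_le_iff₀ p3]
    have : A * B * p ≤ c⁻¹ * (C * p') := by
      rw [inv_mul_eq_div, le_div_iff₀ hc, mul_comm]
      exact h1
    nlinarith [mul_pos p3 q2]

theorem e_one {v : Vtx} (hv : v ∈ DQ) : eQ v 1 = 1 := by
  have hv1 : (1 : ℝ) ≤ v.1 := by exact_mod_cast hv.1
  have hv2 : (1 : ℝ) ≤ v.2 := by exact_mod_cast hv.2
  unfold eQ
  rw [E_small (by norm_num) (by rw [Nat.cast_one]; exact le_min hv1 hv2)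
    (by rw [Nat.cast_one]; exact le_max_of_le_left hv1)]
  simp

theorem eH_one {v : Vtx} (hv : v ∈ DH) : eH v 1 = 1 := by
  have hv2 : (1 : ℝ) ≤ v.2 := by exact_mod_cast hv
  unfold eH EH
  rw [min_eq_left (by rw [Nat.cast_one, div_one]; exact hv2)]
  simp

theorem near_one {x : Vtx} {X : Finset Vtx} {a : ℕ} (hxX : x ∉ X) (hn : Near x X a) : 1 ≤ a := by
  obtain ⟨⟨y0, hy0, hay⟩, -⟩ := hn
  rw [hay]
  apply sd_pos
  rintro rfl
  exact hxX hy0

theorem near_single (x y : Vtx) : Near x {y} (sd x y) :=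
  ⟨⟨y, by simp, rfl⟩, by rintro d ⟨u, hu, rfl⟩; rw [Finset.mem_singleton] at hu; rw [hu]⟩

theorem diam_single (y : Vtx) : Diam {y} 0 :=
  ⟨⟨y, by simp, y, by simp, by rw [sd_self]⟩, by
    rintro d ⟨u, hu, v, hv, rfl⟩
    rw [Finset.mem_singleton] at hu hv
    rw [hu, hv, sd_self]⟩

/-- two points -/
theorem Good.two {D : Set Vtx} {e : Vtx → ℕ → ℝ} {c : ℝ} (h : Good D e c)
    (h1 : ∀ v ∈ D, e v 1 = 1) {x y : Vtx} (hx : x ∈ D) (hy : y ∈ D) (hxy : x ≠ y) :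
    Cmp (1 + c⁻¹) (PD D (Cn {x, y})) (e x (sd x y) * e y (sd x y)) := by
  have h2 := h.cmp (X := {y}) (x := x) (y := y) (by
    intro u hu
    rw [Finset.mem_singleton] at hu
    rw [hu]
    exact hy) hx (by simpa using hxy) (Finset.mem_singleton_self y) (near_single x y)
    (diam_single y)
  have e1 : max 0 1 = 1 := rfl
  have e2 : max (sd x y) 1 = sd x y := max_eq_left (sd_pos hxy)
  rw [e1, e2, h1 y hy, div_one, PD_singleton, mul_one] at h2
  exact h2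

theorem cov_two (hA : ArS) : ∃ K : ℝ, ∀ x ∈ DQ, ∀ y ∈ DQ, x ≠ y →
    Cmp K (PD DQ (Cn {x, y})) (Jf x * Jf y * PD DH (Cn {sqr x, sqr y})) := by
  obtain ⟨c1, g1⟩ := good_Q hA
  obtain ⟨c2, g2⟩ := good_H hA
  refine ⟨(1 + c1⁻¹) * ((kc * kc) * (1 + c2⁻¹)), fun x hx y hy hxy => ?_⟩
  have hne : sqr x ≠ sqr y := fun h => hxy (sqr_inj hx hy h)
  have t1 := g1.two (fun v hv => e_one hv) hx hy hxy
  have t2 := g2.two (fun v hv => eH_one hv) (sqr_mem hx) (sqr_mem hy) hne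
  have s1 := sqr_up hx hy
  have s2 := sqr_low hx hy
  have s3 := sd_le_mx hx hy
  have s4 := mx_tri y x
  have s5 := mx_tri x y
  rw [sd_comm y x] at s4
  have n1 := sd_pos hxy
  have n2 := sd_pos hne
  have u1 : max (mx x) (mx y) ≤ 2 * max (mx x) (sd x y) := by omega
  have u2 : max (mx x) (mx y) ≤ 2 * max (mx y) (sd x y) := by omega
  have u1' := Nat.mul_le_mul_left (sd x y) u1
  have u2' := Nat.mul_le_mul_left (sd x y) u2
  have v1 : sd x y * max (mx x) (sd x y) ≤ sd x y * max (mx x) (mx y) :=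
    Nat.mul_le_mul_left _ (by omega)
  have v2 : sd x y * max (mx y) (sd x y) ≤ sd x y * max (mx x) (mx y) :=
    Nat.mul_le_mul_left _ (by omega)
  have w1 : sd x y * (2 * max (mx x) (sd x y)) = 2 * (sd x y * max (mx x) (sd x y)) := by ring
  have w2 : sd x y * (2 * max (mx y) (sd x y)) = 2 * (sd x y * max (mx y) (sd x y)) := by ring
  have c3 := cov_e hx (n := sd x y) (m := sd (sqr x) (sqr y)) n1 n2 (by omega) (by omega)
  have c4 := cov_e hy (n := sd x y) (m := sd (sqr x) (sqr y)) n1 n2 (by omega) (by omega)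
  have c5 := c3.mul c4
  have j1 := (Jf_cmp hx).hx
  have j2 := (Jf_cmp hy).hx
  have t3 := ((Cmp.refl j1).mul (Cmp.refl j2)).mul t2.symm
  have t4 := (c5.congr rfl (show Jf x * Jf y * (eH (sqr x) (sd (sqr x) (sqr y)) *
    eH (sqr y) (sd (sqr x) (sqr y))) = _ by ring)).trans t3
  refine (t1.trans t4).weaken (le_of_eq ?_)
  ring

theorem cov_add {c1 c2 : ℝ} (g1 : Good DQ eQ c1) (g2 : Good DH eH c2) {X : Finset Vtx}
    (hX : ∀ u ∈ X, u ∈ DQ) (h2 : 2 ≤ X.card) {x : Vtx} (hx : x ∈ DQ) (hxX : x ∉ X) {K J : ℝ}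
    (ih : Cmp K (PD DQ (Cn X)) (J * PD DH (Cn (X.image sqr)))) (hJ : 0 < J) :
    Cmp ((1 + c1⁻¹) * (kc * kc * kc) * (1 + c2⁻¹) * K) (PD DQ (Cn (insert x X)))
      (Jf x * J * PD DH (Cn ((insert x X).image sqr))) := by
  have hne : X.Nonempty := Finset.card_pos.mp (by omega)
  obtain ⟨y, hy⟩ := hne
  have hyQ := hX y hy
  have hX' : ∀ u ∈ X.image sqr, u ∈ DH := by
    intro u hu
    obtain ⟨v, hv, rfl⟩ := Finset.mem_image.mp hu
    exact sqr_mem (hX v hv)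
  have hxX' : sqr x ∉ X.image sqr := by
    intro hc
    obtain ⟨v, hv, hv'⟩ := Finset.mem_image.mp hc
    exact hxX (sqr_inj (hX v hv) hx hv' ▸ hv)
  have hy' : sqr y ∈ X.image sqr := Finset.mem_image_of_mem _ hy
  obtain ⟨a, ha⟩ := exists_near ⟨y, hy⟩ x
  obtain ⟨d, hd⟩ := exists_diam ⟨y, hy⟩
  obtain ⟨a', ha'⟩ := exists_near ⟨sqr y, hy'⟩ (sqr x)
  obtain ⟨d', hd'⟩ := exists_diam ⟨sqr y, hy'⟩
  have a1 := near_one hxX ha
  have a1' := near_one hxX' ha'
  have d1 : 1 ≤ d := by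
    obtain ⟨p, hp, q, hq, hpq⟩ := Finset.one_lt_card.mp (show 1 < X.card by omega)
    have := hd.2 ⟨p, hp, q, hq, rfl⟩
    have := sd_pos hpq
    omega
  have i1 := near_up hX hx ha ha'
  have i2 := near_low hX hx ha ha'
  have i3 := diam_up hX hy hd hd'
  have i4 := diam_low hX hy hd hd'
  have i5 := both_up hX hx hy ha ha' hd hd'
  have i6 := both_low hX hx hy ha ha' hd hd'
  have d1' : 1 ≤ d' := by
    have : 1 * 1 ≤ d * max (mx y) d := Nat.mul_le_mul d1 (d1.trans (le_max_right _ _))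
    omega
  have t1 := g1.cmp hX hx hxX hy ha hd
  have t2 := g2.cmp hX' (sqr_mem hx) hxX' hy' ha' hd'
  have e1 : max d 1 = d := max_eq_left d1
  have e2 : max d' 1 = d' := max_eq_left d1'
  rw [e1] at t1
  rw [e2] at t2
  have s1 := cov_e hx a1 a1' (by omega) (by omega)
  have s2 := cov_e hyQ (n := max a d) (m := max a' d') (by omega) (by omega) i5 i6
  have s3 := cov_e hyQ d1 d1' (by omega) (by omega)
  have j1 := (Jf_cmp hx).hx
  have j2 := (Jf_cmp hyQ).hx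
  rw [Finset.image_insert]
  have q1 := s1.hy
  have q2 := s2.hy
  have q3 := s3.hy
  have q4 := ih.hy
  have q5 := t2.hx
  have s4 := ((s1.mul s2).div s3).mul ih
  have t3 := ((Cmp.refl j1).mul (Cmp.refl hJ)).mul t2.symm
  generalize PD DQ (Cn (insert x X)) = p1 at *
  generalize PD DQ (Cn X) = p2 at *
  generalize PD DH (Cn (insert (sqr x) (X.image sqr))) = p3 at *
  generalize PD DH (Cn (X.image sqr)) = p4 at *
  generalize eQ x a = A at *
  generalize eQ y (max a d) = B at *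
  generalize eQ y d = C at *
  generalize eH (sqr x) a' = A' at *
  generalize eH (sqr y) (max a' d') = B' at *
  generalize eH (sqr y) d' = C' at *
  generalize Jf x = Jx at *
  generalize Jf y = Jy at *
  have hC : C' ≠ 0 := by
    rintro rfl
    rw [mul_zero] at q3
    exact lt_irrefl _ q3
  have s5 := s4.congr rfl (show Jx * J * (A' * B' / C' * p4) =
    Jx * A' * (Jy * B') / (Jy * C') * (J * p4) by field_simp)
  refine ((t1.trans s5).trans t3).weaken (le_of_eq ?_)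
  ring

/-- **Conformal covariance of the connection probabilities.** -/
theorem cov_all (hA : ArS) : ∃ K : ℝ, 1 ≤ K ∧ ∀ X : Finset Vtx, (∀ u ∈ X, u ∈ DQ) →
    2 ≤ X.card → Cmp (K ^ X.card) (PD DQ (Cn X)) ((∏ z ∈ X, Jf z) * PD DH (Cn (X.image sqr))) := by
  classical
  obtain ⟨c1, g1⟩ := good_Q hA
  obtain ⟨c2, g2⟩ := good_H hA
  obtain ⟨K0, h0⟩ := cov_two hA
  have hK0 : 1 ≤ K0 := (h0 (1, 1) ⟨le_rfl, le_rfl⟩ (2, 1) ⟨by norm_num, le_rfl⟩ (by
    intro h
    have := congrArg Prod.fst h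
    norm_num at this)).hk
  have hc1 : 0 < c1⁻¹ := inv_pos.mpr g1.1
  have hc2 : 0 < c2⁻¹ := inv_pos.mpr g2.1
  set K1 := (1 + c1⁻¹) * (kc * kc * kc) * (1 + c2⁻¹) with hK1
  have hkc : 1 ≤ kc * kc * kc := by unfold kc; norm_num
  have hK1' : 1 ≤ K1 := Cmp.one_le_mul' (Cmp.one_le_mul' (by linarith) hkc) (by linarith)
  have hKK : 1 ≤ K0 * K1 := Cmp.one_le_mul' hK0 hK1'
  refine ⟨K0 * K1, hKK, ?_⟩
  intro X
  induction X using Finset.induction_on with
  | empty =>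
    intro _ h
    simp at h
  | @insert x X hxX ih =>
    intro hX h2
    have hX' : ∀ u ∈ X, u ∈ DQ := fun u hu => hX u (Finset.mem_insert_of_mem hu)
    have hx := hX x (Finset.mem_insert_self _ _)
    have hcard := Finset.card_insert_of_notMem hxX
    rcases Nat.lt_or_ge X.card 2 with h3 | h3
    · have h4 : X.card = 1 := by omega
      obtain ⟨y, rfl⟩ := Finset.card_eq_one.mp h4
      have hy := hX' y (Finset.mem_singleton_self y)
      have hxy : x ≠ y := by simpa using hxX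
      have h5 := h0 x hx y hy hxy
      have e1 : (insert x {y} : Finset Vtx).image sqr = {sqr x, sqr y} := by
        rw [Finset.image_insert, Finset.image_singleton]
      rw [e1, Finset.prod_pair hxy, hcard, h4]
      refine h5.weaken ?_
      calc K0 = K0 * 1 := (mul_one _).symm
        _ ≤ K0 * K1 := mul_le_mul_of_nonneg_left hK1' (by linarith)
        _ = (K0 * K1) * 1 := (mul_one _).symm
        _ ≤ (K0 * K1) * (K0 * K1) := mul_le_mul_of_nonneg_left hKK (by linarith)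
        _ = _ := by ring
    · have h5 := ih hX' h3
      have h6 := cov_add g1 g2 hX' h3 hx hxX h5
        (Finset.prod_pos (fun z hz => (Jf_cmp (hX' z hz)).hx))
      rw [Finset.prod_insert hxX, hcard, pow_succ]
      refine h6.weaken ?_
      have h7 : 0 < (K0 * K1) ^ X.card := by
        apply pow_pos
        linarith
      calc K1 * (K0 * K1) ^ X.card ≤ (K0 * K1) * (K0 * K1) ^ X.card := by
            apply mul_le_mul_of_nonneg_right _ h7.le
            nlinarith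
        _ = _ := by ring

end TH976
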