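import Pool.Agent.H362P.Low
import Pool.Agent.H973R2.Arm6

/-!
Critical bond percolation in the quadrant: boxes, arms, crossings and circuits of the domain.
-/

set_option autoImplicit false

namespace TH976
open Finset H974 Pool.Agent.H160R2.CV
open Pool.Agent.H160R2.CV.Quad

/-- sup distance -/
def sd (u v : Vtx) : ℕ := max (u.1 - v.1).natAbs (u.2 - v.2).natAbs

theorem sd_self (u : Vtx) : sd u u = 0 := by unfold sd; omega
theorem sd_comm (u v : Vtx) : sd u v = sd v u := by unfold sd; omega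
theorem sd_tri (u v w : Vtx) : sd u w ≤ sd u v + sd v w := by unfold sd; omega
theorem sd_pos {u v : Vtx} (h : u ≠ v) : 1 ≤ sd u v := by
  by_contra h1
  apply h
  unfold sd at h1
  have h2 : u.1 = v.1 := by omega
  have h3 : u.2 = v.2 := by omega
  exact Prod.ext h2 h3

/-- vertices of the closed quadrant -/
def InV (u : Vtx) : Prop := 0 ≤ u.1 ∧ 0 ≤ u.2

/-- sets of edges of the quadrant -/
def InQ (S : Finset Edg) : Prop := ∀ e ∈ S, 0 ≤ e.1 ∧ 0 ≤ e.2.1

theorem InQ.mono {S T : Finset Edg} (h : S ⊆ T) (hT : InQ T) : InQ S := fun e he => hT e (h he)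

/-- the edges of the quadrant in the box of radius `m` around `c` -/
noncomputable def qb (c : Vtx) (m : ℕ) : Finset Edg :=
  RE (max 0 (c.1 - m)) (c.1 + m) (max 0 (c.2 - m)) (c.2 + m)

theorem qb_inQ (c : Vtx) (m : ℕ) : InQ (qb c m) := by
  rintro ⟨x, y, _ | _⟩ h
  · simp only [qb, mem_RE_false] at h
    simp only
    omega
  · simp only [qb, mem_RE_true] at h
    simp only
    omega

theorem qb_sub {c c' : Vtx} {m m' : ℕ} (h : sd c c' + m ≤ m') : qb c m ⊆ qb c' m' := by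
  unfold sd at h
  rintro ⟨x, y, _ | _⟩ h
  · simp only [qb, mem_RE_false] at h ⊢
    omega
  · simp only [qb, mem_RE_true] at h ⊢
    omega

theorem qb_mono {c : Vtx} {m m' : ℕ} (h : m ≤ m') : qb c m ⊆ qb c m' :=
  qb_sub (by rw [sd_self]; omega)

theorem qb_disj {x y : Vtx} {m m' : ℕ} (h : m + m' + 1 ≤ sd x y) :
    Disjoint (qb x m) (qb y m') := by
  rw [Finset.disjoint_left]
  unfold sd at h
  rintro ⟨a, b, _ | _⟩ h1 h2
  · simp only [qb, mem_RE_false] at h1 h2; omega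
  · simp only [qb, mem_RE_true] at h1 h2; omega

theorem inter_qb {F : Finset Edg} (hF : InQ F) (c : Vtx) (m : ℕ) :
    (↑F : Set Edg) ∩ ↑(RE (c.1 - m) (c.1 + m) (c.2 - m) (c.2 + m)) ⊆ ↑F ∩ ↑(qb c m) := by
  rintro ⟨x, y, _ | _⟩ ⟨h1, h2⟩
  · refine ⟨h1, ?_⟩
    have := hF _ (Finset.mem_coe.mp h1)
    simp only at this
    rw [Finset.mem_coe, mem_RE_false] at h2
    rw [Finset.mem_coe, qb, mem_RE_false]
    omega
  · refine ⟨h1, ?_⟩
    have := hF _ (Finset.mem_coe.mp h1)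
    simp only at this
    rw [Finset.mem_coe, mem_RE_true] at h2
    rw [Finset.mem_coe, qb, mem_RE_true]
    omega

theorem qb_ends {c : Vtx} {m : ℕ} {e : Edg} (he : e ∈ qb c m) :
    (InV (src e) ∧ sd (src e) c ≤ m) ∧ (InV (tgt e) ∧ sd (tgt e) c ≤ m) := by
  obtain ⟨x, y, _ | _⟩ := e
  · simp only [qb, mem_RE_false] at he
    simp only [src_mk, tgt_false, InV, sd]
    omega
  · simp only [qb, mem_RE_true] at he
    simp only [src_mk, tgt_true, InV, sd]
    omega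

theorem qb_ends' {c : Vtx} {m : ℕ} {e : Edg} (hq : 0 ≤ e.1 ∧ 0 ≤ e.2.1) (he : e ∉ qb c m) :
    (InV (src e) ∧ m ≤ sd (src e) c) ∧ (InV (tgt e) ∧ m ≤ sd (tgt e) c) := by
  obtain ⟨x, y, _ | _⟩ := e
  · simp only [qb, mem_RE_false] at he hq
    simp only [src_mk, tgt_false, InV, sd]
    omega
  · simp only [qb, mem_RE_true] at he hq
    simp only [src_mk, tgt_true, InV, sd]
    omega

theorem inV_step {F : Finset Edg} (hF : InQ F) {u v : Vtx} (h : H974.Adj (↑F) u v) : InV v := by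
  obtain ⟨⟨x, y, b⟩, he, hc⟩ := h
  have := hF _ (Finset.mem_coe.mp he)
  simp only at this
  rcases hc with ⟨-, h2⟩ | ⟨h2, -⟩
  · rw [← h2]
    cases b
    · rw [tgt_false]; unfold InV; simp only; omega
    · rw [tgt_true]; unfold InV; simp only; omega
  · rw [← h2, src_mk]; unfold InV; simp only; omega

theorem inV_reach {F : Finset Edg} (hF : InQ F) {u v : Vtx} (hu : InV u)
    (h : Reach (↑F) u v) : InV v := by
  induction h with
  | refl => exact hu
  | tail _ hs _ => exact inV_step hF hs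

/-- exit from a box -/
theorem exitQ {F : Finset Edg} (hF : InQ F) {c u v : Vtx} {n : ℕ} (hu : sd u c ≤ n)
    (hv : n ≤ sd v c) (h : Reach (↑F) u v) :
    ∃ w, sd w c = n ∧ Reach (↑F ∩ ↑(qb c n)) u w := by
  unfold sd at hu hv
  obtain ⟨w, h1, h2, h3⟩ := first_exit (a := c.1 - n) (b := c.1 + n) (c := c.2 - n)
    (d := c.2 + n) (by unfold inR; omega) h (by omega)
  refine ⟨w, ?_, h3.mono (inter_qb hF c n)⟩
  unfold inR at h1
  unfold sd
  omega

/-- an arm from `c` to distance `n` -/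
def Ar (c : Vtx) (n : ℕ) (F : Finset Edg) : Prop := ∃ v : Vtx, n ≤ sd v c ∧ Reach (↑F) c v

/-- a crossing of the annulus of radii `r`, `n` around `c` -/
def Cx (c : Vtx) (r n : ℕ) (F : Finset Edg) : Prop :=
  ∃ u v : Vtx, InV u ∧ sd u c ≤ r ∧ n ≤ sd v c ∧ Reach (↑F) u v

theorem Ar.mono {c : Vtx} {n : ℕ} {F G : Finset Edg} (h : F ⊆ G) (hF : Ar c n F) : Ar c n G := by
  obtain ⟨v, h1, h2⟩ := hF
  exact ⟨v, h1, h2.mono (by exact_mod_cast h)⟩

theorem Cx.mono {c : Vtx} {r n : ℕ} {F G : Finset Edg} (h : F ⊆ G) (hF : Cx c r n F) :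
    Cx c r n G := by
  obtain ⟨u, v, h0, h1, h2, h3⟩ := hF
  exact ⟨u, v, h0, h1, h2, h3.mono (by exact_mod_cast h)⟩

theorem Ar_incr (S : Finset Edg) (c : Vtx) (n : ℕ) : IncrE S (Ar c n) :=
  fun _ _ h _ hF => hF.mono h

theorem Cx_incr (S : Finset Edg) (c : Vtx) (r n : ℕ) : IncrE S (Cx c r n) :=
  fun _ _ h _ hF => hF.mono h

theorem Ar_loc {F : Finset Edg} (hF : InQ F) {c : Vtx} {n m : ℕ} (hm : n ≤ m) (h : Ar c m F) :
    Ar c n (F ∩ qb c n) := by
  obtain ⟨v, h1, h2⟩ := h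
  obtain ⟨w, h3, h4⟩ := exitQ hF (by rw [sd_self]; omega) (hm.trans h1) h2
  refine ⟨w, h3.ge, ?_⟩
  rw [Finset.coe_inter]
  exact h4

theorem Cx_loc {F : Finset Edg} (hF : InQ F) {c : Vtx} {r n : ℕ} (hrn : r ≤ n)
    (h : Cx c r n F) : Cx c r n (F ∩ (qb c n \ qb c r)) := by
  obtain ⟨u, v, h0, h1, h2, h3⟩ := h
  obtain ⟨w, h4, h5⟩ := exitQ hF (h1.trans hrn) h2 h3
  unfold sd at h1
  obtain ⟨u', h6, h7⟩ := last_exit (a := c.1 - r) (b := c.1 + r) (c := c.2 - r) (d := c.2 + r)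
    (x := u) (by unfold inR; omega) h5
  have hw : InV w := inV_reach hF h0 (h5.mono Set.inter_subset_left)
  have hu' : InV u' := inV_reach hF hw
    ((h7.mono (Set.sdiff_subset.trans Set.inter_subset_left)).symm)
  refine ⟨u', w, hu', ?_, h4.ge, h7.mono ?_⟩
  · unfold inR at h6
    unfold sd
    omega
  · rintro e ⟨⟨h8, h9⟩, h10⟩
    rw [Finset.coe_inter, Finset.coe_sdiff]
    refine ⟨h8, h9, ?_⟩
    intro h11
    apply h10
    revert h11
    obtain ⟨x, y, _ | _⟩ := e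
    · intro h11
      rw [Finset.mem_coe, qb, mem_RE_false] at h11
      rw [Finset.mem_coe, mem_RE_false]
      omega
    · intro h11
      rw [Finset.mem_coe, qb, mem_RE_true] at h11
      rw [Finset.mem_coe, mem_RE_true]
      omega

/-- the one-arm probability of `c` in the quadrant -/
noncomputable def aq (c : Vtx) (n : ℕ) : ℝ := Pr P (qb c n) (Ar c n)

/-- the crossing probability of an annulus around `c` in the quadrant -/
noncomputable def bq (c : Vtx) (r n : ℕ) : ℝ := Pr P (qb c n \ qb c r) (Cx c r n)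

theorem aq_nonneg (c : Vtx) (n : ℕ) : 0 ≤ aq c n := Pr_nonneg okP _ _
theorem bq_nonneg (c : Vtx) (r n : ℕ) : 0 ≤ bq c r n := Pr_nonneg okP _ _
theorem aq_le_one (c : Vtx) (n : ℕ) : aq c n ≤ 1 := Pr_le_one okP _ _
theorem bq_le_one (c : Vtx) (r n : ℕ) : bq c r n ≤ 1 := Pr_le_one okP _ _

/-- localized events -/
def ArL (c : Vtx) (n : ℕ) (F : Finset Edg) : Prop := Ar c n (F ∩ qb c n)
def CxL (c : Vtx) (r n : ℕ) (F : Finset Edg) : Prop := Cx c r n (F ∩ (qb c n \ qb c r))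

theorem ArL_inc (c : Vtx) (n : ℕ) : IncA (ArL c n) :=
  fun _ _ h hF => Ar.mono (Finset.inter_subset_inter_right h) hF

theorem CxL_inc (c : Vtx) (r n : ℕ) : IncA (CxL c r n) :=
  fun _ _ h hF => Cx.mono (Finset.inter_subset_inter_right h) hF

theorem ArL_loc (c : Vtx) (n : ℕ) : LocE (qb c n) (ArL c n) := by
  intro F
  unfold ArL
  rw [Finset.inter_assoc, Finset.inter_self]

theorem CxL_loc (c : Vtx) (r n : ℕ) : LocE (qb c n \ qb c r) (CxL c r n) := by
  intro F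
  unfold CxL
  rw [Finset.inter_assoc, Finset.inter_self]

theorem pr_ArL (c : Vtx) (n : ℕ) : Pr P (qb c n) (ArL c n) = aq c n := by
  apply Pr_congr
  intro F hF
  unfold ArL
  rw [Finset.inter_eq_left.mpr hF]

theorem pr_CxL (c : Vtx) (r n : ℕ) : Pr P (qb c n \ qb c r) (CxL c r n) = bq c r n := by
  apply Pr_congr
  intro F hF
  unfold CxL
  rw [Finset.inter_eq_left.mpr hF]

theorem pr_Ar_le {S : Finset Edg} (hS : InQ S) (c : Vtx) {n m : ℕ} (h : n ≤ m) :
    Pr P S (Ar c m) ≤ aq c n := by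
  rw [← pr_ArL]
  refine le_trans (Pr_mono okP (B := ArL c n) ?_) (pr_le_loc S _ (ArL_inc c n) (ArL_loc c n))
  intro F hF h1
  exact Ar_loc (hS.mono hF) h h1

theorem pr_Ar_ge {S : Finset Edg} {c : Vtx} {n : ℕ} (h : qb c n ⊆ S) :
    aq c n ≤ Pr P S (Ar c n) := Pr_mono_set okP h (Ar_incr S c n)

theorem pr_Cx_le {S : Finset Edg} (hS : InQ S) (c : Vtx) {r n : ℕ} (h : r ≤ n) :
    Pr P S (Cx c r n) ≤ bq c r n := by
  rw [← pr_CxL]
  refine le_trans (Pr_mono okP (B := CxL c r n) ?_)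
    (pr_le_loc S _ (CxL_inc c r n) (CxL_loc c r n))
  intro F hF h1
  exact Cx_loc (hS.mono hF) h h1

theorem pr_Cx_ge {S : Finset Edg} {c : Vtx} {r n : ℕ} (h : qb c n ⊆ S) :
    bq c r n ≤ Pr P S (Cx c r n) :=
  Pr_mono_set okP (Finset.sdiff_subset.trans h) (Cx_incr S c r n)

theorem aq_anti {c : Vtx} {n m : ℕ} (h : n ≤ m) : aq c m ≤ aq c n :=
  (pr_Ar_ge (Finset.Subset.refl (qb c m))).trans (pr_Ar_le (qb_inQ c m) c h)

theorem aq_split {c : Vtx} (hc : InV c) {r n : ℕ} (h : r ≤ n) : aq c n ≤ aq c r * bq c r n := by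
  have hd : Disjoint (qb c r) (qb c n \ qb c r) := Finset.disjoint_sdiff
  have h2 := indep2 (qb c n) _ _ hd (ArL_inc c r) (CxL_inc c r n) (ArL_loc c r) (CxL_loc c r n)
  rw [pr_ArL, pr_CxL] at h2
  refine le_trans (Pr_mono okP ?_) h2
  intro F hF h1
  have hQ : InQ F := (qb_inQ c n).mono hF
  refine ⟨Ar_loc hQ h h1, Cx_loc hQ h ?_⟩
  obtain ⟨v, h3, h4⟩ := h1
  exact ⟨c, v, hc, by rw [sd_self]; omega, h3, h4⟩

end TH976
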