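import Pool.Agent.TH976.AddK
import Pool.Agent.TH976.Cmp
import Pool.Agent.H973R2.Exp3

/-!
The one-arm probabilities of the quadrant, uniformly in the starting point.
-/

set_option autoImplicit false

namespace TH976
open Finset H974 Pool.Agent.H160R2.CV H362P
open Pool.Agent.H160R2.CV.Quad Pool.Agent.H389R2.CD
open H973 (ES mem_ES armC armP HB QT mem_HB mem_QT mem_RE_ends mem_RE_of_ends onBX shift mem_shift
  arm_shift)

theorem cmp_of {n : ℕ} (hn : 1 ≤ n) {s x c C : ℝ} (hc : 0 < c) (h1 : c ≤ (n : ℝ) ^ s * x)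
    (h2 : (n : ℝ) ^ s * x ≤ C) : Cmp (1 + C + c⁻¹) x ((n : ℝ) ^ (-s)) := by
  have hn0 : (0 : ℝ) < n := by exact_mod_cast hn
  have hs : 0 < (n : ℝ) ^ s := Real.rpow_pos_of_pos hn0 s
  have hs' : 0 < (n : ℝ) ^ (-s) := Real.rpow_pos_of_pos hn0 _
  have hx : x = ((n : ℝ) ^ s * x) * (n : ℝ) ^ (-s) := by
    rw [Real.rpow_neg hn0.le]
    field_simp
  have hC : 0 < C := hc.trans_le (h1.trans h2)
  have hci : 0 < c⁻¹ := inv_pos.mpr hc
  generalize hw : (n : ℝ) ^ s * x = w at *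
  generalize (n : ℝ) ^ (-s) = p at *
  have hw0 : 0 < w := hc.trans_le h1
  refine ⟨by linarith, by rw [hx]; positivity, hs', ?_, ?_⟩
  · rw [hx]
    apply mul_le_mul_of_nonneg_right _ hs'.le
    linarith
  · rw [hx]
    have h3 : 1 ≤ c⁻¹ * w := by
      have := mul_le_mul_of_nonneg_left h1 hci.le
      rwa [inv_mul_cancel₀ hc.ne'] at this
    calc p = 1 * p := (one_mul p).symm
      _ ≤ (c⁻¹ * w) * p := mul_le_mul_of_nonneg_right h3 hs'.le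
      _ ≤ ((1 + C + c⁻¹) * w) * p := by
          apply mul_le_mul_of_nonneg_right _ hs'.le
          apply mul_le_mul_of_nonneg_right _ hw0.le
          linarith
      _ = _ := by ring

theorem ar_cmp (hA : ArS) : ∃ K : ℝ, ∀ n : ℕ, 1 ≤ n → Cmp K (ar n) ((n : ℝ) ^ (-(5 / 48 : ℝ))) := by
  obtain ⟨c, C, hc, hC, h⟩ := hA
  refine ⟨1 + C + c⁻¹, fun n hn => ?_⟩
  obtain ⟨h1, h2⟩ := h n hn
  have hn0 : (0 : ℝ) < n := by exact_mod_cast hn
  have hs : 0 < (n : ℝ) ^ (5 / 48 : ℝ) := Real.rpow_pos_of_pos hn0 _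
  have e : (n : ℝ) ^ (5 / 48 : ℝ) * (n : ℝ) ^ (-(5 / 48 : ℝ)) = 1 := by
    rw [← Real.rpow_add hn0, add_neg_cancel, Real.rpow_zero]
  refine cmp_of hn hc ?_ ?_
  · calc c = (n : ℝ) ^ (5 / 48 : ℝ) * (c * (n : ℝ) ^ (-(5 / 48 : ℝ))) := by
          rw [mul_left_comm, e, mul_one]
      _ ≤ _ := mul_le_mul_of_nonneg_left h1 hs.le
  · calc (n : ℝ) ^ (5 / 48 : ℝ) * ar n ≤ (n : ℝ) ^ (5 / 48 : ℝ) * (C * (n : ℝ) ^ (-(5 / 48 : ℝ))) :=
          mul_le_mul_of_nonneg_left h2 hs.le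
      _ = C := by rw [mul_left_comm, e, mul_one]

theorem aq_le_ar (c : Vtx) (n : ℕ) : aq c n ≤ ar n := by
  refine le_trans (Pr_mono okP (B := LA c n) ?_) (pr_LA (qb c n) c n)
  rintro F _ ⟨v, h1, h2⟩
  exact LA_of_reach (u := v) h1 h2

theorem ar_le_aq {c : Vtx} {n : ℕ} (h1 : (n : ℤ) ≤ c.1) (h2 : (n : ℤ) ≤ c.2) : ar n ≤ aq c n := by
  have hsub : RE (c.1 - n) (c.1 + n) (c.2 - n) (c.2 + n) ⊆ qb c n := by
    unfold qb
    apply RE_subset <;> omega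
  rw [← TwoAux.pr_QQ hsub]
  exact Pr_mono okP (fun F _ h => TwoAux.far_of_QQ h)

theorem ES_rect {T : Finset Vtx} {a b c d : ℤ}
    (h : ∀ y : Vtx, y ∈ T ↔ (a ≤ y.1 ∧ y.1 ≤ b) ∧ (c ≤ y.2 ∧ y.2 ≤ d)) : ES T = RE a b c d := by
  ext e
  rw [mem_ES]
  constructor
  · rintro ⟨h1, h2⟩
    exact mem_RE_of_ends ((h _).mp h1) ((h _).mp h2)
  · intro he
    have := mem_RE_ends he
    exact ⟨(h _).mpr this.1, (h _).mpr this.2⟩

theorem armC_aq {c : Vtx} {n : ℕ} {T : Finset Vtx}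
    (h : ∀ y : Vtx, y ∈ T ↔ (max 0 (c.1 - n) ≤ y.1 ∧ y.1 ≤ c.1 + n) ∧
      (max 0 (c.2 - n) ≤ y.2 ∧ y.2 ≤ c.2 + n)) (hc : InV c) :
    Pr (fun _ => (1 / 2 : ℝ)) (ES T) (armC T c n) = aq c n := by
  have e : ES T = qb c n := ES_rect h
  rw [e]
  show Pr P (qb c n) (armC T c n) = aq c n
  unfold aq
  apply Pr_congr
  intro F hF
  constructor
  · rintro ⟨y, h1, h2, h3⟩
    refine ⟨y, ?_, h3⟩
    unfold onBX at h2
    unfold sd
    omega
  · rintro ⟨v, h1, h2⟩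
    have hcT : c ∈ T := by
      rw [h]
      unfold InV at hc
      omega
    have hvT : v ∈ T := H973.reach_mem (F := (↑F : Set Edg))
      (fun e' he => by rw [e]; exact hF (Finset.mem_coe.mp he)) hcT h2
    refine ⟨v, hvT, ?_, h2⟩
    rw [h] at hvT
    unfold onBX
    unfold sd at h1
    omega

theorem aq_half {t : ℤ} {n : ℕ} (hn : (n : ℤ) ≤ t) : aq (t, 0) n = armP (HB 0 (-1) n) n := by
  rw [← arm_shift (t, 0), armC_aq]
  · intro y
    rw [mem_shift, mem_HB]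
    simp only [zero_mul, zero_add, sub_zero, neg_one_mul, neg_nonpos, Int.cast_nonneg_iff]
    omega
  · unfold InV
    simp only
    omega

theorem aq_corner (n : ℕ) : aq (0, 0) n = armP (QT n) n := by
  unfold armP
  rw [armC_aq]
  · intro y
    rw [mem_QT]
    simp only
    omega
  · unfold InV
    simp only
    omega

theorem half_cmp : ∃ K : ℝ, ∀ (t : ℤ) (n : ℕ), 1 ≤ n → (n : ℤ) ≤ t →
    Cmp K (aq (t, 0) n) ((n : ℝ) ^ (-(1 / 3 : ℝ))) := by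
  obtain ⟨c, C, hc, hC, h⟩ := H973.exponents
  refine ⟨1 + C + c⁻¹, fun t n hn hnt => ?_⟩
  obtain ⟨h1, h2⟩ := (h n hn).2 0 (-1) (Or.inr (by norm_num))
  rw [aq_half hnt]
  exact cmp_of hn hc h1 h2

theorem corner_cmp : ∃ K : ℝ, ∀ n : ℕ, 1 ≤ n →
    Cmp K (aq (0, 0) n) ((n : ℝ) ^ (-(2 / 3 : ℝ))) := by
  obtain ⟨c, C, hc, hC, h⟩ := H973.exponents
  refine ⟨1 + C + c⁻¹, fun n hn => ?_⟩
  obtain ⟨h1, h2⟩ := (h n hn).1
  rw [aq_corner]
  exact cmp_of hn hc h1 h2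

theorem aq_succ {u : Vtx} (hu : InV u) {m : ℕ} (hm : 1 ≤ m) :
    Cmp kd⁻¹ (aq u (m + 1)) (aq u m) := by
  have h1 := aq_dbl hu m
  have h2 : aq u (3 * m) ≤ aq u (m + 1) := aq_anti (by omega)
  have h3 : aq u (m + 1) ≤ aq u m := aq_anti (by omega)
  have k0 := kd_pos
  refine Cmp.of_le (aq_pos hu _) h3 (by
    rw [inv_eq_one_div, le_div_iff₀ k0]; linarith [kd_le]) ?_
  rw [inv_mul_eq_div, le_div_iff₀ k0, mul_comm]
  exact h1.trans h2

/-- from radii at most `t` to radii at most `t + 1` -/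
theorem succ_cmp {u : Vtx} (hu : InV u) {K e : ℝ} (he0 : 0 ≤ e) (he1 : e ≤ 1) (hK : 1 ≤ K) {t : ℤ}
    (h : ∀ m : ℕ, 1 ≤ m → (m : ℤ) ≤ t → Cmp K (aq u m) ((m : ℝ) ^ (-e))) {n : ℕ} (hn : 1 ≤ n)
    (hnt : (n : ℤ) ≤ t + 1) : Cmp (kd⁻¹ * K * 2) (aq u n) ((n : ℝ) ^ (-e)) := by
  have k0 := kd_pos
  have hki : 1 ≤ kd⁻¹ := by rw [inv_eq_one_div, le_div_iff₀ k0]; linarith [kd_le]
  have hkK : 1 ≤ kd⁻¹ * K := Cmp.one_le_mul' hki hK
  rcases Nat.lt_or_ge n 2 with h2 | h2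
  · have h3 : n = 1 := by omega
    subst h3
    rw [Nat.cast_one, Real.one_rpow]
    have h4 := aq_ge_pow hu 1
    have h5 := aq_le_one u 1
    exact (Cmp.of_le (k := 2) (aq_pos hu 1) h5 (by norm_num) (by linarith)).weaken (by linarith)
  · obtain ⟨m, rfl⟩ : ∃ m, n = m + 1 := ⟨n - 1, by omega⟩
    have hm : 1 ≤ m := by omega
    have h6 := (aq_succ hu hm).trans (h m hm (by push_cast at hnt; omega))
    have hm0 : (1 : ℝ) ≤ m := by exact_mod_cast hm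
    have h7 : Cmp 2 (m : ℝ) ((m + 1 : ℕ) : ℝ) :=
      Cmp.of_le (by linarith) (by push_cast; linarith) (by norm_num) (by push_cast; linarith)
    exact h6.trans (h7.rpow_neg he0 he1)

/-- the profile of the one-arm probability -/
noncomputable def E (s b n : ℝ) : ℝ :=
  n ^ (-(5 / 48 : ℝ)) * (min 1 (s / n)) ^ (11 / 48 : ℝ) * (min 1 (b / n)) ^ (1 / 3 : ℝ)

theorem E_small {s b n : ℝ} (hn : 0 < n) (hs : n ≤ s) (hb : n ≤ b) :
    E s b n = n ^ (-(5 / 48 : ℝ)) := by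
  unfold E
  rw [min_eq_left ((one_le_div hn).mpr hs), min_eq_left ((one_le_div hn).mpr hb), Real.one_rpow,
    Real.one_rpow, mul_one, mul_one]

theorem E_mid {s b n : ℝ} (hn : 0 < n) (hs0 : 0 < s) (hs : s ≤ n) (hb : n ≤ b) :
    E s b n = s ^ (11 / 48 : ℝ) * n ^ (-(1 / 3 : ℝ)) := by
  unfold E
  rw [min_eq_right ((div_le_one hn).mpr hs), min_eq_left ((one_le_div hn).mpr hb), Real.one_rpow,
    mul_one, Real.div_rpow hs0.le hn.le]
  simp only [Real.rpow_def_of_pos hn, Real.rpow_def_of_pos hs0]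
  rw [← Real.exp_sub, ← Real.exp_add, ← Real.exp_add]
  congr 1
  ring

theorem E_big {s b n : ℝ} (hn : 0 < n) (hs0 : 0 < s) (hsb : s ≤ b) (hb : b ≤ n) :
    E s b n = s ^ (11 / 48 : ℝ) * b ^ (1 / 3 : ℝ) * n ^ (-(2 / 3 : ℝ)) := by
  have hb0 : 0 < b := hs0.trans_le hsb
  unfold E
  rw [min_eq_right ((div_le_one hn).mpr (hsb.trans hb)), min_eq_right ((div_le_one hn).mpr hb),
    Real.div_rpow hs0.le hn.le, Real.div_rpow hb0.le hn.le]
  simp only [Real.rpow_def_of_pos hn, Real.rpow_def_of_pos hs0, Real.rpow_def_of_pos hb0]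
  rw [← Real.exp_sub, ← Real.exp_sub, ← Real.exp_add, ← Real.exp_add, ← Real.exp_add,
    ← Real.exp_add]
  congr 1
  ring

theorem aq_swap (c : Vtx) (n : ℕ) : aq (c.2, c.1) n = aq c n := by
  obtain ⟨a, b⟩ := c
  have e : qb (b, a) n = tps.mp (qb (a, b) n) := by
    unfold qb
    rw [tps_RE]
  unfold aq
  simp only
  rw [e]
  change Pr (fun _ => (1 / 2 : ℝ)) _ _ = _
  rw [LSym.pr]
  apply Pr_congr
  intro F _
  have hr : ∀ y : Vtx, Reach (↑(tps.mp F) : Set Edg) (b, a) (y.2, y.1) ↔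
      Reach (↑F : Set Edg) (a, b) y := by
    intro y
    rw [LSym.coe_mp]
    exact tps.reach_iff (F := (F : Set Edg)) (u := (a, b)) (v := y)
  constructor
  · rintro ⟨y, h1, h2⟩
    refine ⟨(y.2, y.1), ?_, (hr (y.2, y.1)).mp h2⟩
    unfold sd at h1 ⊢
    simp only at h1 ⊢
    omega
  · rintro ⟨y, h1, h2⟩
    refine ⟨(y.2, y.1), ?_, (hr y).mpr h2⟩
    unfold sd at h1 ⊢
    simp only at h1 ⊢
    omega

theorem rat_cmp {u p : Vtx} (hu : InV u) (hp : InV p) {r n : ℕ} (hr : 1 ≤ r)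
    (hup : sd u p ≤ r) (hrn : r ≤ n) : Cmp kr⁻¹ (aq u n / aq p n) (aq u r / aq p r) := by
  have h1 := aq_rat hu hp hr hup hrn
  have h2 := aq_rat hp hu hr (by rw [sd_comm]; exact hup) hrn
  have k0 := kr_pos
  have u1 := aq_pos hu n
  have u2 := aq_pos hu r
  have p1 := aq_pos hp n
  have p2 := aq_pos hp r
  have hk : 1 ≤ kr⁻¹ := by
    rw [inv_eq_one_div, le_div_iff₀ k0]
    linarith [kr_le_kd, kd_le]
  generalize aq u n = U at *
  generalize aq u r = U' at *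
  generalize aq p n = V at *
  generalize aq p r = V' at *
  refine ⟨hk, div_pos u1 p1, div_pos u2 p2, ?_, ?_⟩
  · rw [inv_mul_eq_div, div_div, div_le_div_iff₀ p1 (by positivity)]
    calc U * (V' * kr) = kr * (V' * U) := by ring
      _ ≤ V * U' := h2
      _ = U' * V := by ring
  · rw [inv_mul_eq_div, div_div, div_le_div_iff₀ p2 (by positivity)]
    calc U' * (V * kr) = kr * (U' * V) := by ring
      _ ≤ U * V' := h1

/-- the estimate below the diagonal -/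
theorem aq_cmp0 (hA : ArS) : ∃ K : ℝ, ∀ u : Vtx, InV u → u.2 ≤ u.1 → ∀ n : ℕ, 1 ≤ n →
    Cmp K (aq u n) (E ((u.2 : ℝ) + 1) ((u.1 : ℝ) + 1) n) := by
  obtain ⟨K1, h1⟩ := ar_cmp hA
  obtain ⟨K2, h2⟩ := half_cmp
  obtain ⟨K3, h3⟩ := corner_cmp
  have hK1 : 1 ≤ K1 := (h1 1 le_rfl).hk
  have hK2 : 1 ≤ K2 := (h2 1 1 le_rfl le_rfl).hk
  have hK3 : 1 ≤ K3 := (h3 1 le_rfl).hk
  have k0 := kd_pos
  have hki : 1 ≤ kd⁻¹ := by rw [inv_eq_one_div, le_div_iff₀ k0]; linarith [kd_le]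
  have r0 := kr_pos
  have hri : 1 ≤ kr⁻¹ := by rw [inv_eq_one_div, le_div_iff₀ r0]; linarith [kr_le_kd, kd_le]
  -- near the vertex
  have A1 : ∀ u : Vtx, InV u → u.2 ≤ u.1 → ∀ n : ℕ, 1 ≤ n → (n : ℤ) ≤ u.2 + 1 →
      Cmp (kd⁻¹ * K1 * 2) (aq u n) ((n : ℝ) ^ (-(5 / 48 : ℝ))) := by
    intro u hu huu n hn hnt
    refine succ_cmp hu (by norm_num) (by norm_num) hK1 ?_ hn hnt
    intro m hm hmt
    have e : aq u m = ar m := le_antisymm (aq_le_ar u m) (ar_le_aq (hmt.trans huu) hmt)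
    rw [e]
    exact h1 m hm
  -- boundary vertices
  have A2 : ∀ t : ℤ, 0 ≤ t → ∀ n : ℕ, 1 ≤ n → (n : ℤ) ≤ t + 1 →
      Cmp (kd⁻¹ * K2 * 2) (aq (t, 0) n) ((n : ℝ) ^ (-(1 / 3 : ℝ))) := by
    intro t ht n hn hnt
    refine succ_cmp (u := (t, 0)) ⟨ht, le_rfl⟩ (by norm_num) (by norm_num) hK2 ?_ hn hnt
    intro m hm hmt
    exact h2 t m hm hmt
  set L1 := kd⁻¹ * K1 * 2 with hL1
  set L2 := kd⁻¹ * K2 * 2 with hL2
  have hL1' : 1 ≤ L1 := (A1 (1, 1) ⟨by norm_num, by norm_num⟩ le_rfl 1 le_rfl (by norm_num)).hk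
  have hL2' : 1 ≤ L2 := (A2 1 (by norm_num) 1 le_rfl (by norm_num)).hk
  -- intermediate scales
  set M := kr⁻¹ * (L1 * L2) * L2 with hM
  have hM' : 1 ≤ M := by
    have := Cmp.one_le_mul' hri (Cmp.one_le_mul' hL1' hL2')
    exact Cmp.one_le_mul' this hL2'
  have A3 : ∀ u : Vtx, InV u → u.2 ≤ u.1 → ∀ n : ℕ, (n : ℤ) ≤ u.1 + 1 → u.2 + 1 ≤ n →
      Cmp M (aq u n) (((u.2 : ℝ) + 1) ^ (11 / 48 : ℝ) * (n : ℝ) ^ (-(1 / 3 : ℝ))) := by
    intro u hu huu n hn hnt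
    obtain ⟨s, hs⟩ : ∃ s : ℕ, (s : ℤ) = u.2 + 1 := ⟨(u.2 + 1).toNat, by unfold InV at hu; omega⟩
    have hs1 : 1 ≤ s := by unfold InV at hu; omega
    have hsn : s ≤ n := by omega
    have hu1 : 0 ≤ u.1 := hu.1
    have hu2 : 0 ≤ u.2 := hu.2
    have c1 := rat_cmp hu (p := (u.1, 0)) ⟨hu1, le_rfl⟩ hs1
      (by unfold sd; simp only; omega) hsn
    have c2 := A1 u hu huu s hs1 hs.le
    have c3 := A2 u.1 hu1 s hs1 (by omega)
    have c4 := A2 u.1 hu1 n (by omega) hn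
    have c5 := (c1.trans (c2.div c3)).mul c4
    have p4 := aq_pos (c := (u.1, 0)) ⟨hu1, le_rfl⟩ n
    have hsr : (s : ℝ) = (u.2 : ℝ) + 1 := by exact_mod_cast hs
    have hs0 : (0 : ℝ) < s := by exact_mod_cast hs1
    rw [← hsr]
    refine c5.congr (div_mul_cancel₀ _ p4.ne').symm ?_
    rw [← Real.rpow_sub hs0]
    congr 2
    norm_num
  refine ⟨L1 + M + kr⁻¹ * (M * K3) * K3, ?_⟩
  intro u hu huu n hn
  have hu1 : 0 ≤ u.1 := hu.1
  have hu2 : 0 ≤ u.2 := hu.2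
  have hn0 : (0 : ℝ) < n := by exact_mod_cast hn
  have hs0 : (0 : ℝ) < (u.2 : ℝ) + 1 := by
    have : (0 : ℝ) ≤ u.2 := by exact_mod_cast hu2
    linarith
  have hsb : (u.2 : ℝ) + 1 ≤ (u.1 : ℝ) + 1 := by
    have : (u.2 : ℝ) ≤ u.1 := by exact_mod_cast huu
    linarith
  have hM3 : 0 < kr⁻¹ * (M * K3) * K3 := by positivity
  rcases le_or_gt ((n : ℤ)) (u.2 + 1) with hc | hc
  · have hc' : (n : ℝ) ≤ (u.2 : ℝ) + 1 := by exact_mod_cast hc
    rw [E_small hn0 hc' (hc'.trans hsb)]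
    exact (A1 u hu huu n hn hc).weaken (by linarith)
  · have hc1 : (u.2 : ℝ) + 1 ≤ n := by exact_mod_cast hc.le
    rcases le_or_gt ((n : ℤ)) (u.1 + 1) with hd | hd
    · have hd' : (n : ℝ) ≤ (u.1 : ℝ) + 1 := by exact_mod_cast hd
      rw [E_mid hn0 hs0 hc1 hd']
      exact (A3 u hu huu n hd hc.le).weaken (by linarith)
    · have hd' : (u.1 : ℝ) + 1 ≤ n := by exact_mod_cast hd.le
      rw [E_big hn0 hs0 hsb hd']
      obtain ⟨b, hb⟩ : ∃ b : ℕ, (b : ℤ) = u.1 + 1 := ⟨(u.1 + 1).toNat, by omega⟩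
      have hb1 : 1 ≤ b := by omega
      have c1 := rat_cmp hu (p := (0, 0)) ⟨le_rfl, le_rfl⟩ hb1
        (by unfold sd; simp only; omega) (by omega : b ≤ n)
      have c2 := A3 u hu huu b hb.le (by omega)
      have c3 := h3 b hb1
      have c4 := h3 n hn
      have c5 := (c1.trans (c2.div c3)).mul c4
      have p4 := aq_pos (c := (0, 0)) ⟨le_rfl, le_rfl⟩ n
      have hbr : (b : ℝ) = (u.1 : ℝ) + 1 := by exact_mod_cast hb
      have hb0 : (0 : ℝ) < b := by exact_mod_cast hb1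
      rw [← hbr]
      refine (c5.congr (div_mul_cancel₀ _ p4.ne').symm ?_).weaken (by linarith)
      simp only [Real.rpow_def_of_pos hs0, Real.rpow_def_of_pos hb0, Real.rpow_def_of_pos hn0]
      simp only [← Real.exp_add, ← Real.exp_sub]
      congr 1
      ring

/-- **One-arm probabilities in the quadrant.** -/
theorem aq_cmp (hA : ArS) : ∃ K : ℝ, ∀ u : Vtx, InV u → ∀ n : ℕ, 1 ≤ n →
    Cmp K (aq u n) (E (min (u.1 : ℝ) u.2 + 1) (max (u.1 : ℝ) u.2 + 1) n) := by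
  obtain ⟨K, h⟩ := aq_cmp0 hA
  refine ⟨K, fun u hu n hn => ?_⟩
  rcases le_total u.2 u.1 with h1 | h1
  · have h2 : (u.2 : ℝ) ≤ u.1 := by exact_mod_cast h1
    rw [min_eq_right h2, max_eq_left h2]
    exact h u hu h1 n hn
  · have h2 : (u.1 : ℝ) ≤ u.2 := by exact_mod_cast h1
    rw [min_eq_left h2, max_eq_right h2, ← aq_swap]
    exact h (u.2, u.1) ⟨hu.2, hu.1⟩ h1 n hn

end TH976
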