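import Pool.Agent.TH976.Exps

/-!
Infinite volume: quadrants and the half-plane.
-/

set_option autoImplicit false

namespace TH976
open Finset H974 Pool.Agent.H160R2.CV H362P MeasureTheory
open Pool.Agent.H160R2.CV.Quad Pool.Agent.H389R2.CD

/-- the edges with both ends in `D` -/
def dE (D : Set Vtx) : Set Edg := {e | src e ∈ D ∧ tgt e ∈ D}

/-- probability of an event for the percolation restricted to `D` -/
noncomputable def PD (D : Set Vtx) (A : Set Edg → Prop) : ℝ :=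
  (bondLaw hlf).real {ω | A (opn ω ∩ dE D)}

open Classical in
/-- the edges of `D` in the box of radius `m` -/
noncomputable def bD (D : Set Vtx) (m : ℕ) : Finset Edg := (boxE m).filter (fun e => e ∈ dE D)

theorem mem_bD {D : Set Vtx} {m : ℕ} {e : Edg} : e ∈ bD D m ↔ e ∈ boxE m ∧ e ∈ dE D := by
  classical
  unfold bD
  simp only [Finset.mem_filter]

theorem bD_mono {D : Set Vtx} {m m' : ℕ} (h : m ≤ m') : bD D m ⊆ bD D m' := by
  intro e he
  rw [mem_bD] at he ⊢
  exact ⟨boxE_mono h he.1, he.2⟩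

theorem pr_bD (D : Set Vtx) (m : ℕ) (A : Set Edg → Prop) :
    Pr P (boxE m) (fun F => A (↑F ∩ dE D)) = Pr P (bD D m) (fun F => A ↑F) := by
  have hs : bD D m ⊆ boxE m := by
    intro e he
    exact (mem_bD.mp he).1
  rw [Pr_local hs (A := fun F => A (↑F ∩ dE D))]
  · apply Pr_congr
    intro F hF
    have : (↑F : Set Edg) ∩ dE D = ↑F := by
      apply Set.inter_eq_left.mpr
      intro e he
      exact (mem_bD.mp (hF (Finset.mem_coe.mp he))).2
    rw [this]
  · intro F hF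
    have : (↑(F ∩ bD D m) : Set Edg) ∩ dE D = ↑F ∩ dE D := by
      ext e
      rw [Finset.coe_inter, Set.mem_inter_iff, Set.mem_inter_iff, Set.mem_inter_iff]
      constructor
      · rintro ⟨⟨h1, _⟩, h3⟩
        exact ⟨h1, h3⟩
      · rintro ⟨h1, h2⟩
        exact ⟨⟨h1, Finset.mem_coe.mpr (mem_bD.mpr ⟨hF (Finset.mem_coe.mp h1), h2⟩)⟩, h2⟩
    rw [this]

theorem PD_ge {D : Set Vtx} {A : Set Edg → Prop} (hA : ∀ F G, F ⊆ G → A F → A G) (m : ℕ) :
    Pr P (bD D m) (fun F => A ↑F) ≤ PD D A := by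
  rw [← pr_bD]
  exact InfAux.lower (fun F => A (F ∩ dE D))
    (fun F G h hF => hA _ _ (Set.inter_subset_inter_left _ h) hF) m

theorem PD_le {D : Set Vtx} {A : Set Edg → Prop} (hA : ∀ F G, F ⊆ G → A F → A G)
    (hb : ∀ F, A F → ∃ m : ℕ, A (F ∩ ↑(boxE m))) (c : ℝ)
    (h : ∀ m : ℕ, Pr P (bD D m) (fun F => A ↑F) ≤ c) : PD D A ≤ c := by
  refine InfAux.upper (fun F => A (F ∩ dE D))
    (fun F G h hF => hA _ _ (Set.inter_subset_inter_left _ h) hF) ?_ c ?_
  · intro F hF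
    obtain ⟨m, hm⟩ := hb _ hF
    refine ⟨m, hA _ _ ?_ hm⟩
    rintro e ⟨⟨h1, h2⟩, h3⟩
    exact ⟨⟨h1, h3⟩, h2⟩
  · intro m
    rw [pr_bD]
    exact h m

theorem PD_nonneg (D : Set Vtx) (A : Set Edg → Prop) : 0 ≤ PD D A := measureReal_nonneg

theorem PD_mul_le {D : Set Vtx} {A B : Set Edg → Prop} (hA : ∀ F G, F ⊆ G → A F → A G)
    (hb : ∀ F, A F → ∃ m : ℕ, A (F ∩ ↑(boxE m))) (hB : ∀ F G, F ⊆ G → B F → B G) {c c' : ℝ}
    (hc : 0 < c) (hc' : 0 ≤ c') (m0 : ℕ)
    (h : ∀ m : ℕ, m0 ≤ m → c * Pr P (bD D m) (fun F => A ↑F) ≤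
      c' * Pr P (bD D m) (fun F => B ↑F)) : c * PD D A ≤ c' * PD D B := by
  have h1 : PD D A ≤ c' * PD D B / c := by
    apply PD_le hA hb
    intro m
    rw [le_div_iff₀ hc, mul_comm]
    calc c * Pr P (bD D m) (fun F => A ↑F) ≤ c * Pr P (bD D (m + m0)) (fun F => A ↑F) := by
          apply mul_le_mul_of_nonneg_left _ hc.le
          exact Pr_mono_set okP (bD_mono (by omega))
            (fun F G h _ hF => hA _ _ (by exact_mod_cast h) hF)
      _ ≤ c' * Pr P (bD D (m + m0)) (fun F => B ↑F) := h _ (by omega)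
      _ ≤ _ := mul_le_mul_of_nonneg_left (PD_ge hB _) hc'
  rw [le_div_iff₀ hc, mul_comm] at h1
  exact h1

/-- translation of the quadrant `x ≥ L, y ≥ 1` to the standard quadrant -/
def sh (L : ℤ) (v : Vtx) : Vtx := (v.1 - L, v.2 - 1)

theorem sh_eq (L : ℤ) (v : Vtx) : sh L v = (trl (-L) (-1)).ψ v := by
  obtain ⟨a, b⟩ := v
  rw [trl_ψ]
  rfl

theorem sh_inj (L : ℤ) : Function.Injective (sh L) := by
  intro u v h
  unfold sh at h
  have h1 := congrArg Prod.fst h
  have h2 := congrArg Prod.snd h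
  simp only at h1 h2
  exact Prod.ext (by omega) (by omega)

theorem sd_sh (L : ℤ) (u v : Vtx) : sd (sh L u) (sh L v) = sd u v := by
  unfold sd sh
  simp only
  omega

theorem Near_sh {L : ℤ} {x : Vtx} {X : Finset Vtx} {a : ℕ} (h : Near x X a) :
    Near (sh L x) (X.image (sh L)) a := by
  obtain ⟨⟨y, hy, hay⟩, hmin⟩ := h
  refine ⟨⟨sh L y, Finset.mem_image_of_mem _ hy, by rw [sd_sh]; exact hay⟩, ?_⟩
  rintro d ⟨u, hu, rfl⟩
  obtain ⟨v, hv, rfl⟩ := Finset.mem_image.mp hu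
  rw [sd_sh]
  exact hmin ⟨v, hv, rfl⟩

theorem Diam_sh {L : ℤ} {X : Finset Vtx} {a : ℕ} (h : Diam X a) : Diam (X.image (sh L)) a := by
  obtain ⟨⟨p, hp, r, hr, hD⟩, hmax⟩ := h
  refine ⟨⟨sh L p, Finset.mem_image_of_mem _ hp, sh L r, Finset.mem_image_of_mem _ hr,
    by rw [sd_sh]; exact hD⟩, ?_⟩
  rintro d ⟨u, hu, v, hv, rfl⟩
  obtain ⟨u', hu', rfl⟩ := Finset.mem_image.mp hu
  obtain ⟨v', hv', rfl⟩ := Finset.mem_image.mp hv
  rw [sd_sh]
  exact hmax ⟨u', hu', v', hv', rfl⟩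

theorem Cn_sh (L : ℤ) (X : Finset Vtx) (F : Finset Edg) :
    Cn (X.image (sh L)) (↑((trl (-L) (-1)).mp F)) ↔ Cn X (↑F) := by
  have key : ∀ u v : Vtx, Reach (↑((trl (-L) (-1)).mp F) : Set Edg) (sh L u) (sh L v) ↔
      Reach (↑F : Set Edg) u v := by
    intro u v
    rw [LSym.coe_mp, sh_eq, sh_eq, LSym.reach_iff]
  constructor
  · intro h u hu v hv
    exact (key u v).mp (h _ (Finset.mem_image_of_mem _ hu) _ (Finset.mem_image_of_mem _ hv))
  · intro h u hu v hv
    obtain ⟨u', hu', rfl⟩ := Finset.mem_image.mp hu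
    obtain ⟨v', hv', rfl⟩ := Finset.mem_image.mp hv
    exact (key u' v').mpr (h u' hu' v' hv')

theorem pr_sh (L : ℤ) (X : Finset Vtx) (S : Finset Edg) :
    Pr P ((trl (-L) (-1)).mp S) (fun F => Cn (X.image (sh L)) (↑F)) =
      Pr P S (fun F => Cn X (↑F)) := by
  change Pr (fun _ => (1 / 2 : ℝ)) _ _ = _
  rw [LSym.pr]
  apply Pr_congr
  intro F _
  exact Cn_sh L X F

/-- adding a point in the quadrant `x ≥ L, y ≥ 1` -/
theorem add_pointL {L : ℤ} {X : Finset Vtx} (hXV : ∀ u ∈ X, L ≤ u.1 ∧ 1 ≤ u.2) {x y : Vtx}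
    (hx : L ≤ x.1 ∧ 1 ≤ x.2) (hxX : x ∉ X) (hy : y ∈ X) {a D : ℕ} (hn : Near x X a)
    (hd : Diam X D) {S : Finset Edg} (hSQ : ∀ e ∈ S, L ≤ e.1 ∧ 1 ≤ e.2.1)
    (hS : qb (sh L x) (9 * a) ⊆ (trl (-L) (-1)).mp S) :
    ka * ((aq (sh L x) a * aq (sh L y) (max a (max D 1))) * Pr P S (fun F => Cn X (↑F))) ≤
      aq (sh L y) (max D 1) * Pr P S (fun F => Cn (insert x X) (↑F)) ∧
    ka * (aq (sh L y) (max D 1) * Pr P S (fun F => Cn (insert x X) (↑F))) ≤
      (aq (sh L x) a * aq (sh L y) (max a (max D 1))) * Pr P S (fun F => Cn X (↑F)) := by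
  have h := add_pointQ (X := X.image (sh L)) (x := sh L x) (y := sh L y) (a := a) (D := D)
    (S := (trl (-L) (-1)).mp S) ?_ ?_ ?_ (Finset.mem_image_of_mem _ hy) (Near_sh hn) (Diam_sh hd)
    ?_ hS
  · rw [← Finset.image_insert, pr_sh, pr_sh] at h
    exact h
  · intro u hu
    obtain ⟨v, hv, rfl⟩ := Finset.mem_image.mp hu
    have := hXV v hv
    unfold InV sh
    simp only
    omega
  · unfold InV sh
    simp only
    omega
  · intro hc
    obtain ⟨v, hv, hv'⟩ := Finset.mem_image.mp hc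
    exact hxX (sh_inj L hv' ▸ hv)
  · intro e he
    rw [LSym.mem_mp] at he
    have := hSQ _ he
    obtain ⟨p, q, b⟩ := e
    rw [trl_φs] at this
    simp only at this ⊢
    omega

/-- the profile for the half-plane -/
noncomputable def EH (s n : ℝ) : ℝ := n ^ (-(5 / 48 : ℝ)) * (min 1 (s / n)) ^ (11 / 48 : ℝ)

theorem E_eq_EH {s b n : ℝ} (hn : 0 < n) (hb : n ≤ b) : E s b n = EH s n := by
  unfold E EH
  rw [min_eq_left ((one_le_div hn).mpr hb), Real.one_rpow, mul_one]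

theorem E_pos {s b n : ℝ} (hn : 0 < n) (hs : 0 < s) (hb : 0 < b) : 0 < E s b n := by
  unfold E
  have h1 : 0 < min 1 (s / n) := lt_min one_pos (by positivity)
  have h2 : 0 < min 1 (b / n) := lt_min one_pos (by positivity)
  positivity

theorem EH_pos {s n : ℝ} (hn : 0 < n) (hs : 0 < s) : 0 < EH s n := by
  unfold EH
  have h1 : 0 < min 1 (s / n) := lt_min one_pos (by positivity)
  positivity

/-- the profile in the quadrant `x ≥ L, y ≥ 1` -/
noncomputable def EL (L : ℤ) (v : Vtx) (n : ℕ) : ℝ :=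
  E (min ((v.1 : ℝ) - L) ((v.2 : ℝ) - 1) + 1) (max ((v.1 : ℝ) - L) ((v.2 : ℝ) - 1) + 1) n

theorem aq_sh_cmp (hA : ArS) : ∃ K : ℝ, ∀ (L : ℤ) (v : Vtx), L ≤ v.1 ∧ 1 ≤ v.2 → ∀ n : ℕ, 1 ≤ n →
    Cmp K (aq (sh L v) n) (EL L v n) := by
  obtain ⟨K, h⟩ := aq_cmp hA
  refine ⟨K, fun L v hv n hn => ?_⟩
  have := h (sh L v) (by unfold InV sh; simp only; omega) n hn
  unfold EL
  unfold sh at this ⊢
  simp only at this ⊢
  push_cast at this
  exact this

/-- adding a point with explicit profiles, finite volume -/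
theorem add_pointE (hA : ArS) : ∃ c : ℝ, 0 < c ∧ ∀ (L : ℤ) (X : Finset Vtx),
    (∀ u ∈ X, L ≤ u.1 ∧ 1 ≤ u.2) → ∀ x y : Vtx, (L ≤ x.1 ∧ 1 ≤ x.2) → x ∉ X → y ∈ X →
    ∀ a D : ℕ, Near x X a → Diam X D → ∀ S : Finset Edg, (∀ e ∈ S, L ≤ e.1 ∧ 1 ≤ e.2.1) →
    qb (sh L x) (9 * a) ⊆ (trl (-L) (-1)).mp S →
    c * ((EL L x a * EL L y (max a (max D 1))) * Pr P S (fun F => Cn X (↑F))) ≤
      EL L y (max D 1) * Pr P S (fun F => Cn (insert x X) (↑F)) ∧
    c * (EL L y (max D 1) * Pr P S (fun F => Cn (insert x X) (↑F))) ≤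
      (EL L x a * EL L y (max a (max D 1))) * Pr P S (fun F => Cn X (↑F)) := by
  obtain ⟨K, h⟩ := aq_sh_cmp hA
  have hK : 1 ≤ K := (h 0 (1, 1) (by norm_num) 1 le_rfl).hk
  have hK0 : 0 < K := by linarith
  have ha0 := ka_pos
  refine ⟨ka / K ^ 3, by positivity, ?_⟩
  intro L X hXV x y hx hxX hy a D hn hd S hSQ hS
  have ha1 : 1 ≤ a := by
    obtain ⟨⟨y0, hy0, hay⟩, -⟩ := hn
    rw [hay]
    apply sd_pos
    rintro rfl
    exact hxX hy0
  obtain ⟨i1, i2⟩ := add_pointL hXV hx hxX hy hn hd hSQ hS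
  have c1 := h L x hx a ha1
  have c2 := h L y (hXV y hy) (max a (max D 1)) (by omega)
  have c3 := h L y (hXV y hy) (max D 1) (by omega)
  have pX : 0 ≤ Pr P S (fun F => Cn X (↑F)) := Pr_nonneg okP _ _
  have pI : 0 ≤ Pr P S (fun F => Cn (insert x X) (↑F)) := Pr_nonneg okP _ _
  generalize Pr P S (fun F => Cn (insert x X) (↑F)) = pI' at *
  generalize Pr P S (fun F => Cn X (↑F)) = pX' at *
  generalize aq (sh L x) a = A at *
  generalize aq (sh L y) (max a (max D 1)) = B at *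
  generalize aq (sh L y) (max D 1) = C at *
  generalize EL L x a = A' at *
  generalize EL L y (max a (max D 1)) = B' at *
  generalize EL L y (max D 1) = C' at *
  obtain ⟨-, A0, A0', A1, A2⟩ := c1
  obtain ⟨-, B0, B0', B1, B2⟩ := c2
  obtain ⟨-, C0, C0', C1, C2⟩ := c3
  have hAB : A' * B' ≤ K ^ 2 * (A * B) := by
    calc A' * B' ≤ (K * A) * (K * B) := mul_le_mul A2 B2 B0'.le (by positivity)
      _ = _ := by ring
  have hAB' : A * B ≤ K ^ 2 * (A' * B') := by
    calc A * B ≤ (K * A') * (K * B') := mul_le_mul A1 B1 B0.le (by positivity)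
      _ = _ := by ring
  constructor
  · rw [div_mul_eq_mul_div, div_le_iff₀ (by positivity)]
    calc ka * (A' * B' * pX') ≤ ka * (K ^ 2 * (A * B) * pX') := by
          apply mul_le_mul_of_nonneg_left _ ha0.le
          exact mul_le_mul_of_nonneg_right hAB pX
      _ = K ^ 2 * (ka * ((A * B) * pX')) := by ring
      _ ≤ K ^ 2 * (C * pI') := mul_le_mul_of_nonneg_left i1 (by positivity)
      _ ≤ K ^ 2 * ((K * C') * pI') := by
          apply mul_le_mul_of_nonneg_left _ (by positivity)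
          exact mul_le_mul_of_nonneg_right C1 pI
      _ = C' * pI' * K ^ 3 := by ring
  · rw [div_mul_eq_mul_div, div_le_iff₀ (by positivity)]
    calc ka * (C' * pI') ≤ ka * ((K * C) * pI') := by
          apply mul_le_mul_of_nonneg_left _ ha0.le
          exact mul_le_mul_of_nonneg_right C2 pI
      _ = K * (ka * (C * pI')) := by ring
      _ ≤ K * ((A * B) * pX') := mul_le_mul_of_nonneg_left i2 hK0.le
      _ ≤ K * ((K ^ 2 * (A' * B')) * pX') := by
          apply mul_le_mul_of_nonneg_left _ hK0.le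
          exact mul_le_mul_of_nonneg_right hAB' pX
      _ = A' * B' * pX' * K ^ 3 := by ring

/-! ### the domains -/

/-- the quadrant `x ≥ 1, y ≥ 1` -/
def DQ : Set Vtx := {v | 1 ≤ v.1 ∧ 1 ≤ v.2}

/-- the half-plane `y ≥ 1` -/
def DH : Set Vtx := {v | 1 ≤ v.2}

/-- profile in the quadrant -/
noncomputable def eQ (v : Vtx) (n : ℕ) : ℝ := E (min (v.1 : ℝ) v.2) (max (v.1 : ℝ) v.2) n

/-- profile in the half-plane -/
noncomputable def eH (v : Vtx) (n : ℕ) : ℝ := EH v.2 n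

theorem EL_one (v : Vtx) (n : ℕ) : EL 1 v n = eQ v n := by
  unfold EL eQ
  congr 1
  · push_cast
    rw [min_sub_sub_right, sub_add_cancel]
  · push_cast
    rw [max_sub_sub_right, sub_add_cancel]

theorem EL_half {m : ℕ} {v : Vtx} {n : ℕ} (hn : 1 ≤ n) (h1 : v.2 - 1 ≤ v.1 + m)
    (h2 : (n : ℤ) ≤ v.1 + m + 1) : EL (-(m : ℤ)) v n = eH v n := by
  unfold EL eH
  have e1 : (v.2 : ℝ) - 1 ≤ (v.1 : ℝ) - ((-(m : ℤ) : ℤ) : ℝ) := by
    push_cast
    have : ((v.2 - 1 : ℤ) : ℝ) ≤ ((v.1 + m : ℤ) : ℝ) := by exact_mod_cast h1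
    push_cast at this
    linarith
  have e2 : (n : ℝ) ≤ (v.1 : ℝ) - ((-(m : ℤ) : ℤ) : ℝ) + 1 := by
    push_cast
    have : ((n : ℤ) : ℝ) ≤ ((v.1 + m + 1 : ℤ) : ℝ) := by exact_mod_cast h2
    push_cast at this
    linarith
  rw [min_eq_right e1, max_eq_left e1, sub_add_cancel]
  exact E_eq_EH (by exact_mod_cast hn) e2

theorem Cn_mono' {X : Finset Vtx} : ∀ F G : Set Edg, F ⊆ G → Cn X F → Cn X G :=
  fun _ _ h hF => hF.mono h

theorem Cn_box' {X : Finset Vtx} : ∀ F : Set Edg, Cn X F → ∃ m : ℕ, Cn X (F ∩ ↑(boxE m)) := by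
  classical
  intro F h
  have h1 : ∀ p : Vtx × Vtx, ∃ m : ℕ, p ∈ X ×ˢ X → Reach (F ∩ ↑(boxE m)) p.1 p.2 := by
    intro p
    by_cases hp : p ∈ X ×ˢ X
    · rw [Finset.mem_product] at hp
      obtain ⟨m, hm⟩ := InfAux.reach_box (h p.1 hp.1 p.2 hp.2)
      exact ⟨m, fun _ => hm⟩
    · exact ⟨0, fun h => absurd h hp⟩
  choose m hm using h1
  refine ⟨(X ×ˢ X).sup m, fun u hu v hv => ?_⟩
  have hp : (u, v) ∈ X ×ˢ X := Finset.mem_product.mpr ⟨hu, hv⟩
  exact (hm (u, v) hp).mono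
    (Set.inter_subset_inter_right _ (InfAux.boxE_coe_mono (Finset.le_sup hp)))

/-- a domain in which points can be added -/
def Good (D : Set Vtx) (e : Vtx → ℕ → ℝ) (c : ℝ) : Prop :=
  0 < c ∧ (∀ v ∈ D, ∀ n : ℕ, 1 ≤ n → 0 < e v n) ∧ ∀ (X : Finset Vtx) (x y : Vtx) (a d : ℕ),
    (∀ u ∈ X, u ∈ D) → x ∈ D → x ∉ X → y ∈ X → Near x X a → Diam X d →
    c * ((e x a * e y (max a (max d 1))) * PD D (Cn X)) ≤ e y (max d 1) * PD D (Cn (insert x X)) ∧
    c * (e y (max d 1) * PD D (Cn (insert x X))) ≤ (e x a * e y (max a (max d 1))) * PD D (Cn X)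

theorem good_of {D : Set Vtx} {e : Vtx → ℕ → ℝ} {c : ℝ} (hc : 0 < c)
    (he : ∀ v ∈ D, ∀ n : ℕ, 1 ≤ n → 0 < e v n)
    (h : ∀ (X : Finset Vtx) (x y : Vtx) (a d : ℕ), (∀ u ∈ X, u ∈ D) → x ∈ D → x ∉ X → y ∈ X →
      Near x X a → Diam X d → ∃ m0 : ℕ, ∀ m : ℕ, m0 ≤ m →
      c * ((e x a * e y (max a (max d 1))) * Pr P (bD D m) (fun F => Cn X (↑F))) ≤
        e y (max d 1) * Pr P (bD D m) (fun F => Cn (insert x X) (↑F)) ∧
      c * (e y (max d 1) * Pr P (bD D m) (fun F => Cn (insert x X) (↑F))) ≤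
        (e x a * e y (max a (max d 1))) * Pr P (bD D m) (fun F => Cn X (↑F))) : Good D e c := by
  refine ⟨hc, he, fun X x y a d hX hx hxX hy hn hd => ?_⟩
  obtain ⟨m0, h0⟩ := h X x y a d hX hx hxX hy hn hd
  have ha1 : 1 ≤ a := by
    obtain ⟨⟨y0, hy0, hay⟩, -⟩ := hn
    rw [hay]
    apply sd_pos
    rintro rfl
    exact hxX hy0
  have e1 := he x hx a ha1
  have e2 := he y (hX y hy) (max a (max d 1)) (by omega)
  have e3 := he y (hX y hy) (max d 1) (by omega)
  constructor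
  · rw [← mul_assoc]
    refine PD_mul_le Cn_mono' Cn_box' Cn_mono' (by positivity) e3.le m0 (fun m hm => ?_)
    rw [mul_assoc]
    exact (h0 m hm).1
  · rw [← mul_assoc]
    refine PD_mul_le Cn_mono' Cn_box' Cn_mono' (by positivity) (by positivity) m0 (fun m hm => ?_)
    rw [mul_assoc]
    exact (h0 m hm).2

theorem good_Q (hA : ArS) : ∃ c : ℝ, Good DQ eQ c := by
  obtain ⟨c, hc, h⟩ := add_pointE hA
  refine ⟨c, good_of hc ?_ ?_⟩
  · intro v hv n hn
    have h1 : (1 : ℝ) ≤ v.1 := by exact_mod_cast hv.1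
    have h2 : (1 : ℝ) ≤ v.2 := by exact_mod_cast hv.2
    exact E_pos (by exact_mod_cast hn) (lt_min (by linarith) (by linarith))
      (lt_max_of_lt_left (by linarith))
  · intro X x y a d hX hx hxX hy hn hd
    refine ⟨x.1.natAbs + x.2.natAbs + 9 * a + 1, fun m hm => ?_⟩
    simp only [← EL_one]
    refine h 1 X (fun u hu => hX u hu) x y hx hxX hy a d hn hd (bD DQ m) ?_ ?_
    · intro e he
      exact (mem_bD.mp he).2.1
    · intro e he
      rw [LSym.mem_mp, mem_bD]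
      obtain ⟨p, q, b⟩ := e
      rw [trl_φs]
      unfold sh qb at he
      unfold DQ at hx
      obtain ⟨hx1, hx2⟩ := hx
      cases b
      · rw [mem_RE_false] at he
        simp only at he
        refine ⟨?_, ?_⟩
        · unfold boxE
          rw [mem_RE_false]
          omega
        · refine ⟨?_, ?_⟩
          · show 1 ≤ _ ∧ 1 ≤ _
            rw [src_mk]
            simp only
            omega
          · show 1 ≤ _ ∧ 1 ≤ _
            rw [tgt_false]
            simp only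
            omega
      · rw [mem_RE_true] at he
        simp only at he
        refine ⟨?_, ?_⟩
        · unfold boxE
          rw [mem_RE_true]
          omega
        · refine ⟨?_, ?_⟩
          · show 1 ≤ _ ∧ 1 ≤ _
            rw [src_mk]
            simp only
            omega
          · show 1 ≤ _ ∧ 1 ≤ _
            rw [tgt_true]
            simp only
            omega

theorem good_H (hA : ArS) : ∃ c : ℝ, Good DH eH c := by
  obtain ⟨c, hc, h⟩ := add_pointE hA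
  refine ⟨c, good_of hc ?_ ?_⟩
  · intro v hv n hn
    have h2 : (1 : ℝ) ≤ v.2 := by exact_mod_cast hv
    exact EH_pos (by exact_mod_cast hn) (by linarith)
  · intro X x y a d hX hx hxX hy hn hd
    have ha1 : 1 ≤ a := by
      obtain ⟨⟨y0, hy0, hay⟩, -⟩ := hn
      rw [hay]
      apply sd_pos
      rintro rfl
      exact hxX hy0
    refine ⟨x.1.natAbs + x.2.natAbs + y.1.natAbs + y.2.natAbs + 9 * a + d + 1 +
      X.sup (fun v => v.1.natAbs), fun m hm => ?_⟩
    have hx2 : 1 ≤ x.2 := hx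
    have hy2 : 1 ≤ y.2 := hX y hy
    rw [← EL_half (m := m) (v := x) (n := a) ha1 (by omega) (by omega),
      ← EL_half (m := m) (v := y) (n := max a (max d 1)) (by omega) (by omega) (by omega),
      ← EL_half (m := m) (v := y) (n := max d 1) (by omega) (by omega) (by omega)]
    refine h (-(m : ℤ)) X (fun u hu => ⟨?_, hX u hu⟩) x y ⟨by omega, hx⟩ hxX hy a d hn hd
      (bD DH m) ?_ ?_
    · have : u.1.natAbs ≤ X.sup (fun v => v.1.natAbs) :=
        Finset.le_sup (f := fun v : Vtx => v.1.natAbs) hu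
      omega
    · intro e he
      obtain ⟨h1, h2⟩ := mem_bD.mp he
      obtain ⟨p, q, b⟩ := e
      have h3 : 1 ≤ q := h2.1
      unfold boxE at h1
      cases b
      · rw [mem_RE_false] at h1
        simp only
        omega
      · rw [mem_RE_true] at h1
        simp only
        omega
    · intro e he
      rw [LSym.mem_mp, mem_bD]
      obtain ⟨p, q, b⟩ := e
      rw [trl_φs]
      unfold sh qb at he
      cases b
      · rw [mem_RE_false] at he
        simp only at he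
        refine ⟨?_, ?_⟩
        · unfold boxE
          rw [mem_RE_false]
          omega
        · refine ⟨?_, ?_⟩
          · show (1 : ℤ) ≤ (src _).2
            rw [src_mk]
            simp only
            omega
          · show (1 : ℤ) ≤ (tgt _).2
            rw [tgt_false]
            simp only
            omega
      · rw [mem_RE_true] at he
        simp only at he
        refine ⟨?_, ?_⟩
        · unfold boxE
          rw [mem_RE_true]
          omega
        · refine ⟨?_, ?_⟩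
          · show (1 : ℤ) ≤ (src _).2
            rw [src_mk]
            simp only
            omega
          · show (1 : ℤ) ≤ (tgt _).2
            rw [tgt_true]
            simp only
            omega

end TH976
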