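import Pool.Agent.TH976.Reg

/-!
The `k`-point connection functions of the half-plane and of the quadrant, up to constants.
-/

set_option autoImplicit false

namespace TH976
open Finset H974 Pool.Agent.H160R2.CV H362P MeasureTheory
open Pool.Agent.H160R2.CV.Quad Pool.Agent.H389R2.CD

/-- the vertex as a complex number -/
noncomputable def cx (v : Vtx) : ℂ := ⟨(v.1 : ℝ), (v.2 : ℝ)⟩

/-- two-point function of the half-plane -/
noncomputable def gH (z w : ℂ) : ℝ :=
  ‖z - w‖ ^ (-(5 / 24) : ℝ) * (1 + ‖z - w‖ ^ 2 / (z.im * w.im)) ^ (-(11 / 48) : ℝ)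

/-- two-point function of the quadrant -/
noncomputable def gQ (z w : ℂ) : ℝ :=
  ‖2 * z‖ ^ (5 / 48 : ℝ) * ‖2 * w‖ ^ (5 / 48 : ℝ) * gH (z ^ 2) (w ^ 2)

/-- the `k`-point function built from a two-point function -/
noncomputable def kFun (g : ℂ → ℂ → ℝ) (z : ℕ → ℂ) (k : ℕ) : ℝ :=
  g (z 0) (z 1) * ∏ j ∈ Finset.Ico 2 k, ⨆ p : {p : Fin j × Fin j // p.1 < p.2},
    Real.sqrt (g (z j) (z p.1.1) * g (z j) (z p.1.2) / g (z p.1.1) (z p.1.2))

theorem norm_cx (u v : Vtx) : (sd u v : ℝ) ≤ ‖cx u - cx v‖ ∧ ‖cx u - cx v‖ ^ 2 ≤ 2 * (sd u v : ℝ) ^ 2 := by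
  have h1 : ‖cx u - cx v‖ ^ 2 = ((u.1 : ℝ) - v.1) ^ 2 + ((u.2 : ℝ) - v.2) ^ 2 := by
    rw [← Complex.normSq_eq_norm_sq, Complex.normSq_apply]
    unfold cx
    simp only [Complex.sub_re, Complex.sub_im]
    ring
  have hsd : (sd u v : ℝ) = max |(u.1 : ℝ) - v.1| |(u.2 : ℝ) - v.2| := by
    unfold sd
    rw [Nat.cast_max, Nat.cast_natAbs, Nat.cast_natAbs]
    push_cast
    rfl
  have a0 := abs_nonneg ((u.1 : ℝ) - v.1)
  have b0 := abs_nonneg ((u.2 : ℝ) - v.2)
  have a2 := sq_abs ((u.1 : ℝ) - v.1)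
  have b2 := sq_abs ((u.2 : ℝ) - v.2)
  rw [hsd]
  rw [← a2, ← b2] at h1
  generalize |(u.1 : ℝ) - v.1| = a at *
  generalize |(u.2 : ℝ) - v.2| = b at *
  have n0 := norm_nonneg (cx u - cx v)
  generalize ‖cx u - cx v‖ = N at *
  constructor
  · apply max_le
    · nlinarith [sq_nonneg b]
    · nlinarith [sq_nonneg a]
  · rw [h1]
    rcases le_total a b with h | h
    · rw [max_eq_right h]
      nlinarith
    · rw [max_eq_left h]
      nlinarith

/-- the real comparison behind the two-point function of the half-plane -/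
theorem min_cmp {s t n l : ℝ} (hs : 0 < s) (ht : 0 < t) (hn : 0 < n) (hst : |s - t| ≤ n)
    (h1 : n ≤ l) (h2 : l ^ 2 ≤ 2 * n ^ 2) :
    Cmp 3 (min 1 (s / n) * min 1 (t / n)) (1 + l ^ 2 / (s * t))⁻¹ := by
  have hl : 0 < l := by linarith
  obtain ⟨h3, h4⟩ := abs_le.mp hst
  have e1 : (1 + l ^ 2 / (s * t))⁻¹ = s * t / (s * t + l ^ 2) := by
    field_simp
  rw [e1]
  have e2 : min 1 (s / n) * min 1 (t / n) = min n s * min n t / n ^ 2 := by
    have a1 : min 1 (s / n) = min n s / n := by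
      rw [← min_div_div_right hn.le, div_self hn.ne']
    have a2 : min 1 (t / n) = min n t / n := by
      rw [← min_div_div_right hn.le, div_self hn.ne']
    rw [a1, a2]
    field_simp
  rw [e2]
  have p1 : 0 < min n s := lt_min hn hs
  have p2 : 0 < min n t := lt_min hn ht
  refine ⟨by norm_num, by positivity, by positivity, ?_, ?_⟩
  · rw [← mul_div_assoc, div_le_div_iff₀ (by positivity) (by positivity)]
    have q1 : min n s * min n t ≤ s * t :=
      mul_le_mul (min_le_right _ _) (min_le_right _ _) p2.le hs.le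
    have q2 : min n s * min n t ≤ n ^ 2 := by
      rw [pow_two]
      exact mul_le_mul (min_le_left _ _) (min_le_left _ _) p2.le hn.le
    have q3 : 0 < min n s * min n t := mul_pos p1 p2
    generalize min n s * min n t = M at *
    nlinarith [mul_le_mul_of_nonneg_left h2 q3.le, mul_pos hs ht, sq_nonneg n,
      mul_le_mul_of_nonneg_right q1 (sq_nonneg n), mul_le_mul_of_nonneg_right q2 (mul_pos hs ht).le]
  · rw [← mul_div_assoc, div_le_div_iff₀ (by positivity) (by positivity)]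
    have q0 : n ^ 2 ≤ l ^ 2 := by nlinarith
    rcases le_total n s with h5 | h5 <;> rcases le_total n t with h6 | h6
    · rw [min_eq_left h5, min_eq_left h6]
      nlinarith [mul_pos hs ht, sq_nonneg n, sq_nonneg l, mul_pos (mul_pos hs ht) (mul_pos hn hn),
        mul_pos (mul_pos hl hl) (mul_pos hn hn)]
    · rw [min_eq_left h5, min_eq_right h6]
      have h7 : s ≤ 2 * n := by linarith
      have q4 : s * t * n ^ 2 ≤ 2 * n * t * n ^ 2 := by
        apply mul_le_mul_of_nonneg_right _ (sq_nonneg n)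
        exact mul_le_mul_of_nonneg_right h7 ht.le
      have q5 : 2 * n * t * n ^ 2 ≤ 3 * (n * t) * l ^ 2 := by
        have : n * t * n ^ 2 ≤ n * t * l ^ 2 := mul_le_mul_of_nonneg_left q0 (mul_pos hn ht).le
        nlinarith [mul_pos (mul_pos hn ht) (mul_pos hl hl)]
      have q6 : 0 ≤ 3 * (n * t) * (s * t) := by positivity
      nlinarith
    · rw [min_eq_right h5, min_eq_left h6]
      have h7 : t ≤ 2 * n := by linarith
      have q4 : s * t * n ^ 2 ≤ s * (2 * n) * n ^ 2 := by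
        apply mul_le_mul_of_nonneg_right _ (sq_nonneg n)
        exact mul_le_mul_of_nonneg_left h7 hs.le
      have q5 : s * (2 * n) * n ^ 2 ≤ 3 * (s * n) * l ^ 2 := by
        have : s * n * n ^ 2 ≤ s * n * l ^ 2 := mul_le_mul_of_nonneg_left q0 (mul_pos hs hn).le
        nlinarith [mul_pos (mul_pos hs hn) (mul_pos hl hl)]
      have q6 : 0 ≤ 3 * (s * n) * (s * t) := by positivity
      nlinarith
    · rw [min_eq_right h5, min_eq_right h6]
      have q4 : s * t * n ^ 2 ≤ s * t * l ^ 2 := mul_le_mul_of_nonneg_left q0 (mul_pos hs ht).le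
      have q6 : 0 ≤ 3 * (s * t) * (s * t) := by positivity
      have q7 : 0 ≤ (s * t) * l ^ 2 := by positivity
      nlinarith

/-- the two-point function of the half-plane -/
theorem two_H {x y : Vtx} (hx : x ∈ DH) (hy : y ∈ DH) (hxy : x ≠ y) :
    Cmp 6 (eH x (sd x y) * eH y (sd x y)) (gH (cx x) (cx y)) := by
  have hx' : (1 : ℤ) ≤ x.2 := hx
  have hy' : (1 : ℤ) ≤ y.2 := hy
  have n1 := sd_pos hxy
  obtain ⟨l1, l2⟩ := norm_cx x y
  have hs : (0 : ℝ) < x.2 := by
    have : (1 : ℝ) ≤ x.2 := by exact_mod_cast hx'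
    linarith
  have ht : (0 : ℝ) < y.2 := by
    have : (1 : ℝ) ≤ y.2 := by exact_mod_cast hy'
    linarith
  have hn : (0 : ℝ) < (sd x y : ℕ) := by exact_mod_cast n1
  have hst : |(x.2 : ℝ) - y.2| ≤ (sd x y : ℕ) := by
    have h1 : ((x.2 - y.2).natAbs : ℤ) ≤ (sd x y : ℕ) := by
      unfold sd
      omega
    have h2 : |(x.2 : ℝ) - y.2| = (((x.2 - y.2).natAbs : ℕ) : ℝ) := by
      rw [Nat.cast_natAbs]
      push_cast
      rfl
    rw [h2]
    exact_mod_cast h1
  have key := min_cmp hs ht hn hst l1 l2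
  unfold eH EH gH
  have e1 : (cx x).im = x.2 := rfl
  have e2 : (cx y).im = y.2 := rfl
  rw [e1, e2]
  have hl : 0 < ‖cx x - cx y‖ := by linarith
  generalize (x.2 : ℝ) = s at *
  generalize (y.2 : ℝ) = t at *
  generalize ((sd x y : ℕ) : ℝ) = n at *
  generalize ‖cx x - cx y‖ = l at *
  have m1 : 0 < min 1 (s / n) := lt_min one_pos (by positivity)
  have m2 : 0 < min 1 (t / n) := lt_min one_pos (by positivity)
  have e3 : n ^ (-(5 / 48 : ℝ)) * (min 1 (s / n)) ^ (11 / 48 : ℝ) *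
      (n ^ (-(5 / 48 : ℝ)) * (min 1 (t / n)) ^ (11 / 48 : ℝ)) =
      n ^ (-(5 / 24 : ℝ)) * (min 1 (s / n) * min 1 (t / n)) ^ (11 / 48 : ℝ) := by
    rw [Real.mul_rpow m1.le m2.le, show (-(5 / 24 : ℝ)) = -(5 / 48) + -(5 / 48) by norm_num,
      Real.rpow_add hn]
    ring
  have e4 : (1 + l ^ 2 / (s * t)) ^ (-(11 / 48) : ℝ) = ((1 + l ^ 2 / (s * t))⁻¹) ^ (11 / 48 : ℝ) := by
    rw [Real.rpow_neg (by positivity), Real.inv_rpow (by positivity)]
  rw [e3, e4]
  have c1 : Cmp 2 n l := by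
    refine ⟨by norm_num, hn, hl, by linarith, ?_⟩
    by_contra hc
    push Not at hc
    nlinarith
  have c2 := (c1.rpow_neg (a := 5 / 24) (by norm_num) (by norm_num)).mul
    (key.rpow (a := 11 / 48) (by norm_num) (by norm_num))
  exact c2.weaken (by norm_num)

theorem gH_symm (z w : ℂ) : gH z w = gH w z := by
  unfold gH
  rw [norm_sub_rev, mul_comm z.im]

theorem cx_sqr (v : Vtx) : cx (sqr v) = (cx v) ^ 2 := by
  unfold cx sqr
  apply Complex.ext
  · simp only [pow_two, Complex.mul_re]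
    push_cast
    ring
  · simp only [pow_two, Complex.mul_im]
    push_cast
    ring

theorem Jf_eq (v : Vtx) : Jf v = ‖2 * cx v‖ ^ (5 / 48 : ℝ) := by
  unfold Jf cx
  congr 3
  apply Complex.ext
  · simp
  · simp

/-- the two-point function of the quadrant -/
theorem two_Q (hA : ArS) : ∃ K : ℝ, ∀ x ∈ DQ, ∀ y ∈ DQ, x ≠ y →
    Cmp K (eQ x (sd x y) * eQ y (sd x y)) (gQ (cx x) (cx y)) := by
  obtain ⟨c1, g1⟩ := good_Q hA
  obtain ⟨c2, g2⟩ := good_H hA
  obtain ⟨K0, h0⟩ := cov_two hA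
  refine ⟨(1 + c1⁻¹) * K0 * (1 * ((1 + c2⁻¹) * 6)), fun x hx y hy hxy => ?_⟩
  have hne : sqr x ≠ sqr y := fun h => hxy (sqr_inj hx hy h)
  have t1 := g1.two (fun v hv => e_one hv) hx hy hxy
  have t2 := g2.two (fun v hv => eH_one hv) (sqr_mem hx) (sqr_mem hy) hne
  have t3 := h0 x hx y hy hxy
  have t4 := two_H (sqr_mem hx) (sqr_mem hy) hne
  have j1 := (Jf_cmp hx).hx
  have j2 := (Jf_cmp hy).hx
  unfold gQ
  rw [← Jf_eq, ← Jf_eq, ← cx_sqr, ← cx_sqr]
  have t5 := (t1.symm.trans t3).trans ((Cmp.refl (mul_pos j1 j2)).mul (t2.trans t4))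
  exact t5


/-- the expression of `factor` -/
noncomputable def Sf (e : Vtx → ℕ → ℝ) (x u v : Vtx) : ℝ :=
  Real.sqrt ((e x (sd x u) * e u (sd x u)) * (e x (sd x v) * e v (sd x v)) /
    (e u (sd u v) * e v (sd u v)))

theorem Sf_symm (e : Vtx → ℕ → ℝ) (x u v : Vtx) : Sf e x u v = Sf e x v u := by
  unfold Sf
  rw [sd_comm v u]
  congr 1
  ring

/-- the profile of `D` gives the two-point function `g` -/
def TwoP (D : Set Vtx) (e : Vtx → ℕ → ℝ) (g : ℂ → ℂ → ℝ) (K : ℝ) : Prop :=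
  ∀ x ∈ D, ∀ y ∈ D, x ≠ y → Cmp K (e x (sd x y) * e y (sd x y)) (g (cx x) (cx y))

theorem TwoP.sqrt {D : Set Vtx} {e : Vtx → ℕ → ℝ} {g : ℂ → ℂ → ℝ} {K : ℝ} (h : TwoP D e g K)
    {x u v : Vtx} (hx : x ∈ D) (hu : u ∈ D) (hv : v ∈ D) (h1 : x ≠ u) (h2 : x ≠ v) (h3 : u ≠ v) :
    Cmp (K * K * K) (Sf e x u v)
      (Real.sqrt (g (cx x) (cx u) * g (cx x) (cx v) / g (cx u) (cx v))) := by
  unfold Sf
  rw [Real.sqrt_eq_rpow, Real.sqrt_eq_rpow]
  exact (((h x hx u hu h1).mul (h x hx v hv h2)).div (h u hu v hv h3)).rpow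
    (by norm_num) (by norm_num)

/-- **The `k`-point functions.** -/
theorem kpoint {D : Set Vtx} {e : Vtx → ℕ → ℝ} {c k K : ℝ} {g : ℂ → ℂ → ℝ} (gd : Good D e c)
    (h1 : ∀ v ∈ D, e v 1 = 1) (hr : Reg D e k) (hg : TwoP D e g K) (hK : 1 ≤ K) :
    ∃ C : ℝ, 1 ≤ C ∧ ∀ (n : ℕ) (x : ℕ → Vtx), 2 ≤ n → (∀ i < n, x i ∈ D) →
      (∀ i < n, ∀ j < n, i ≠ j → x i ≠ x j) →
      Cmp (C ^ n) (PD D (Cn ((Finset.range n).image x))) (kFun g (fun i => cx (x i)) n) := by
  have hc : 0 < c⁻¹ := inv_pos.mpr gd.1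
  have hk := hr.hk
  have k0 : 0 < k := by linarith
  have K0 : 0 < K := by linarith
  set C1 : ℝ := k ^ 12 * (1 + c⁻¹) * (K * K * K) with hC1
  have hK3 : 1 ≤ K * K * K := Cmp.one_le_mul' (Cmp.one_le_mul' hK hK) hK
  have hk12 : 1 ≤ k ^ 12 := one_le_pow₀ hk
  have hC1' : 1 ≤ C1 := Cmp.one_le_mul' (Cmp.one_le_mul' hk12 (by linarith)) hK3
  have hC10 : 0 < C1 := by linarith
  refine ⟨C1, hC1', ?_⟩
  intro n x hn
  induction n, hn using Nat.le_induction with
  | base =>
    intro hD hd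
    have x0 := hD 0 (by norm_num)
    have x1 := hD 1 (by norm_num)
    have h01 := hd 0 (by norm_num) 1 (by norm_num) (by norm_num)
    have t1 := (gd.two h1 x0 x1 h01).trans (hg _ x0 _ x1 h01)
    have e1 : (Finset.range 2).image x = {x 0, x 1} := by
      ext v
      simp only [Finset.mem_image, Finset.mem_range, Finset.mem_insert, Finset.mem_singleton]
      constructor
      · rintro ⟨i, hi, rfl⟩
        interval_cases i
        · left; rfl
        · right; rfl
      · rintro (rfl | rfl)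
        · exact ⟨0, by norm_num, rfl⟩
        · exact ⟨1, by norm_num, rfl⟩
    have e2 : kFun g (fun i => cx (x i)) 2 = g (cx (x 0)) (cx (x 1)) := by
      unfold kFun
      rw [Finset.Ico_self, Finset.prod_empty, mul_one]
    rw [e1, e2]
    refine t1.weaken ?_
    have q1 : (1 + c⁻¹) * K ≤ C1 := by
      calc (1 + c⁻¹) * K = 1 * ((1 + c⁻¹) * K) * 1 := by ring
        _ ≤ k ^ 12 * ((1 + c⁻¹) * K) * (K * K) := by
            apply mul_le_mul _ (Cmp.one_le_mul' hK hK) (by norm_num) (by positivity)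
            exact mul_le_mul_of_nonneg_right hk12 (by positivity)
        _ = C1 := by rw [hC1]; ring
    calc (1 + c⁻¹) * K ≤ C1 := q1
      _ = C1 * 1 := (mul_one _).symm
      _ ≤ C1 * C1 := mul_le_mul_of_nonneg_left hC1' hC10.le
      _ = C1 ^ 2 := by ring
  | succ n hn ih =>
    intro hD hd
    have ih' := ih (fun i hi => hD i (by omega)) (fun i hi j hj hij => hd i (by omega) j (by omega) hij)
    set X : Finset Vtx := (Finset.range n).image x with hX
    have hXD : ∀ u ∈ X, u ∈ D := by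
      intro u hu
      obtain ⟨i, hi, rfl⟩ := Finset.mem_image.mp hu
      exact hD i (by rw [Finset.mem_range] at hi; omega)
    have hcard : X.card = n := by
      rw [hX, Finset.card_image_of_injOn, Finset.card_range]
      intro i hi j hj hij
      by_contra hne
      rw [Finset.mem_coe, Finset.mem_range] at hi hj
      exact hd i (by omega) j (by omega) hne hij
    have hxX : x n ∉ X := by
      intro hm
      obtain ⟨i, hi, hi'⟩ := Finset.mem_image.mp hm
      rw [Finset.mem_range] at hi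
      exact hd i (by omega) n (by omega) (by omega) hi'
    have e1 : (Finset.range (n + 1)).image x = insert (x n) X := by
      rw [Finset.range_add_one, Finset.image_insert]
    have hxn := hD n (by omega)
    obtain ⟨f1, u, hu, v, hv, huv, f2⟩ := factor gd hr hXD (by omega) hxn hxX
    rw [e1]
    have e2 : kFun g (fun i => cx (x i)) (n + 1) = kFun g (fun i => cx (x i)) n *
        ⨆ p : {p : Fin n × Fin n // p.1 < p.2},
        Real.sqrt (g (cx (x n)) (cx (x p.1.1)) * g (cx (x n)) (cx (x p.1.2)) /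
          g (cx (x p.1.1)) (cx (x p.1.2))) := by
      unfold kFun
      rw [Finset.prod_Ico_succ_top hn, mul_assoc]
    rw [e2]
    set S : ℝ := ⨆ p : {p : Fin n × Fin n // p.1 < p.2},
        Real.sqrt (g (cx (x n)) (cx (x p.1.1)) * g (cx (x n)) (cx (x p.1.2)) /
          g (cx (x p.1.1)) (cx (x p.1.2))) with hS
    have hb : BddAbove (Set.range (fun p : {p : Fin n × Fin n // p.1 < p.2} =>
        Real.sqrt (g (cx (x n)) (cx (x p.1.1)) * g (cx (x n)) (cx (x p.1.2)) /
          g (cx (x p.1.1)) (cx (x p.1.2))))) := (Set.finite_range _).bddAbove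
    have pX := ih'.hx
    -- comparison of one term
    have T : ∀ i j : ℕ, i < n → j < n → i ≠ j → Cmp (K * K * K) (Sf e (x n) (x i) (x j))
        (Real.sqrt (g (cx (x n)) (cx (x i)) * g (cx (x n)) (cx (x j)) /
          g (cx (x i)) (cx (x j)))) := by
      intro i j hi hj hij
      exact hg.sqrt hxn (hD i (by omega)) (hD j (by omega))
        (hd n (by omega) i (by omega) (by omega)) (hd n (by omega) j (by omega) (by omega))
        (hd i (by omega) j (by omega) hij)
    have : Nonempty {p : Fin n × Fin n // p.1 < p.2} :=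
      ⟨⟨(⟨0, by omega⟩, ⟨1, by omega⟩), by
        show (⟨0, _⟩ : Fin n) < ⟨1, _⟩
        rw [Fin.mk_lt_mk]
        norm_num⟩⟩
    -- upper bound for the supremum
    have U : S * PD D (Cn X) ≤ C1 * PD D (Cn (insert (x n) X)) := by
      rw [← le_div_iff₀ pX, hS]
      apply ciSup_le
      rintro ⟨⟨⟨i, hi⟩, ⟨j, hj⟩⟩, hij⟩
      have hij' : i < j := hij
      rw [le_div_iff₀ pX]
      have t1 := (T i j hi hj (by omega)).r
      have t2 := f1 (x i) (Finset.mem_image_of_mem _ (Finset.mem_range.mpr hi)) (x j)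
        (Finset.mem_image_of_mem _ (Finset.mem_range.mpr hj))
        (hd i (by omega) j (by omega) (by omega))
      have t3 : Sf e (x n) (x i) (x j) * PD D (Cn X) ≤
        (k ^ 9 * (1 + c⁻¹)) * PD D (Cn (insert (x n) X)) := t2
      have p0 : 0 ≤ PD D (Cn (insert (x n) X)) := PD_nonneg _ _
      calc _ ≤ (K * K * K * Sf e (x n) (x i) (x j)) * PD D (Cn X) :=
            mul_le_mul_of_nonneg_right t1 pX.le
        _ = (K * K * K) * (Sf e (x n) (x i) (x j) * PD D (Cn X)) := by ring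
        _ ≤ (K * K * K) * ((k ^ 9 * (1 + c⁻¹)) * PD D (Cn (insert (x n) X))) :=
            mul_le_mul_of_nonneg_left t3 (by positivity)
        _ = (k ^ 9) * (((1 + c⁻¹) * (K * K * K)) * PD D (Cn (insert (x n) X))) := by ring
        _ ≤ (k ^ 12) * (((1 + c⁻¹) * (K * K * K)) * PD D (Cn (insert (x n) X))) := by
            apply mul_le_mul_of_nonneg_right _ (by positivity)
            exact pow_le_pow_right₀ hk (by norm_num)
        _ = _ := by rw [hC1]; ring
    -- lower bound for the supremum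
    have L : PD D (Cn (insert (x n) X)) ≤ C1 * (S * PD D (Cn X)) := by
      obtain ⟨i, hi, rfl⟩ := Finset.mem_image.mp hu
      obtain ⟨j, hj, rfl⟩ := Finset.mem_image.mp hv
      rw [Finset.mem_range] at hi hj
      have hij : i ≠ j := by
        rintro rfl
        exact huv rfl
      have f3 : PD D (Cn (insert (x n) X)) ≤ (k ^ 12 * (1 + c⁻¹)) *
        (Sf e (x n) (x i) (x j) * PD D (Cn X)) := f2
      have key : Sf e (x n) (x i) (x j) ≤ (K * K * K) * S := by
        rcases Nat.lt_or_ge i j with h | h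
        · refine (T i j hi hj hij).l.trans (mul_le_mul_of_nonneg_left ?_ (by positivity))
          exact le_ciSup hb ⟨(⟨i, hi⟩, ⟨j, hj⟩), h⟩
        · rw [Sf_symm]
          refine (T j i hj hi (Ne.symm hij)).l.trans (mul_le_mul_of_nonneg_left ?_ (by positivity))
          exact le_ciSup hb ⟨(⟨j, hj⟩, ⟨i, hi⟩), by
            show (⟨j, _⟩ : Fin n) < ⟨i, _⟩
            rw [Fin.mk_lt_mk]
            omega⟩
      calc _ ≤ _ := f3
        _ ≤ (k ^ 12 * (1 + c⁻¹)) * (((K * K * K) * S) * PD D (Cn X)) := by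
            apply mul_le_mul_of_nonneg_left _ (by positivity)
            exact mul_le_mul_of_nonneg_right key pX.le
        _ = _ := by rw [hC1]; ring
    -- positivity
    have hS0 : 0 < S := by
      have t := T 0 1 (by omega) (by omega) (by norm_num)
      refine lt_of_lt_of_le t.hy ?_
      exact le_ciSup hb ⟨(⟨0, by omega⟩, ⟨1, by omega⟩), by
        show (⟨0, _⟩ : Fin n) < ⟨1, _⟩
        rw [Fin.mk_lt_mk]
        norm_num⟩
    have hSX : 0 < S * PD D (Cn X) := mul_pos hS0 pX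
    have hI : 0 < PD D (Cn (insert (x n) X)) := by
      by_contra hcon
      push Not at hcon
      have : S * PD D (Cn X) ≤ 0 :=
        U.trans (mul_nonpos_of_nonneg_of_nonpos hC10.le hcon)
      linarith
    have t1 : Cmp C1 (PD D (Cn (insert (x n) X))) (S * PD D (Cn X)) := ⟨hC1', hI, hSX, L, U⟩
    have t2 := t1.trans ((Cmp.refl hS0).mul ih')
    exact (t2.congr rfl (mul_comm _ _)).weaken (le_of_eq (by ring))

/-- the half-plane -/
theorem kpoint_H (hA : ArS) : ∃ C : ℝ, 1 ≤ C ∧ ∀ (n : ℕ) (x : ℕ → Vtx), 2 ≤ n →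
    (∀ i < n, x i ∈ DH) → (∀ i < n, ∀ j < n, i ≠ j → x i ≠ x j) →
      Cmp (C ^ n) (PD DH (Cn ((Finset.range n).image x))) (kFun gH (fun i => cx (x i)) n) := by
  obtain ⟨c2, g2⟩ := good_H hA
  obtain ⟨k, hk⟩ := reg_H hA
  exact kpoint g2 (fun v hv => eH_one hv) hk (K := 6) (fun x hx y hy hxy => two_H hx hy hxy)
    (by norm_num)

/-- the quadrant -/
theorem kpoint_Q (hA : ArS) : ∃ C : ℝ, 1 ≤ C ∧ ∀ (n : ℕ) (x : ℕ → Vtx), 2 ≤ n →
    (∀ i < n, x i ∈ DQ) → (∀ i < n, ∀ j < n, i ≠ j → x i ≠ x j) →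
      Cmp (C ^ n) (PD DQ (Cn ((Finset.range n).image x))) (kFun gQ (fun i => cx (x i)) n) := by
  obtain ⟨c1, g1⟩ := good_Q hA
  obtain ⟨k, hk⟩ := reg_Q hA
  obtain ⟨K, hK⟩ := two_Q hA
  have h0 : 1 ≤ K := (hK (1, 1) ⟨le_rfl, le_rfl⟩ (2, 1) ⟨by norm_num, le_rfl⟩ (by
    intro h
    have := congrArg Prod.fst h
    norm_num at this)).hk
  exact kpoint g1 (fun v hv => e_one hv) hk hK h0

end TH976
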