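import Pool.Agent.TH976.Cov

/-!
Regularity of the profiles, and the factorization of the connection probabilities.
-/

set_option autoImplicit false

namespace TH976
open Finset H974 Pool.Agent.H160R2.CV H362P MeasureTheory
open Pool.Agent.H160R2.CV.Quad Pool.Agent.H389R2.CD

/-- regular profiles -/
structure Reg (D : Set Vtx) (e : Vtx → ℕ → ℝ) (k : ℝ) : Prop where
  hk : 1 ≤ k
  pos : ∀ v ∈ D, ∀ n : ℕ, 1 ≤ n → 0 < e v n
  anti : ∀ v ∈ D, ∀ n m : ℕ, 1 ≤ n → n ≤ m → e v m ≤ k * e v n
  dbl : ∀ v ∈ D, ∀ n : ℕ, 1 ≤ n → e v n ≤ k * e v (3 * n)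
  rat : ∀ u ∈ D, ∀ v ∈ D, ∀ r n : ℕ, sd u v ≤ r → 1 ≤ r → r ≤ n →
    e u r * e v n ≤ k * (e u n * e v r)

/-- the quadrant with lower left corner `(L, 1)` -/
def DL (L : ℤ) : Set Vtx := {v | L ≤ v.1 ∧ 1 ≤ v.2}

theorem reg_L (hA : ArS) : ∃ k : ℝ, ∀ L : ℤ, Reg (DL L) (EL L) k := by
  obtain ⟨K, h⟩ := aq_sh_cmp hA
  have hK : 1 ≤ K := (h 0 (1, 1) (by norm_num) 1 le_rfl).hk
  have hK0 : 0 < K := by linarith
  have d0 := kd_pos
  have r0 := kr_pos
  have hdi : 1 ≤ kd⁻¹ := by rw [inv_eq_one_div, le_div_iff₀ d0]; linarith [kd_le]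
  have hri : 1 ≤ kr⁻¹ := by rw [inv_eq_one_div, le_div_iff₀ r0]; linarith [kr_le_kd, kd_le]
  have hri0 : 0 < kr⁻¹ := by linarith
  have hdi0 : 0 < kd⁻¹ := by linarith
  have hK2 : 1 ≤ K ^ 2 := one_le_pow₀ hK
  have hK4 : 1 ≤ K ^ 4 := one_le_pow₀ hK
  have q1 : 1 ≤ kd⁻¹ * kr⁻¹ := Cmp.one_le_mul' hdi hri
  refine ⟨K ^ 4 * (kd⁻¹ * kr⁻¹), fun L => ?_⟩
  have hsh : ∀ v ∈ DL L, InV (sh L v) := by
    intro v hv
    obtain ⟨h1, h2⟩ := hv
    unfold InV sh
    simp only
    omega
  refine ⟨Cmp.one_le_mul' hK4 q1, fun v hv n hn => (h L v hv n hn).hy, ?_, ?_, ?_⟩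
  · intro v hv n m hn hnm
    have c1 := h L v hv n hn
    have c2 := h L v hv m (by omega)
    have h1 : aq (sh L v) m ≤ aq (sh L v) n := aq_anti hnm
    generalize aq (sh L v) n = A at *
    generalize aq (sh L v) m = B at *
    generalize EL L v n = A' at *
    generalize EL L v m = B' at *
    obtain ⟨-, A0, A0', A1, A2⟩ := c1
    obtain ⟨-, B0, B0', B1, B2⟩ := c2
    calc B' ≤ K * B := B2
      _ ≤ K * A := mul_le_mul_of_nonneg_left h1 hK0.le
      _ ≤ K * (K * A') := mul_le_mul_of_nonneg_left A1 hK0.le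
      _ = 1 * (K ^ 2 * A') := by ring
      _ ≤ (K ^ 2 * (kd⁻¹ * kr⁻¹)) * (K ^ 2 * A') :=
          mul_le_mul_of_nonneg_right (Cmp.one_le_mul' hK2 q1) (by positivity)
      _ = _ := by ring
  · intro v hv n hn
    have c1 := h L v hv n hn
    have c2 := h L v hv (3 * n) (by omega)
    have h1 : aq (sh L v) n ≤ kd⁻¹ * aq (sh L v) (3 * n) := by
      rw [inv_mul_eq_div, le_div_iff₀ d0, mul_comm]
      exact aq_dbl (hsh v hv) n
    generalize aq (sh L v) n = A at *
    generalize aq (sh L v) (3 * n) = B at *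
    generalize EL L v n = A' at *
    generalize EL L v (3 * n) = B' at *
    obtain ⟨-, A0, A0', A1, A2⟩ := c1
    obtain ⟨-, B0, B0', B1, B2⟩ := c2
    calc A' ≤ K * A := A2
      _ ≤ K * (kd⁻¹ * B) := mul_le_mul_of_nonneg_left h1 hK0.le
      _ ≤ K * (kd⁻¹ * (K * B')) := by
          apply mul_le_mul_of_nonneg_left _ hK0.le
          exact mul_le_mul_of_nonneg_left B1 hdi0.le
      _ = 1 * (K ^ 2 * kd⁻¹ * B') := by ring
      _ ≤ (K ^ 2 * kr⁻¹) * (K ^ 2 * kd⁻¹ * B') :=
          mul_le_mul_of_nonneg_right (Cmp.one_le_mul' hK2 hri) (by positivity)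
      _ = _ := by ring
  · intro u hu v hv r n huv hr hrn
    have c1 := h L u hu r hr
    have c2 := h L v hv n (by omega)
    have c3 := h L u hu n (by omega)
    have c4 := h L v hv r hr
    have h1 : aq (sh L u) r * aq (sh L v) n ≤ kr⁻¹ * (aq (sh L u) n * aq (sh L v) r) := by
      rw [inv_mul_eq_div, le_div_iff₀ r0, mul_comm]
      exact aq_rat (hsh u hu) (hsh v hv) hr (by rw [sd_sh]; exact huv) hrn
    generalize aq (sh L u) r = A at *
    generalize aq (sh L v) n = B at *
    generalize aq (sh L u) n = C at *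
    generalize aq (sh L v) r = D at *
    generalize EL L u r = A' at *
    generalize EL L v n = B' at *
    generalize EL L u n = C' at *
    generalize EL L v r = D' at *
    obtain ⟨-, A0, A0', A1, A2⟩ := c1
    obtain ⟨-, B0, B0', B1, B2⟩ := c2
    obtain ⟨-, C0, C0', C1, C2⟩ := c3
    obtain ⟨-, D0, D0', D1, D2⟩ := c4
    calc A' * B' ≤ (K * A) * (K * B) := mul_le_mul A2 B2 B0'.le (by positivity)
      _ = K ^ 2 * (A * B) := by ring
      _ ≤ K ^ 2 * (kr⁻¹ * (C * D)) := mul_le_mul_of_nonneg_left h1 (by positivity)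
      _ ≤ K ^ 2 * (kr⁻¹ * ((K * C') * (K * D'))) := by
          apply mul_le_mul_of_nonneg_left _ (by positivity)
          apply mul_le_mul_of_nonneg_left _ hri0.le
          exact mul_le_mul C1 D1 D0.le (by positivity)
      _ = 1 * (K ^ 4 * kr⁻¹ * (C' * D')) := by ring
      _ ≤ kd⁻¹ * (K ^ 4 * kr⁻¹ * (C' * D')) := mul_le_mul_of_nonneg_right hdi (by positivity)
      _ = _ := by ring

theorem reg_Q (hA : ArS) : ∃ k : ℝ, Reg DQ eQ k := by
  obtain ⟨k, h⟩ := reg_L hA
  have h1 := h 1
  refine ⟨k, h1.hk, ?_, ?_, ?_, ?_⟩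
  · intro v hv n hn
    rw [← EL_one]
    exact h1.pos v hv n hn
  · intro v hv n m hn hnm
    rw [← EL_one, ← EL_one]
    exact h1.anti v hv n m hn hnm
  · intro v hv n hn
    rw [← EL_one, ← EL_one]
    exact h1.dbl v hv n hn
  · intro u hu v hv r n huv hr hrn
    rw [← EL_one, ← EL_one, ← EL_one, ← EL_one]
    exact h1.rat u hu v hv r n huv hr hrn

theorem reg_H (hA : ArS) : ∃ k : ℝ, Reg DH eH k := by
  obtain ⟨k, h⟩ := reg_L hA
  refine ⟨k, (h 0).hk, ?_, ?_, ?_, ?_⟩
  · intro v hv n hn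
    have hv' : (1 : ℤ) ≤ v.2 := hv
    have h1 := (h (-((v.1.natAbs + v.2.natAbs + n : ℕ) : ℤ))).pos v
      ⟨by omega, hv'⟩ n hn
    rwa [EL_half hn (by omega) (by omega)] at h1
  · intro v hv n m hn hnm
    have hv' : (1 : ℤ) ≤ v.2 := hv
    have h1 := (h (-((v.1.natAbs + v.2.natAbs + n + m : ℕ) : ℤ))).anti v
      ⟨by omega, hv'⟩ n m hn hnm
    rwa [EL_half hn (by omega) (by omega), EL_half (by omega) (by omega) (by omega)] at h1
  · intro v hv n hn
    have hv' : (1 : ℤ) ≤ v.2 := hv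
    have h1 := (h (-((v.1.natAbs + v.2.natAbs + 3 * n : ℕ) : ℤ))).dbl v
      ⟨by omega, hv'⟩ n hn
    rwa [EL_half hn (by omega) (by omega), EL_half (by omega) (by omega) (by omega)] at h1
  · intro u hu v hv r n huv hr hrn
    have hv' : (1 : ℤ) ≤ v.2 := hv
    have hu' : (1 : ℤ) ≤ u.2 := hu
    have h1 := (h (-((v.1.natAbs + v.2.natAbs + u.1.natAbs + u.2.natAbs + n : ℕ) : ℤ))).rat u
      ⟨by omega, hu'⟩ v ⟨by omega, hv'⟩ r n huv hr hrn
    rwa [EL_half hr (by omega) (by omega), EL_half (by omega) (by omega) (by omega),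
      EL_half (by omega) (by omega) (by omega), EL_half hr (by omega) (by omega)] at h1

namespace Reg
variable {D : Set Vtx} {e : Vtx → ℕ → ℝ} {k : ℝ}

theorem near2 (h : Reg D e k) {v : Vtx} (hv : v ∈ D) {n m : ℕ} (hn : 1 ≤ n) (hm : 1 ≤ m)
    (h1 : n ≤ 3 * m) (h2 : m ≤ 3 * n) : Cmp (k * k) (e v n) (e v m) := by
  have k0 : 0 < k := lt_of_lt_of_le one_pos h.hk
  refine ⟨Cmp.one_le_mul' h.hk h.hk, h.pos v hv n hn, h.pos v hv m hm, ?_, ?_⟩
  · calc e v n ≤ k * e v (3 * n) := h.dbl v hv n hn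
      _ ≤ k * (k * e v m) := mul_le_mul_of_nonneg_left (h.anti v hv m (3 * n) hm h2) k0.le
      _ = _ := by ring
  · calc e v m ≤ k * e v (3 * m) := h.dbl v hv m hm
      _ ≤ k * (k * e v n) := mul_le_mul_of_nonneg_left (h.anti v hv n (3 * m) hn h1) k0.le
      _ = _ := by ring

theorem rat' (h : Reg D e k) {u v : Vtx} (hu : u ∈ D) (hv : v ∈ D) {r n : ℕ} (huv : sd u v ≤ r)
    (hr : 1 ≤ r) (hrn : r ≤ n) : Cmp k (e u n / e u r) (e v n / e v r) := by
  have h1 := h.rat u hu v hv r n huv hr hrn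
  have h2 := h.rat v hv u hu r n (by rw [sd_comm]; exact huv) hr hrn
  have u1 := h.pos u hu n (by omega)
  have u2 := h.pos u hu r hr
  have v1 := h.pos v hv n (by omega)
  have v2 := h.pos v hv r hr
  have hk := h.hk
  generalize e u n = A at *
  generalize e u r = B at *
  generalize e v n = C at *
  generalize e v r = D' at *
  refine ⟨hk, by positivity, by positivity, ?_, ?_⟩
  · rw [← mul_div_assoc, div_le_div_iff₀ u2 v2]
    linarith
  · rw [← mul_div_assoc, div_le_div_iff₀ v2 u2]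
    linarith

/-- the basic comparison: three points -/
theorem three (h : Reg D e k) {x u v : Vtx} (hx : x ∈ D) (hu : u ∈ D) (hv : v ∈ D) (hxu : x ≠ u)
    (huv : u ≠ v) (hle : sd x u ≤ sd x v) :
    Cmp (k ^ 6) (Real.sqrt ((e x (sd x u) * e u (sd x u)) * (e x (sd x v) * e v (sd x v)) /
      (e u (sd u v) * e v (sd u v))))
      (e x (sd x u) * e u (max (sd x u) (sd u v)) / e u (sd u v)) := by
  have n1 := sd_pos hxu
  have m1 := sd_pos huv
  have t1 := sd_tri x u v
  have t2 := sd_tri u x v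
  rw [sd_comm u x] at t2
  set a := sd x u with ha
  set b := sd x v with hb
  set m := sd u v with hm
  set N := max a m with hN
  have c1 := h.near2 hx (n := b) (m := N) (by omega) (by omega) (by omega) (by omega)
  have c2 := h.near2 hv (n := b) (m := N) (by omega) (by omega) (by omega) (by omega)
  have c3 := h.rat' hv hu (r := m) (n := N) (by rw [sd_comm]) m1 (by omega)
  have c4 := h.rat' hx hu (r := a) (n := N) le_rfl n1 (by omega)
  have p1 := h.pos x hx a n1
  have p2 := h.pos u hu a n1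
  have p3 := h.pos x hx N (by omega)
  have p4 := h.pos v hv N (by omega)
  have p5 := h.pos u hu m m1
  have p6 := h.pos v hv m m1
  have p7 := h.pos u hu N (by omega)
  have p8 := h.pos x hx b (by omega)
  have p9 := h.pos v hv b (by omega)
  have hk := h.hk
  generalize e x a = A at *
  generalize e u a = B at *
  generalize e x N = C at *
  generalize e v N = E1 at *
  generalize e u m = F at *
  generalize e v m = G at *
  generalize e u N = H at *
  generalize e x b = C' at *
  generalize e v b = E' at *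
  -- first replace `b` by `N`
  have s1 : Cmp ((1 * (k * k)) * (k * k)) ((A * B) * (C' * E') / (F * G))
      ((A * B) * (C * E1) / (F * G)) := by
    have t3 := ((Cmp.refl (show 0 < A * B / (F * G) by positivity)).mul c1).mul c2
    exact t3.congr (by ring) (by ring)
  have s2 : Cmp ((1 * k) * k) ((A * B) * (C * E1) / (F * G)) ((A * H / F) ^ 2) := by
    have t3 := ((Cmp.refl (show 0 < A * A * B / F by positivity)).mul c4).mul c3
    refine t3.congr ?_ ?_
    · field_simp
    · field_simp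
  have s3 := s1.trans s2
  have s4 : Cmp (k ^ 6) (Real.sqrt ((A * B) * (C' * E') / (F * G))) (Real.sqrt ((A * H / F) ^ 2)) := by
    rw [Real.sqrt_eq_rpow, Real.sqrt_eq_rpow]
    exact (s3.rpow (by norm_num) (by norm_num)).weaken (le_of_eq (by ring))
  rw [Real.sqrt_sq (by positivity)] at s4
  exact s4

end Reg

/-- The factor of a new point. -/
theorem factor {D : Set Vtx} {e : Vtx → ℕ → ℝ} {c k : ℝ} (g : Good D e c) (h : Reg D e k)
    {X : Finset Vtx} (hX : ∀ u ∈ X, u ∈ D) (h2 : 2 ≤ X.card) {x : Vtx} (hx : x ∈ D)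
    (hxX : x ∉ X) :
    (∀ u ∈ X, ∀ v ∈ X, u ≠ v →
      Real.sqrt ((e x (sd x u) * e u (sd x u)) * (e x (sd x v) * e v (sd x v)) /
        (e u (sd u v) * e v (sd u v))) * PD D (Cn X) ≤
        (k ^ 9 * (1 + c⁻¹)) * PD D (Cn (insert x X))) ∧
    ∃ u ∈ X, ∃ v ∈ X, u ≠ v ∧ PD D (Cn (insert x X)) ≤ (k ^ 12 * (1 + c⁻¹)) *
      (Real.sqrt ((e x (sd x u) * e u (sd x u)) * (e x (sd x v) * e v (sd x v)) /
        (e u (sd u v) * e v (sd u v))) * PD D (Cn X)) := by
  have hk := h.hk
  have k0 : 0 < k := by linarith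
  have hci : 0 < c⁻¹ := inv_pos.mpr g.1
  have hne : X.Nonempty := Finset.card_pos.mp (by omega)
  obtain ⟨a, ha⟩ := exists_near hne x
  obtain ⟨d, hd⟩ := exists_diam hne
  have a1 := near_one hxX ha
  have d1 : 1 ≤ d := by
    obtain ⟨p, hp, q, hq, hpq⟩ := Finset.one_lt_card.mp (show 1 < X.card by omega)
    have := hd.2 ⟨p, hp, q, hq, rfl⟩
    have := sd_pos hpq
    omega
  have e1 : max d 1 = d := max_eq_left d1
  have hxne : ∀ u ∈ X, x ≠ u := by
    rintro u hu rfl
    exact hxX hu
  -- the comparison at any point of `X`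
  have T : ∀ y ∈ X, Cmp (1 + c⁻¹) (PD D (Cn (insert x X)))
      (e x a * e y (max a d) / e y d * PD D (Cn X)) := by
    intro y hy
    have := g.cmp hX hx hxX hy ha hd
    rwa [e1] at this
  have pX := g.pos hX hne
  constructor
  · -- every pair
    have key : ∀ u ∈ X, ∀ v ∈ X, u ≠ v → sd x u ≤ sd x v →
      Real.sqrt ((e x (sd x u) * e u (sd x u)) * (e x (sd x v) * e v (sd x v)) /
        (e u (sd u v) * e v (sd u v))) * PD D (Cn X) ≤
        (k ^ 9 * (1 + c⁻¹)) * PD D (Cn (insert x X)) := by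
      intro u hu v hv huv hle
      have t := T u hu
      have s := h.three hx (hX u hu) (hX v hv) (hxne u hu) huv hle
      have hau : a ≤ sd x u := ha.2 ⟨u, hu, rfl⟩
      have hm : sd u v ≤ d := hd.2 ⟨u, hu, v, hv, rfl⟩
      have m1 := sd_pos huv
      have r1 := h.anti x hx a (sd x u) a1 hau
      have p1 := h.pos x hx a a1
      have p2 := h.pos x hx (sd x u) (by omega)
      have p3 := h.pos u (hX u hu) (sd u v) m1
      have p4 := h.pos u (hX u hu) d d1
      have p5 := h.pos u (hX u hu) (max a d) (by omega)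
      have p6 := h.pos u (hX u hu) (max (sd x u) (sd u v)) (by omega)
      have r2 : e u (max (sd x u) (sd u v)) / e u (sd u v) ≤
          k ^ 2 * (e u (max a d) / e u d) := by
        rcases le_or_gt a d with h3 | h3
        · rw [max_eq_right h3, div_self p4.ne', mul_one, div_le_iff₀ p3]
          have := h.anti u (hX u hu) (sd u v) (max (sd x u) (sd u v)) m1 (by omega)
          nlinarith [mul_pos k0 p3]
        · have h4 : max (sd x u) (sd u v) = sd x u := by omega
          rw [h4, max_eq_left h3.le] at *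
          have q1 := h.anti u (hX u hu) a (sd x u) a1 hau
          have q2 := h.anti u (hX u hu) (sd u v) d m1 hm
          rw [← mul_div_assoc, div_le_div_iff₀ p3 p4]
          calc e u (sd x u) * e u d ≤ (k * e u a) * (k * e u (sd u v)) :=
                mul_le_mul q1 q2 p4.le (by positivity)
            _ = _ := by ring
      have r3 : e x (sd x u) * e u (max (sd x u) (sd u v)) / e u (sd u v) ≤
          k ^ 3 * (e x a * e u (max a d) / e u d) := by
        calc e x (sd x u) * e u (max (sd x u) (sd u v)) / e u (sd u v)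
            = e x (sd x u) * (e u (max (sd x u) (sd u v)) / e u (sd u v)) := by ring
          _ ≤ (k * e x a) * (k ^ 2 * (e u (max a d) / e u d)) :=
              mul_le_mul r1 r2 (by positivity) (by positivity)
          _ = _ := by ring
      have s' := s.l
      have t' := t.r
      have pI := t.hx
      generalize Real.sqrt ((e x (sd x u) * e u (sd x u)) * (e x (sd x v) * e v (sd x v)) /
        (e u (sd u v) * e v (sd u v))) = Q at *
      generalize PD D (Cn (insert x X)) = p' at *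
      generalize PD D (Cn X) = p at *
      generalize e x (sd x u) * e u (max (sd x u) (sd u v)) / e u (sd u v) = U at *
      generalize e x a * e u (max a d) / e u d = V at *
      calc Q * p ≤ (k ^ 6 * (k ^ 3 * V)) * p := by
            apply mul_le_mul_of_nonneg_right _ pX.le
            exact s'.trans (mul_le_mul_of_nonneg_left r3 (by positivity))
        _ = k ^ 9 * (V * p) := by ring
        _ ≤ k ^ 9 * ((1 + c⁻¹) * p') := mul_le_mul_of_nonneg_left t' (by positivity)
        _ = _ := by ring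
    intro u hu v hv huv
    rcases le_total (sd x u) (sd x v) with hle | hle
    · exact key u hu v hv huv hle
    · have := key v hv u hu (Ne.symm huv) hle
      rw [sd_comm v u] at this
      refine le_trans (le_of_eq ?_) this
      congr 2
      ring
  · -- the best pair
    obtain ⟨⟨u, hu, hau⟩, hmin⟩ := ha
    obtain ⟨⟨p, hp, q, hq, hD⟩, hmax⟩ := hd
    obtain ⟨v, hv, hdv⟩ : ∃ v ∈ X, d ≤ 2 * sd u v := by
      have h1 : d ≤ sd u p + sd u q := by
        rw [hD, sd_comm u p]
        exact sd_tri p u q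
      rcases Nat.lt_or_ge (sd u p) (sd u q) with h2 | h2
      · exact ⟨q, hq, by omega⟩
      · exact ⟨p, hp, by omega⟩
    have huv : u ≠ v := by
      rintro rfl
      rw [sd_self] at hdv
      omega
    have hmv : sd u v ≤ d := hmax ⟨u, hu, v, hv, rfl⟩
    refine ⟨u, hu, v, hv, huv, ?_⟩
    have hle : sd x u ≤ sd x v := by
      rw [← hau]
      exact hmin ⟨v, hv, rfl⟩
    have m1 := sd_pos huv
    have s := h.three hx (hX u hu) (hX v hv) (hxne u hu) huv hle
    have t := T u hu
    rw [← hau] at s ⊢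
    have c1 := h.near2 (hX u hu) (n := d) (m := sd u v) d1 m1 (by omega) (by omega)
    have c2 := h.near2 (hX u hu) (n := max a d) (m := max a (sd u v)) (by omega) (by omega)
      (by omega) (by omega)
    have p1 := h.pos x hx a a1
    have c3 := (((Cmp.refl p1).mul c2).div c1).mul (Cmp.refl pX)
    have c4 := (t.trans c3).trans (s.symm.mul (Cmp.refl pX))
    refine c4.l.trans ?_
    have hq := c4.hy
    generalize Real.sqrt ((e x a * e u a) * (e x (sd x v) * e v (sd x v)) /
        (e u (sd u v) * e v (sd u v))) = Q at *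
    generalize PD D (Cn X) = p'' at *
    apply mul_le_mul_of_nonneg_right _ hq.le
    have : (1 + c⁻¹) * (1 * (k * k) * (k * k) * 1) * (k ^ 6 * 1) = k ^ 10 * (1 + c⁻¹) := by ring
    rw [this]
    apply mul_le_mul_of_nonneg_right _ (by positivity)
    exact pow_le_pow_right₀ hk (by norm_num)

end TH976
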