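import Pool.Agent.TH976.Conf

/-!
Scaling: the `k`-point functions at small mesh.
-/

set_option autoImplicit false

namespace TH976
open Complex Set Metric Filter Topology

theorem Cmp.iSup' {ι : Type*} [Finite ι] [Nonempty ι] {K : ℝ} {a b : ι → ℝ}
    (h : ∀ i, Cmp K (a i) (b i)) : Cmp K (⨆ i, a i) (⨆ i, b i) := by
  obtain ⟨i0⟩ := ‹Nonempty ι›
  have ba : BddAbove (Set.range a) := (Set.finite_range _).bddAbove
  have bb : BddAbove (Set.range b) := (Set.finite_range _).bddAbove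
  have k0 := (h i0).k0
  refine ⟨(h i0).hk, lt_of_lt_of_le (h i0).hx (le_ciSup ba i0),
    lt_of_lt_of_le (h i0).hy (le_ciSup bb i0), ?_, ?_⟩
  · apply ciSup_le
    intro i
    exact (h i).l.trans (mul_le_mul_of_nonneg_left (le_ciSup bb i) k0.le)
  · apply ciSup_le
    intro i
    exact (h i).r.trans (mul_le_mul_of_nonneg_left (le_ciSup ba i) k0.le)

theorem pair_nonempty {n : ℕ} (hn : 2 ≤ n) : Nonempty {p : Fin n × Fin n // p.1 < p.2} :=
  ⟨⟨(⟨0, by omega⟩, ⟨1, by omega⟩), by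
    show (⟨0, _⟩ : Fin n) < ⟨1, _⟩
    rw [Fin.mk_lt_mk]
    norm_num⟩⟩

theorem kFun_cmp {g : ℂ → ℂ → ℝ} {z z' : ℕ → ℂ} {k : ℕ} (hk : 2 ≤ k)
    (hg : ∀ i < k, ∀ j < k, i ≠ j → Cmp 2 (g (z' i) (z' j)) (g (z i) (z j))) :
    Cmp (8 ^ k) (kFun g z' k) (kFun g z k) := by
  induction k, hk using Nat.le_induction with
  | base =>
    have h := hg 0 (by norm_num) 1 (by norm_num) (by norm_num)
    unfold kFun
    rw [Finset.Ico_self, Finset.prod_empty, mul_one, Finset.prod_empty, mul_one]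
    exact h.weaken (by norm_num)
  | succ n hn ih =>
    have ih' := ih (fun i hi j hj hij => hg i (by omega) j (by omega) hij)
    unfold kFun at ih' ⊢
    rw [Finset.prod_Ico_succ_top hn, Finset.prod_Ico_succ_top hn, ← mul_assoc, ← mul_assoc]
    have := pair_nonempty hn
    have key := Cmp.iSup' (ι := {p : Fin n × Fin n // p.1 < p.2}) (K := 8)
      (a := fun p => Real.sqrt (g (z' n) (z' p.1.1) * g (z' n) (z' p.1.2) /
        g (z' p.1.1) (z' p.1.2)))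
      (b := fun p => Real.sqrt (g (z n) (z p.1.1) * g (z n) (z p.1.2) /
        g (z p.1.1) (z p.1.2))) (by
        rintro ⟨⟨⟨i, hi⟩, ⟨j, hj⟩⟩, hij⟩
        have hij' : i < j := hij
        show Cmp 8 (Real.sqrt (g (z' n) (z' i) * g (z' n) (z' j) / g (z' i) (z' j)))
          (Real.sqrt (g (z n) (z i) * g (z n) (z j) / g (z i) (z j)))
        have t := ((hg n (by omega) i (by omega) (by omega)).mul
          (hg n (by omega) j (by omega) (by omega))).div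
          (hg i (by omega) j (by omega) (by omega))
        rw [Real.sqrt_eq_rpow, Real.sqrt_eq_rpow]
        exact (t.rpow (by norm_num) (by norm_num)).weaken (by norm_num))
    exact (ih'.mul key).weaken (le_of_eq (by ring))

theorem gH_cont {z w : ℂ} (hz : z ∈ UH) (hw : w ∈ UH) (hzw : z ≠ w) :
    ContinuousAt (fun p : ℂ × ℂ => gH p.1 p.2) (z, w) := by
  have z0 : 0 < z.im := hz
  have w0 : 0 < w.im := hw
  have n0 : 0 < ‖z - w‖ := norm_pos_iff.mpr (sub_ne_zero.mpr hzw)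
  unfold gH
  have c1 : ContinuousAt (fun p : ℂ × ℂ => ‖p.1 - p.2‖) (z, w) := by fun_prop
  have c2 : ContinuousAt (fun p : ℂ × ℂ => p.1.im * p.2.im) (z, w) := by fun_prop
  apply ContinuousAt.mul
  · exact c1.rpow_const (Or.inl n0.ne')
  · have c3 : ContinuousAt (fun p : ℂ × ℂ => 1 + ‖p.1 - p.2‖ ^ 2 / (p.1.im * p.2.im)) (z, w) :=
      continuousAt_const.add ((c1.pow 2).div c2 (by
        show z.im * w.im ≠ 0
        positivity))
    refine c3.rpow_const (Or.inl ?_)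
    show 1 + ‖z - w‖ ^ 2 / (z.im * w.im) ≠ 0
    positivity

theorem gH_pos {z w : ℂ} (hz : z ∈ UH) (hw : w ∈ UH) (hzw : z ≠ w) : 0 < gH z w := by
  have z0 : 0 < z.im := hz
  have w0 : 0 < w.im := hw
  have n0 : 0 < ‖z - w‖ := norm_pos_iff.mpr (sub_ne_zero.mpr hzw)
  unfold gH
  positivity

theorem sq_ne {z w : ℂ} (hz : z ∈ UQ) (hw : w ∈ UQ) (hzw : z ≠ w) : z ^ 2 ≠ w ^ 2 := by
  intro h
  have h1 : (z - w) * (z + w) = 0 := by linear_combination h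
  rcases mul_eq_zero.mp h1 with h2 | h2
  · exact hzw (sub_eq_zero.mp h2)
  · have h3 := congrArg Complex.re h2
    rw [Complex.add_re, Complex.zero_re] at h3
    have h4 : 0 < z.re := hz.1
    have h5 : 0 < w.re := hw.1
    linarith

theorem UQ_ne {z : ℂ} (hz : z ∈ UQ) : z ≠ 0 := by
  rintro rfl
  have h4 : 0 < (0 : ℂ).re := hz.1
  rw [Complex.zero_re] at h4
  exact lt_irrefl _ h4

theorem gQ_pos {z w : ℂ} (hz : z ∈ UQ) (hw : w ∈ UQ) (hzw : z ≠ w) : 0 < gQ z w := by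
  unfold gQ
  have h1 := gH_pos (conf_sq.2.1 hz) (conf_sq.2.1 hw) (sq_ne hz hw hzw)
  have h2 : 0 < ‖2 * z‖ := norm_pos_iff.mpr (mul_ne_zero two_ne_zero (UQ_ne hz))
  have h3 : 0 < ‖2 * w‖ := norm_pos_iff.mpr (mul_ne_zero two_ne_zero (UQ_ne hw))
  have h1' : 0 < gH (z ^ 2) (w ^ 2) := h1
  positivity

theorem gQ_cont {z w : ℂ} (hz : z ∈ UQ) (hw : w ∈ UQ) (hzw : z ≠ w) :
    ContinuousAt (fun p : ℂ × ℂ => gQ p.1 p.2) (z, w) := by
  unfold gQ
  have h2 : 0 < ‖2 * z‖ := norm_pos_iff.mpr (mul_ne_zero two_ne_zero (UQ_ne hz))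
  have h3 : 0 < ‖2 * w‖ := norm_pos_iff.mpr (mul_ne_zero two_ne_zero (UQ_ne hw))
  have c1 : ContinuousAt (fun p : ℂ × ℂ => ‖2 * p.1‖) (z, w) := by fun_prop
  have c2 : ContinuousAt (fun p : ℂ × ℂ => ‖2 * p.2‖) (z, w) := by fun_prop
  have c3 : ContinuousAt (fun p : ℂ × ℂ => ((p.1 ^ 2, p.2 ^ 2) : ℂ × ℂ)) (z, w) := by fun_prop
  have c4 : ContinuousAt (fun p : ℂ × ℂ => gH p.1 p.2) (z ^ 2, w ^ 2) :=
    gH_cont (conf_sq.2.1 hz) (conf_sq.2.1 hw) (sq_ne hz hw hzw)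
  have c5 : ContinuousAt (fun p : ℂ × ℂ => gH (p.1 ^ 2) (p.2 ^ 2)) (z, w) :=
    ContinuousAt.comp (f := fun p : ℂ × ℂ => ((p.1 ^ 2, p.2 ^ 2) : ℂ × ℂ))
      (g := fun p : ℂ × ℂ => gH p.1 p.2) c4 c3
  exact ((c1.rpow_const (Or.inl h2.ne')).mul (c2.rpow_const (Or.inl h3.ne'))).mul c5

/-- a model domain with its two-point function -/
structure Mod (D : Set ℂ) (V : Set (ℤ × ℤ)) (g : ℂ → ℂ → ℝ) (u : ℂ → ℂ) : Prop where
  isOpen : IsOpen D
  conf : Conf D UH u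
  eq : pull u = g
  pos : ∀ z ∈ D, ∀ w ∈ D, z ≠ w → 0 < g z w
  cont : ∀ z ∈ D, ∀ w ∈ D, z ≠ w → ContinuousAt (fun p : ℂ × ℂ => g p.1 p.2) (z, w)
  cone : ∀ z : ℂ, ∀ e : ℝ, 0 < e → ((e : ℂ) * z ∈ D ↔ z ∈ D)
  vert : ∀ v : ℤ × ℤ, v ∈ V ↔ cx v ∈ D

theorem mod_H : Mod UH DH gH id := by
  refine ⟨UH_open, conf_id _, pull_id, fun z hz w hw h => gH_pos hz hw h,
    fun z hz w hw h => gH_cont hz hw h, ?_, ?_⟩
  · intro z e he
    show 0 < ((e : ℂ) * z).im ↔ 0 < z.im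
    rw [Complex.im_ofReal_mul, mul_pos_iff_of_pos_left he]
  · intro v
    show 1 ≤ v.2 ↔ 0 < ((v.2 : ℤ) : ℝ)
    rw [Int.cast_pos]
    omega

theorem mod_Q : Mod UQ DQ gQ (fun z => z ^ 2) := by
  refine ⟨UQ_open, conf_sq, pull_sq, fun z hz w hw h => gQ_pos hz hw h,
    fun z hz w hw h => gQ_cont hz hw h, ?_, ?_⟩
  · intro z e he
    show (0 < ((e : ℂ) * z).re ∧ 0 < ((e : ℂ) * z).im) ↔ (0 < z.re ∧ 0 < z.im)
    rw [Complex.im_ofReal_mul, Complex.re_ofReal_mul, mul_pos_iff_of_pos_left he,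
      mul_pos_iff_of_pos_left he]
  · intro v
    show (1 ≤ v.1 ∧ 1 ≤ v.2) ↔ (0 < ((v.1 : ℤ) : ℝ) ∧ 0 < ((v.2 : ℤ) : ℝ))
    rw [Int.cast_pos, Int.cast_pos]
    omega


namespace Mod
variable {D D' : Set ℂ} {V V' : Set (ℤ × ℤ)} {g g' : ℂ → ℂ → ℝ} {u u' : ℂ → ℂ}

/-- exact covariance of the `k`-point functions -/
theorem cov (h : Mod D V g u) (h' : Mod D' V' g' u') {φ : ℂ → ℂ} (hφ : Conf D D' φ) {k : ℕ}
    (hk : 2 ≤ k) {z : ℕ → ℂ} (hz : ∀ i < k, z i ∈ D) :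
    kFun g z k = (∏ i ∈ Finset.range k, ‖deriv φ (z i)‖ ^ (5 / 48 : ℝ)) *
      kFun g' (fun i => φ (z i)) k := by
  refine kFun_cov (J := fun y => ‖deriv φ y‖ ^ (5 / 48 : ℝ)) (φ := φ) hk ?_ ?_
  · intro i hi
    have := hφ.deriv_ne h.isOpen h'.isOpen (hz i hi)
    have := norm_pos_iff.mpr this
    positivity
  · intro i hi j hj _
    rw [← h.eq, ← h'.eq]
    exact pull_conf h.isOpen h'.isOpen h.conf h'.conf hφ (hz i hi) (hz j hj)

theorem conf_scale (h : Mod D V g u) {e : ℝ} (he : 0 < e) : Conf D D (fun z => (e : ℂ) * z) := by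
  have he' : (e : ℂ) ≠ 0 := by exact_mod_cast he.ne'
  refine ⟨by fun_prop, fun z hz => (h.cone z e he).mpr hz, fun z => ((e⁻¹ : ℝ) : ℂ) * z,
    by fun_prop, fun z hz => (h.cone z e⁻¹ (inv_pos.mpr he)).mpr hz, ?_, ?_⟩
  · intro z _
    show ((e⁻¹ : ℝ) : ℂ) * ((e : ℂ) * z) = z
    push_cast
    field_simp
  · intro z _
    show (e : ℂ) * (((e⁻¹ : ℝ) : ℂ) * z) = z
    push_cast
    field_simp

/-- scaling of the `k`-point functions -/
theorem scale (h : Mod D V g u) {e : ℝ} (he : 0 < e) {k : ℕ} (hk : 2 ≤ k) {z : ℕ → ℂ}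
    (hz : ∀ i < k, z i ∈ D) :
    kFun g z k = (e ^ (5 / 48 : ℝ)) ^ k * kFun g (fun i => (e : ℂ) * z i) k := by
  rw [h.cov h (h.conf_scale he) hk hz]
  congr 1
  have h1 : ∀ y : ℂ, deriv (fun z : ℂ => (e : ℂ) * z) y = (e : ℂ) := by
    intro y
    simp
  rw [Finset.prod_congr rfl (fun i _ => by rw [h1])]
  rw [Finset.prod_const, Finset.card_range, Complex.norm_of_nonneg he.le]

/-- small perturbations -/
theorem near (h : Mod D V g u) {z : ℕ → ℂ} {k : ℕ} (hz : ∀ i < k, z i ∈ D)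
    (hd : ∀ i < k, ∀ j < k, i ≠ j → z i ≠ z j) :
    ∀ᶠ e : ℝ in 𝓝[>] 0, ∀ i ∈ Finset.range k, ∀ j ∈ Finset.range k, i ≠ j → ∀ a b : ℂ,
      ‖a - z i‖ ≤ 2 * e → ‖b - z j‖ ≤ 2 * e →
        a ∈ D ∧ b ∈ D ∧ a ≠ b ∧ Cmp 2 (g a b) (g (z i) (z j)) := by
  rw [Finset.eventually_all]
  intro i hi
  rw [Finset.eventually_all]
  intro j hj
  rw [Finset.mem_range] at hi hj
  by_cases hij : i = j
  · filter_upwards with e h1
    exact absurd hij h1
  have hne := hd i hi j hj hij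
  have hp := h.pos _ (hz i hi) _ (hz j hj) hne
  have e1 : ∀ᶠ p : ℂ × ℂ in 𝓝 (z i, z j), p.1 ∈ D ∧ p.2 ∈ D ∧ p.1 ≠ p.2 ∧
      Cmp 2 (g p.1 p.2) (g (z i) (z j)) := by
    have f1 : ∀ᶠ p : ℂ × ℂ in 𝓝 (z i, z j), p.1 ∈ D :=
      continuous_fst.continuousAt.eventually (h.isOpen.mem_nhds (hz i hi))
    have f2 : ∀ᶠ p : ℂ × ℂ in 𝓝 (z i, z j), p.2 ∈ D :=
      continuous_snd.continuousAt.eventually (h.isOpen.mem_nhds (hz j hj))
    have f3 : ∀ᶠ p : ℂ × ℂ in 𝓝 (z i, z j), p.1 ≠ p.2 :=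
      (isOpen_ne_fun continuous_fst continuous_snd).mem_nhds hne
    have c := h.cont _ (hz i hi) _ (hz j hj) hne
    have f4 : ∀ᶠ p : ℂ × ℂ in 𝓝 (z i, z j), g p.1 p.2 < 2 * g (z i) (z j) :=
      c.eventually (Iio_mem_nhds (show g (z i) (z j) < 2 * g (z i) (z j) by linarith))
    have f5 : ∀ᶠ p : ℂ × ℂ in 𝓝 (z i, z j), g (z i) (z j) / 2 < g p.1 p.2 :=
      c.eventually (Ioi_mem_nhds (show g (z i) (z j) / 2 < g (z i) (z j) by linarith))
    filter_upwards [f1, f2, f3, f4, f5] with p q1 q2 q3 q4 q5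
    exact ⟨q1, q2, q3, ⟨by norm_num, by linarith, hp, q4.le, by linarith⟩⟩
  obtain ⟨δ, hδ, hδ'⟩ := Metric.eventually_nhds_iff.mp e1
  have e2 : ∀ᶠ e : ℝ in 𝓝[>] 0, e < δ / 2 :=
    nhdsWithin_le_nhds (Iio_mem_nhds (half_pos hδ))
  filter_upwards [e2] with e he _ a b ha hb
  have := hδ' (y := (a, b)) (by
    rw [Prod.dist_eq, max_lt_iff, dist_eq_norm, dist_eq_norm]
    constructor
    · show ‖a - z i‖ < δ
      linarith
    · show ‖b - z j‖ < δ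
      linarith)
  exact this

end Mod

/-- **Covariance at small mesh.** -/
theorem mesh {D D' : Set ℂ} {V V' : Set (ℤ × ℤ)} {g g' : ℂ → ℂ → ℝ} {u u' : ℂ → ℂ}
    {P P' : Finset (ℤ × ℤ) → ℝ} {C C' : ℝ} (h : Mod D V g u) (h' : Mod D' V' g' u')
    (hP : ∀ (n : ℕ) (x : ℕ → ℤ × ℤ), 2 ≤ n → (∀ i < n, x i ∈ V) →
      (∀ i < n, ∀ j < n, i ≠ j → x i ≠ x j) →
      Cmp (C ^ n) (P ((Finset.range n).image x)) (kFun g (fun i => cx (x i)) n))
    (hP' : ∀ (n : ℕ) (x : ℕ → ℤ × ℤ), 2 ≤ n → (∀ i < n, x i ∈ V') →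
      (∀ i < n, ∀ j < n, i ≠ j → x i ≠ x j) →
      Cmp (C' ^ n) (P' ((Finset.range n).image x)) (kFun g' (fun i => cx (x i)) n))
    {φ : ℂ → ℂ} (hφ : Conf D D' φ) {k : ℕ} (hk : 2 ≤ k) {z : ℕ → ℂ} (hz : ∀ i < k, z i ∈ D)
    (hd : ∀ i < k, ∀ j < k, i ≠ j → z i ≠ z j) :
    ∀ᶠ e : ℝ in 𝓝[>] 0, ∀ x y : ℕ → ℤ × ℤ, (∀ i < k, ‖(e : ℂ) * cx (x i) - z i‖ ≤ 2 * e) →
      (∀ i < k, ‖(e : ℂ) * cx (y i) - φ (z i)‖ ≤ 2 * e) →
      Cmp ((64 * C * C') ^ k) (P ((Finset.range k).image x))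
        ((∏ i ∈ Finset.range k, ‖deriv φ (z i)‖ ^ (5 / 48 : ℝ)) *
          P' ((Finset.range k).image y)) := by
  have hz' : ∀ i < k, φ (z i) ∈ D' := fun i hi => hφ.2.1 (hz i hi)
  have hd' : ∀ i < k, ∀ j < k, i ≠ j → φ (z i) ≠ φ (z j) := by
    intro i hi j hj hij he
    obtain ⟨-, -, ψ, -, -, h5, -⟩ := hφ
    apply hd i hi j hj hij
    rw [← h5 _ (hz i hi), he, h5 _ (hz j hj)]
  have e0 : ∀ᶠ e : ℝ in 𝓝[>] 0, 0 < e := self_mem_nhdsWithin
  filter_upwards [e0, h.near hz hd, h'.near hz' hd'] with e he n1 n2 x y hx hy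
  have other : ∀ i < k, ∃ j < k, i ≠ j := by
    intro i hi
    by_cases h0 : i = 0
    · exact ⟨1, by omega, by omega⟩
    · exact ⟨0, by omega, h0⟩
  have he' : (e : ℂ) ≠ 0 := by exact_mod_cast he.ne'
  have hxV : ∀ i < k, x i ∈ V := by
    intro i hi
    obtain ⟨j, hj, hij⟩ := other i hi
    have := (n1 i (Finset.mem_range.mpr hi) j (Finset.mem_range.mpr hj) hij _ _ (hx i hi)
      (hx j hj)).1
    rw [h.vert, ← h.cone _ e he]
    exact this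
  have hyV : ∀ i < k, y i ∈ V' := by
    intro i hi
    obtain ⟨j, hj, hij⟩ := other i hi
    have := (n2 i (Finset.mem_range.mpr hi) j (Finset.mem_range.mpr hj) hij _ _ (hy i hi)
      (hy j hj)).1
    rw [h'.vert, ← h'.cone _ e he]
    exact this
  have hxd : ∀ i < k, ∀ j < k, i ≠ j → x i ≠ x j := by
    intro i hi j hj hij heq
    have := (n1 i (Finset.mem_range.mpr hi) j (Finset.mem_range.mpr hj) hij _ _ (hx i hi)
      (hx j hj)).2.2.1
    rw [heq] at this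
    exact this rfl
  have hyd : ∀ i < k, ∀ j < k, i ≠ j → y i ≠ y j := by
    intro i hi j hj hij heq
    have := (n2 i (Finset.mem_range.mpr hi) j (Finset.mem_range.mpr hj) hij _ _ (hy i hi)
      (hy j hj)).2.2.1
    rw [heq] at this
    exact this rfl
  have t1 := hP k x hk hxV hxd
  have t2 := hP' k y hk hyV hyd
  have s1 := h.scale he hk (z := fun i => cx (x i)) (fun i hi => (h.vert _).mp (hxV i hi))
  have s2 := h'.scale he hk (z := fun i => cx (y i)) (fun i hi => (h'.vert _).mp (hyV i hi))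
  have c1 := kFun_cmp (g := g) (z := z) (z' := fun i => (e : ℂ) * cx (x i)) hk
    (fun i hi j hj hij => (n1 i (Finset.mem_range.mpr hi) j (Finset.mem_range.mpr hj) hij _ _
      (hx i hi) (hx j hj)).2.2.2)
  have c2 := kFun_cmp (g := g') (z := fun i => φ (z i)) (z' := fun i => (e : ℂ) * cx (y i)) hk
    (fun i hi j hj hij => (n2 i (Finset.mem_range.mpr hi) j (Finset.mem_range.mpr hj) hij _ _
      (hy i hi) (hy j hj)).2.2.2)
  have c3 := h.cov h' hφ hk hz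
  have J0 : 0 < ∏ i ∈ Finset.range k, ‖deriv φ (z i)‖ ^ (5 / 48 : ℝ) := by
    apply Finset.prod_pos
    intro i hi
    have := hφ.deriv_ne h.isOpen h'.isOpen (hz i (Finset.mem_range.mp hi))
    have := norm_pos_iff.mpr this
    positivity
  have a0 : 0 < (e ^ (5 / 48 : ℝ)) ^ k := by positivity
  rw [s1] at t1
  rw [s2] at t2
  rw [c3] at c1
  generalize (∏ i ∈ Finset.range k, ‖deriv φ (z i)‖ ^ (5 / 48 : ℝ)) = J at *
  generalize (e ^ (5 / 48 : ℝ)) ^ k = a at *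
  generalize kFun g (fun i => (e : ℂ) * cx (x i)) k = A at *
  generalize kFun g' (fun i => (e : ℂ) * cx (y i)) k = B at *
  generalize kFun g' (fun i => φ (z i)) k = B0 at *
  generalize P ((Finset.range k).image x) = p at *
  generalize P' ((Finset.range k).image y) = p' at *
  have r1 := t1.trans ((Cmp.refl a0).mul c1)
  have r2 := ((Cmp.refl a0).mul ((Cmp.refl J0).mul c2.symm))
  have r3 := (Cmp.refl J0).mul t2.symm
  have r4 := (r1.trans r2).trans (r3.congr (show a * (J * B) = J * (a * B) by ring) rfl)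
  refine r4.weaken (le_of_eq ?_)
  rw [mul_pow, mul_pow, show (64 : ℝ) = 8 * 8 by norm_num, mul_pow]
  ring

end TH976
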